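import Pool.Agent.Lib.HPP.C7
import Pool.Agent.Lib.HPC.Defs
import Pool.Agent.Lib.HUK.P1

/-!
# Project HPP, C8: Theorem P in the form `HPC.ThmPZ`
-/

open Finset Polynomial

namespace Pool.Agent.HPP

open Pool.Agent.HUK (DD DL DV bxS FF GG Bdd GG_succ GG_nonneg GG_one p1_DD_supp)

/-- Monotonicity of the Gowers norms on the integers. -/
theorem C8_mono (X : ℕ) : ∀ (s : ℕ), 1 ≤ s → ∀ (f : ℤ → ℂ), (∀ y, y ∉ Ico (-(X : ℤ)) X → f y = 0) →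
    GG X s f ^ 2 ≤ (4 * X : ℝ) ^ s * GG X (s + 1) f := by
  have hcard : (((Ioo (-(2 * X : ℤ)) (2 * X)).card : ℕ) : ℝ) ≤ 4 * X := by
    rw [Int.card_Ioo]
    have : ((2 * X : ℤ) - (-(2 * X : ℤ)) - 1).toNat ≤ 4 * X := by omega
    exact_mod_cast this
  have hX : (0 : ℝ) ≤ 4 * X := by positivity
  intro s hs
  induction s, hs using Nat.le_induction with
  | base =>
    intro f hf
    have h1 : GG X 1 f ≤ ∑ k ∈ Ioo (-(2 * X : ℤ)) (2 * X), ‖∑ y ∈ Ico (-(X : ℤ)) X, DD k f y‖ := by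
      have := GG_succ X 0 f
      simp only [Nat.zero_add] at this
      rw [this]
      refine Finset.sum_le_sum fun k _ => ?_
      have h2 : GG X 0 (DD k f) = (∑ y ∈ Ico (-(X : ℤ)) X, DD k f y).re := by
        unfold GG
        have : bxS 0 (2 * X) = {fun i => i.elim0} := by
          ext h
          simp only [bxS, Fintype.mem_piFinset, mem_singleton]
          constructor
          · intro _
            funext i
            exact i.elim0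
          · intro _ i
            exact i.elim0
        rw [this, Finset.sum_singleton]
        unfold FF
        rfl
      rw [h2]
      exact (Complex.re_le_norm _)
    have h0 : 0 ≤ GG X 1 f := GG_nonneg X 1 le_rfl f hf
    have h3 : GG X 2 f = ∑ k ∈ Ioo (-(2 * X : ℤ)) (2 * X), ‖∑ y ∈ Ico (-(X : ℤ)) X, DD k f y‖ ^ 2 := by
      rw [GG_succ X 1 f]
      refine Finset.sum_congr rfl fun k _ => ?_
      exact GG_one X _ (p1_DD_supp hf k)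
    calc GG X 1 f ^ 2 ≤ (∑ k ∈ Ioo (-(2 * X : ℤ)) (2 * X), ‖∑ y ∈ Ico (-(X : ℤ)) X, DD k f y‖) ^ 2 :=
          pow_le_pow_left₀ h0 h1 2
      _ ≤ ((Ioo (-(2 * X : ℤ)) (2 * X)).card : ℝ) *
          ∑ k ∈ Ioo (-(2 * X : ℤ)) (2 * X), ‖∑ y ∈ Ico (-(X : ℤ)) X, DD k f y‖ ^ 2 := sq_sum_le_card_mul_sum_sq
      _ ≤ (4 * X : ℝ) ^ 1 * GG X (1 + 1) f := by
          rw [pow_one]
          have h4 : GG X (1 + 1) f = GG X 2 f := rfl
          rw [h4, h3]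
          exact mul_le_mul_of_nonneg_right hcard (Finset.sum_nonneg fun k _ => by positivity)
  | succ s hs ih =>
    intro f hf
    have h0 : ∀ k, 0 ≤ GG X (s + 1) (DD k f) := fun k => GG_nonneg X (s + 1) (by omega) _ (p1_DD_supp hf k)
    rw [GG_succ X s f, GG_succ X (s + 1) f]
    calc (∑ k ∈ Ioo (-(2 * X : ℤ)) (2 * X), GG X s (DD k f)) ^ 2
        ≤ ((Ioo (-(2 * X : ℤ)) (2 * X)).card : ℝ) * ∑ k ∈ Ioo (-(2 * X : ℤ)) (2 * X), GG X s (DD k f) ^ 2 :=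
          sq_sum_le_card_mul_sum_sq
      _ ≤ (4 * X : ℝ) * ∑ k ∈ Ioo (-(2 * X : ℤ)) (2 * X), (4 * X : ℝ) ^ s * GG X (s + 1) (DD k f) := by
          refine mul_le_mul hcard (Finset.sum_le_sum fun k _ => ih _ (p1_DD_supp hf k))
            (Finset.sum_nonneg fun k _ => by positivity) hX
      _ = (4 * X : ℝ) ^ (s + 1) * ∑ k ∈ Ioo (-(2 * X : ℤ)) (2 * X), GG X (s + 1) (DD k f) := by
          rw [← Finset.mul_sum, pow_succ]
          ring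

theorem c8_sumint (n0 L : ℕ) (F : ℤ → ℂ) : ∑ n ∈ Ico n0 (n0 + L), F (n : ℤ) =
    ∑ n ∈ Ico ((n0 : ℕ) : ℤ) ((n0 + L : ℕ) : ℤ), F n := by
  refine Finset.sum_bij' (fun n _ => (n : ℤ)) (fun n _ => n.toNat) ?_ ?_ ?_ ?_ ?_
  · intro n hn
    rw [mem_Ico] at hn ⊢
    omega
  · intro n hn
    rw [mem_Ico] at hn ⊢
    omega
  · intro n _
    simp
  · intro n hn
    rw [mem_Ico] at hn
    simp only [Int.toNat_of_nonneg (by omega : 0 ≤ n)]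
  · intro n _
    rfl

/-- The analytic part: from the inequality of `C7_P` to a power saving. `Y = C0 X`, `N = 2 C0 X^D`, `G = GG (n + 1)`. -/
theorem c8_an (D n E C0 : ℕ) (hE : 0 < E) (hC0 : 1 ≤ C0) (hD : 1 ≤ D) (κ : ℝ) (hκ : 0 < κ) (C ε : ℝ) (hC : 0 ≤ C)
    (hε : ε = min κ 1 / (4 * (n + 1))) : ∃ X0 : ℕ, 1 ≤ X0 ∧ ∀ X : ℕ, X0 ≤ X → ∀ S G G2 : ℝ, 0 ≤ S → 0 ≤ G →
    G ^ 2 ≤ (4 * (C0 * X ^ D : ℕ) : ℝ) ^ (n + 1) * G2 → G2 ≤ (X : ℝ) ^ ((D : ℝ) * ((n + 2 : ℕ) + 1) - κ) →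
    (S / ((2 * (C0 * X ^ D : ℕ) : ℝ) * (C0 * X : ℕ))) ^ E ≤
      C * (((C0 * X : ℕ) : ℝ) ^ (-ε) + ((C0 * X : ℕ) : ℝ) ^ (n * (ε - D / 2)) * √G / (2 * (C0 * X ^ D : ℕ) : ℝ)) →
    S ≤ (X : ℝ) ^ ((D : ℝ) + 1 - ε / (2 * E)) := by
  have hε0 : 0 < ε := by
    rw [hε]
    have : 0 < min κ 1 := lt_min hκ one_pos
    positivity
  have hn0 : (0 : ℝ) < (n : ℝ) + 1 := by positivity
  have hε1 : ε * (4 * (n + 1)) = min κ 1 := by
    rw [hε]
    field_simp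
  have hεκ : (n + 1) * ε ≤ κ / 4 := by
    have : min κ 1 ≤ κ := min_le_left _ _
    nlinarith
  have hεD : ε ≤ (D : ℝ) / 2 := by
    have h1 : min κ 1 ≤ 1 := min_le_right _ _
    have h2 : ε ≤ ε * (n + 1) := by nlinarith [(Nat.cast_nonneg n : (0 : ℝ) ≤ n)]
    have h3 : (1 : ℝ) ≤ D := by exact_mod_cast hD
    nlinarith
  have hC0r : (1 : ℝ) ≤ C0 := by exact_mod_cast hC0
  obtain ⟨K, hK⟩ : ∃ K : ℝ, K = (4 * (C0 : ℝ)) ^ (n + 1) := ⟨_, rfl⟩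
  have hK1 : 1 ≤ K := by
    rw [hK]
    exact one_le_pow₀ (by linarith)
  obtain ⟨B, hB⟩ : ∃ B : ℝ, B = C * (1 + K) + 1 := ⟨_, rfl⟩
  have hB1 : 1 ≤ B := by
    rw [hB]
    have : 0 ≤ C * (1 + K) := by positivity
    linarith
  have hEr : (0 : ℝ) < E := by exact_mod_cast hE
  have hδ : 0 < ε / (2 * E) := by positivity
  -- X0
  obtain ⟨X0, hX0⟩ : ∃ X0 : ℕ, ∀ X : ℕ, X0 ≤ X → 2 * (C0 : ℝ) ^ 2 * B ^ ((1 : ℝ) / E) ≤ (X : ℝ) ^ (ε / (2 * E)) := by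
    have := (tendsto_rpow_atTop hδ).comp tendsto_natCast_atTop_atTop
    exact Filter.eventually_atTop.mp (this.eventually (Filter.eventually_ge_atTop (2 * (C0 : ℝ) ^ 2 * B ^ ((1 : ℝ) / E))))
  refine ⟨max X0 1, le_max_right _ _, fun X hX S G G2 hS hG h1 h2 h3 => ?_⟩
  have hX1 : 1 ≤ X := (le_max_right _ _).trans hX
  have hXr : (1 : ℝ) ≤ X := by exact_mod_cast hX1
  have hXp : (0 : ℝ) < X := by linarith
  have hXX := hX0 X ((le_max_left _ _).trans hX)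
  -- the square root
  have hG2 : √G ≤ K * (X : ℝ) ^ ((D : ℝ) * (n + 2) / 2 - κ / 4) := by
    have e1 : G ^ 2 ≤ (K * (X : ℝ) ^ ((D : ℝ) * (n + 2) / 2 - κ / 4)) ^ 4 := by
      calc G ^ 2 ≤ (4 * (C0 * X ^ D : ℕ) : ℝ) ^ (n + 1) * G2 := h1
        _ ≤ (4 * (C0 * X ^ D : ℕ) : ℝ) ^ (n + 1) * (X : ℝ) ^ ((D : ℝ) * ((n + 2 : ℕ) + 1) - κ) :=
            mul_le_mul_of_nonneg_left h2 (by positivity)
        _ = K * ((X : ℝ) ^ ((D : ℝ) * (n + 1)) * (X : ℝ) ^ ((D : ℝ) * ((n + 2 : ℕ) + 1) - κ)) := by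
            rw [hK]
            have : (X : ℝ) ^ ((D : ℝ) * (n + 1)) = ((X : ℝ) ^ D) ^ (n + 1) := by
              rw [← pow_mul, ← Real.rpow_natCast]
              congr 1
              push_cast
              ring
            rw [this]
            push_cast
            rw [show 4 * ((C0 : ℝ) * (X : ℝ) ^ D) = (4 * C0) * (X : ℝ) ^ D by ring, mul_pow]
            ring
        _ = K * (X : ℝ) ^ (4 * ((D : ℝ) * (n + 2) / 2 - κ / 4)) := by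
            rw [← Real.rpow_add hXp]
            congr 2
            push_cast
            ring
        _ ≤ K ^ 4 * (X : ℝ) ^ (4 * ((D : ℝ) * (n + 2) / 2 - κ / 4)) := by
            refine mul_le_mul_of_nonneg_right ?_ (by positivity)
            exact le_self_pow₀ hK1 (by norm_num)
        _ = (K * (X : ℝ) ^ ((D : ℝ) * (n + 2) / 2 - κ / 4)) ^ 4 := by
            rw [mul_pow, ← Real.rpow_natCast ((X : ℝ) ^ ((D : ℝ) * (n + 2) / 2 - κ / 4)) 4, ← Real.rpow_mul hXp.le]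
            congr 2
            push_cast
            ring
    have e2 : (√G) ^ 4 = G ^ 2 := by
      rw [show (√G) ^ 4 = ((√G) ^ 2) ^ 2 by ring, Real.sq_sqrt hG]
    rw [← e2] at e1
    exact le_of_pow_le_pow_left₀ (by norm_num) (by positivity) e1
  -- the right hand side
  have hY : (X : ℝ) ≤ ((C0 * X : ℕ) : ℝ) := by
    push_cast
    nlinarith
  have t1 : ((C0 * X : ℕ) : ℝ) ^ (-ε) ≤ (X : ℝ) ^ (-ε) := Real.rpow_le_rpow_of_nonpos hXp hY (by linarith)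
  have t2 : ((C0 * X : ℕ) : ℝ) ^ (n * (ε - D / 2)) ≤ (X : ℝ) ^ (n * (ε - D / 2)) := by
    refine Real.rpow_le_rpow_of_nonpos hXp hY ?_
    have : (0 : ℝ) ≤ n := Nat.cast_nonneg n
    nlinarith
  have t3 : ((C0 * X : ℕ) : ℝ) ^ (n * (ε - D / 2)) * √G / (2 * (C0 * X ^ D : ℕ) : ℝ) ≤ K * (X : ℝ) ^ (-ε) := by
    have hN : (X : ℝ) ^ D ≤ (2 * (C0 * X ^ D : ℕ) : ℝ) := by
      push_cast
      have : (0 : ℝ) ≤ (X : ℝ) ^ D := by positivity
      nlinarith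
    rw [div_le_iff₀ (by have : (0 : ℝ) < (X : ℝ) ^ D := by positivity
                        linarith)]
    calc ((C0 * X : ℕ) : ℝ) ^ (n * (ε - D / 2)) * √G
        ≤ (X : ℝ) ^ (n * (ε - D / 2)) * (K * (X : ℝ) ^ ((D : ℝ) * (n + 2) / 2 - κ / 4)) :=
          mul_le_mul t2 hG2 (Real.sqrt_nonneg _) (by positivity)
      _ = K * (X : ℝ) ^ (n * ε - κ / 4 + D) := by
          rw [show (X : ℝ) ^ (n * (ε - D / 2)) * (K * (X : ℝ) ^ ((D : ℝ) * (n + 2) / 2 - κ / 4)) =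
            K * ((X : ℝ) ^ (n * (ε - D / 2)) * (X : ℝ) ^ ((D : ℝ) * (n + 2) / 2 - κ / 4)) by ring, ← Real.rpow_add hXp]
          congr 2
          ring
      _ ≤ K * (X : ℝ) ^ (-ε + D) := by
          refine mul_le_mul_of_nonneg_left ?_ (by linarith)
          refine Real.rpow_le_rpow_of_exponent_le hXr ?_
          linarith
      _ = K * (X : ℝ) ^ (-ε) * (X : ℝ) ^ D := by
          rw [Real.rpow_add hXp, Real.rpow_natCast]
          ring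
      _ ≤ K * (X : ℝ) ^ (-ε) * (2 * (C0 * X ^ D : ℕ) : ℝ) := mul_le_mul_of_nonneg_left hN (by positivity)
  have t4 : (S / ((2 * (C0 * X ^ D : ℕ) : ℝ) * (C0 * X : ℕ))) ^ E ≤ B * (X : ℝ) ^ (-ε) := by
    refine h3.trans ?_
    calc C * (((C0 * X : ℕ) : ℝ) ^ (-ε) + ((C0 * X : ℕ) : ℝ) ^ (n * (ε - D / 2)) * √G / (2 * (C0 * X ^ D : ℕ) : ℝ))
        ≤ C * ((X : ℝ) ^ (-ε) + K * (X : ℝ) ^ (-ε)) := mul_le_mul_of_nonneg_left (add_le_add t1 t3) hC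
      _ = (C * (1 + K)) * (X : ℝ) ^ (-ε) := by ring
      _ ≤ B * (X : ℝ) ^ (-ε) := mul_le_mul_of_nonneg_right (by rw [hB]; linarith) (by positivity)
  have hden : (0 : ℝ) < (2 * (C0 * X ^ D : ℕ) : ℝ) * (C0 * X : ℕ) := by
    have : 0 < C0 * X ^ D := Nat.mul_pos (by omega) (pow_pos (by omega) D)
    have h' : 0 < C0 * X := Nat.mul_pos (by omega) (by omega)
    have a1 : (0 : ℝ) < ((C0 * X ^ D : ℕ) : ℝ) := by exact_mod_cast this
    have a2 : (0 : ℝ) < ((C0 * X : ℕ) : ℝ) := by exact_mod_cast h'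
    positivity
  have t5 : S / ((2 * (C0 * X ^ D : ℕ) : ℝ) * (C0 * X : ℕ)) ≤ B ^ ((1 : ℝ) / E) * (X : ℝ) ^ (-ε / E) := by
    have a0 : 0 ≤ S / ((2 * (C0 * X ^ D : ℕ) : ℝ) * (C0 * X : ℕ)) := by positivity
    have a1 : S / ((2 * (C0 * X ^ D : ℕ) : ℝ) * (C0 * X : ℕ)) =
        ((S / ((2 * (C0 * X ^ D : ℕ) : ℝ) * (C0 * X : ℕ))) ^ E) ^ ((1 : ℝ) / E) := by
      rw [one_div, Real.pow_rpow_inv_natCast a0 (by omega)]
    rw [a1]
    refine (Real.rpow_le_rpow (by positivity) t4 (by positivity)).trans (le_of_eq ?_)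
    rw [Real.mul_rpow (by linarith) (by positivity), ← Real.rpow_mul hXp.le]
    congr 2
    ring
  rw [div_le_iff₀ hden] at t5
  refine t5.trans ?_
  have hden2 : (2 * (C0 * X ^ D : ℕ) : ℝ) * (C0 * X : ℕ) = 2 * (C0 : ℝ) ^ 2 * (X : ℝ) ^ ((D : ℝ) + 1) := by
    rw [Real.rpow_add hXp, Real.rpow_natCast, Real.rpow_one]
    push_cast
    ring
  rw [hden2]
  calc B ^ ((1 : ℝ) / E) * (X : ℝ) ^ (-ε / E) * (2 * (C0 : ℝ) ^ 2 * (X : ℝ) ^ ((D : ℝ) + 1))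
      = (2 * (C0 : ℝ) ^ 2 * B ^ ((1 : ℝ) / E)) * ((X : ℝ) ^ (-ε / E) * (X : ℝ) ^ ((D : ℝ) + 1)) := by ring
    _ ≤ (X : ℝ) ^ (ε / (2 * E)) * ((X : ℝ) ^ (-ε / E) * (X : ℝ) ^ ((D : ℝ) + 1)) :=
        mul_le_mul_of_nonneg_right hXX (by positivity)
    _ = (X : ℝ) ^ ((D : ℝ) + 1 - ε / (2 * E)) := by
        rw [← Real.rpow_add hXp, ← Real.rpow_add hXp]
        congr 1
        field_simp
        ring

/-- **Theorem P** in the form of `HPC/Defs`. -/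
theorem C8_Z (D q : ℕ) (hD : 1 ≤ D) (r : Fin q → ℤ) (hr : ∀ j, r j ≠ 0) : Pool.Agent.HPC.ThmPZ D q r := by
  obtain ⟨n, E, hE, H⟩ := C7_P D hD q (∑ j, (r j).natAbs)
  have hRm : ∀ j, |r j| ≤ ((∑ j, (r j).natAbs : ℕ) : ℤ) := by
    intro j
    have : (r j).natAbs ≤ ∑ j, (r j).natAbs := Finset.single_le_sum (f := fun j => (r j).natAbs) (fun _ _ => Nat.zero_le _)
      (mem_univ j)
    rw [Int.abs_eq_natAbs]
    exact_mod_cast this
  refine ⟨n + 2, by omega, fun C0 κ hκ => ?_⟩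
  rcases Nat.eq_zero_or_pos C0 with hC0 | hC0
  · refine ⟨1, one_pos, 0, fun X _ R _ n0 L _ f0 f S _ _ _ _ _ => ?_⟩
    subst hC0
    simp only [zero_mul, Nat.cast_zero, neg_zero, Ico_self, Finset.sum_empty, norm_zero]
    positivity
  obtain ⟨ε, hε⟩ : ∃ ε : ℝ, ε = min κ 1 / (4 * (n + 1)) := ⟨_, rfl⟩
  have hε0 : 0 < ε := by
    rw [hε]
    have : 0 < min κ 1 := lt_min hκ one_pos
    positivity
  obtain ⟨C, hC, HC⟩ := H ε hε0
  obtain ⟨X0, hX01, HX⟩ := c8_an D n E C0 hE hC0 hD κ hκ C ε hC hε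
  have hEr : (0 : ℝ) < E := by exact_mod_cast hE
  refine ⟨ε / (2 * E), by positivity, X0, fun X hX R hR n0 L hL f0 f S hf0 hf hS hfS hG => ?_⟩
  have hXpos : 0 < X := by omega
  have hN : (0 : ℝ) < 2 * ((C0 * X ^ D : ℕ) : ℝ) := by
    have : 0 < C0 * X ^ D := Nat.mul_pos hC0 (pow_pos hXpos D)
    have a1 : (0 : ℝ) < ((C0 * X ^ D : ℕ) : ℝ) := by exact_mod_cast this
    linarith
  have hsup : ∀ y, y ∉ Ico (-((C0 * X ^ D : ℕ) : ℤ)) ((C0 * X ^ D : ℕ) : ℤ) → f0 y = 0 := hf0.sup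
  refine HX X hX _ (GG (C0 * X ^ D) (n + 1) f0) (GG (C0 * X ^ D) (n + 2) f0) (norm_nonneg _)
    (GG_nonneg _ _ (by omega) f0 hsup) ?_ hG ?_
  · have := C8_mono (C0 * X ^ D) (n + 1) (by omega) f0 hsup
    exact this
  · have key := HC (C0 * X) (C0 * X ^ D) (2 * ((C0 * X ^ D : ℕ) : ℝ)) (Nat.mul_pos hC0 hXpos)
      (Nat.mul_pos hC0 (pow_pos hXpos D)) hN r hr hRm f R (fun j => ⟨⟨hf j, S j, ?_, hfS j⟩, hR j⟩) f0
      ⟨hf0.le, Ico (-((C0 * X ^ D : ℕ) : ℤ)) ((C0 * X ^ D : ℕ) : ℤ), ?_, hsup⟩ hf0 n0 ((n0 + L : ℕ) : ℤ) (by omega)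
      (by exact_mod_cast hL)
    · have e1 : ∀ t : ℤ, ∑ n ∈ Ico n0 (n0 + L), f0 t * ∏ j, f j (t + (R j).eval (n : ℤ)) =
          ∑ n ∈ Ico ((n0 : ℕ) : ℤ) ((n0 + L : ℕ) : ℤ), f0 t * ∏ j, f j (t + (R j).eval n) := fun t =>
        c8_sumint n0 L fun n => f0 t * ∏ j, f j (t + (R j).eval n)
      rw [Finset.sum_congr rfl fun t _ => e1 t]
      exact key
    · have := hS j
      have h2 : ((S j).card : ℝ) ≤ ((C0 * X ^ D : ℕ) : ℝ) := by exact_mod_cast this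
      linarith
    · rw [Int.card_Ico]
      have : (((C0 * X ^ D : ℕ) : ℤ) - -((C0 * X ^ D : ℕ) : ℤ)).toNat = 2 * (C0 * X ^ D) := by omega
      rw [this]
      push_cast
      exact le_rfl

end Pool.Agent.HPP
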