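import Pool.Agent.Lib.HPP.Defs

/-!
# Project HPP, A1 (S): rules for averages
-/

open Finset

namespace Pool.Agent.HPP

variable {ι κ : Type*} [Fintype ι] [Fintype κ]

theorem av_nonneg {F : ι → ℝ} (h : ∀ x, 0 ≤ F x) : 0 ≤ av F := by
  unfold av
  exact div_nonneg (Finset.sum_nonneg fun x _ => h x) (Nat.cast_nonneg _)

theorem av_mono {F H : ι → ℝ} (h : ∀ x, F x ≤ H x) : av F ≤ av H := by
  unfold av
  gcongr with x _
  exact h x

theorem av_const [Nonempty ι] (c : ℝ) : (av fun _ : ι => c) = c := by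
  unfold av
  rw [Finset.sum_const, Finset.card_univ, nsmul_eq_mul, mul_div_cancel_left₀]
  exact Nat.cast_ne_zero.2 Fintype.card_ne_zero

theorem av_le [Nonempty ι] {F : ι → ℝ} {c : ℝ} (h : ∀ x, F x ≤ c) : av F ≤ c :=
  (av_mono h).trans (av_const c).le

theorem av_add (F H : ι → ℝ) : (av fun x => F x + H x) = av F + av H := by
  unfold av
  rw [Finset.sum_add_distrib, add_div]

theorem av_mul_left (c : ℝ) (F : ι → ℝ) : (av fun x => c * F x) = c * av F := by
  unfold av
  rw [← Finset.mul_sum, mul_div_assoc]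

theorem av_div (c : ℝ) (F : ι → ℝ) : (av fun x => F x / c) = av F / c := by
  unfold av
  rw [← Finset.sum_div, div_right_comm]

theorem av_sum {σ : Type*} (s : Finset σ) (F : σ → ι → ℝ) : (av fun x => ∑ k ∈ s, F k x) = ∑ k ∈ s, av (F k) := by
  unfold av
  rw [Finset.sum_comm, Finset.sum_div]

theorem av_prod (F : ι × κ → ℝ) : av F = av fun x => av fun y => F (x, y) := by
  unfold av
  rw [Fintype.sum_prod_type, Fintype.card_prod, Nat.cast_mul, ← Finset.sum_div, div_div, mul_comm]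

theorem av_comm (F : ι → κ → ℝ) : (av fun x => av fun y => F x y) = av fun y => av fun x => F x y := by
  unfold av
  rw [← Finset.sum_div, ← Finset.sum_div, Finset.sum_comm, div_right_comm]

theorem av_equiv (e : ι ≃ κ) (F : κ → ℝ) : (av fun x => F (e x)) = av F := by
  unfold av
  rw [e.sum_comp, Fintype.card_congr e]

/-- Power means (`inner_le_nnorm_mul_nnorm` / `inv_pow_sum_le..`: use `pow_sum_div_card_le_sum_pow`). -/
theorem av_pow [Nonempty ι] (n : ℕ) {F : ι → ℝ} (hF : ∀ x, 0 ≤ F x) : av F ^ n ≤ av fun x => F x ^ n := by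
  cases n with
  | zero => simp only [pow_zero, av_const, le_refl]
  | succ n =>
    have h1 := pow_sum_div_card_le_sum_pow (s := (univ : Finset ι)) (f := F) (fun x _ => hF x) n
    have hc : (0 : ℝ) < Fintype.card ι := Nat.cast_pos.2 Fintype.card_pos
    unfold av
    rw [Finset.card_univ] at h1
    rw [div_pow, pow_succ (Fintype.card ι : ℝ) n, ← div_div]
    gcongr

theorem avc_const [Nonempty ι] (c : ℂ) : (avc fun _ : ι => c) = c := by
  unfold avc
  rw [Finset.sum_const, Finset.card_univ, nsmul_eq_mul, mul_div_cancel_left₀]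
  exact Nat.cast_ne_zero.2 Fintype.card_ne_zero

theorem avc_mul_left (c : ℂ) (F : ι → ℂ) : (avc fun x => c * F x) = c * avc F := by
  unfold avc
  rw [← Finset.mul_sum, mul_div_assoc]

theorem avc_mul_right (c : ℂ) (F : ι → ℂ) : (avc fun x => F x * c) = avc F * c := by
  unfold avc
  rw [← Finset.sum_mul, mul_div_right_comm]

theorem avc_sum {σ : Type*} (s : Finset σ) (F : σ → ι → ℂ) : (avc fun x => ∑ k ∈ s, F k x) = ∑ k ∈ s, avc (F k) := by
  unfold avc
  rw [Finset.sum_comm, Finset.sum_div]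

theorem avc_prod (F : ι × κ → ℂ) : avc F = avc fun x => avc fun y => F (x, y) := by
  unfold avc
  rw [Fintype.sum_prod_type, Fintype.card_prod, Nat.cast_mul, ← Finset.sum_div, div_div, mul_comm]

theorem avc_comm (F : ι → κ → ℂ) : (avc fun x => avc fun y => F x y) = avc fun y => avc fun x => F x y := by
  unfold avc
  rw [← Finset.sum_div, ← Finset.sum_div, Finset.sum_comm, div_right_comm]

theorem avc_equiv (e : ι ≃ κ) (F : κ → ℂ) : (avc fun x => F (e x)) = avc F := by
  unfold avc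
  rw [e.sum_comp, Fintype.card_congr e]

theorem norm_avc_le (F : ι → ℂ) : ‖avc F‖ ≤ av fun x => ‖F x‖ := by
  unfold avc av
  rw [norm_div, RCLike.norm_natCast]
  gcongr
  exact norm_sum_le _ _

theorem avc_star (F : ι → ℂ) : (starRingEnd ℂ) (avc F) = avc fun x => (starRingEnd ℂ) (F x) := by
  unfold avc
  rw [map_div₀, map_sum, map_natCast]

theorem avc_mul_conj (F : ι → ℂ) : avc F * (starRingEnd ℂ) (avc F) = avc fun p : ι × ι => F p.1 * (starRingEnd ℂ) (F p.2) := by
  rw [avc_prod (fun p : ι × ι => F p.1 * (starRingEnd ℂ) (F p.2)), avc_star]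
  simp only [avc_mul_left, avc_mul_right]

/-- `‖avc F‖ ^ 2 ≤ av ‖F‖ ^ 2`. -/
theorem norm_avc_sq [Nonempty ι] (F : ι → ℂ) : ‖avc F‖ ^ 2 ≤ av fun x => ‖F x‖ ^ 2 :=
  (pow_le_pow_left₀ (norm_nonneg _) (norm_avc_le F) 2).trans (av_pow 2 fun _ => norm_nonneg _)

/-- The real average as a complex one. -/
theorem av_ofReal (F : ι → ℝ) : ((av F : ℝ) : ℂ) = avc fun x => ((F x : ℝ) : ℂ) := by
  unfold av avc
  push_cast
  rfl

/-- The phase of a complex number. -/
theorem phase (z : ℂ) : ∃ ξ : ℂ, ‖ξ‖ ≤ 1 ∧ ((‖z‖ : ℝ) : ℂ) = ξ * z := by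
  by_cases h : z = 0
  · exact ⟨0, by simp, by simp [h]⟩
  · refine ⟨(‖z‖ : ℂ) / z, ?_, ?_⟩
    · rw [norm_div, Complex.norm_real, norm_norm, div_self (norm_ne_zero_iff.2 h)]
    · rw [div_mul_cancel₀ _ h]

end Pool.Agent.HPP
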