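import Pool.Agent.Lib.HPP.A9

/-!
# Project HPP, A10 (S/M): the iterated concatenation
-/

open Finset

namespace Pool.Agent.HPP

/-- **CONC.** Proof. Induction on `ν` (for all `p`). `ν = 0`: `J = I`, `δ = α`, `E = 1`, `C = 1` (`B ^ 1 = B`). Step: `A9_all p 0`
gives `E1, n1, C1`, `J1`, `δ1` (no extras, `B' = 0`, `List.ofFn` of a function on `Fin 0` is `[]`): averages `≤ C1 B²`; the induction hypothesis for `p := n1`,
`I := J1`, `α := δ1`, `B := C1 B²` gives `≤ C2 (C1 B²) ^ (2 ^ ν) = C2 C1 ^ (2 ^ ν) B ^ (2 ^ (ν + 1))`; exponents multiply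
(`x ^ (E1 E2) = (x ^ E1) ^ E2 ≤ (av ..) ^ E2`). -/
theorem A10_conc (ν : ℕ) : ∀ p : ℕ, ∃ (E n : ℕ) (C : ℝ), 0 < E ∧ 0 ≤ C ∧ TN p ν E n C := by
  induction ν with
  | zero =>
    intro p
    refine ⟨1, p, 1, one_pos, zero_le_one, fun I hI1 hI2 => ⟨I, hI1, hI2, fun G _ _ α => ⟨α, fun N f hN hf => ?_,
      fun χ B hB hα k => ?_⟩⟩⟩
    · rw [pow_one]
    · rw [pow_zero, pow_one, one_mul]
      exact hα k
  | succ ν ih =>
    intro p
    obtain ⟨E1, n1, C1, hE1, hC1, h1⟩ := A9_all p 0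
    obtain ⟨E2, n2, C2, hE2, hC2, h2⟩ := ih n1
    refine ⟨E1 * E2, n2, C2 * C1 ^ (2 ^ ν), by positivity, by positivity, fun I hI1 hI2 => ?_⟩
    obtain ⟨J1, hJ1, hJ1', H1⟩ := h1 I
    obtain ⟨J2, hJ2, hJ2', H2⟩ := h2 J1
    refine ⟨J2, hJ2, hJ2', fun G _ _ α => ?_⟩
    obtain ⟨δ1, K1, K1'⟩ := H1 G α (fun l _ => l.elim0)
    obtain ⟨δ2, K2, K2'⟩ := H2 G δ1
    refine ⟨δ2, fun N f hN hf => ?_, fun χ B hB hα k => ?_⟩
    · have a1 := K1 N f hN hf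
      have a2 := K2 N f hN hf
      simp only [List.ofFn_zero, List.append_nil] at a1
      rw [pow_mul]
      refine le_trans ?_ a2
      refine pow_le_pow_left₀ (pow_nonneg (div_nonneg (av_nonneg fun i => NN_nonneg _ _) hN.le) _) a1 E2
    · have b1 := K1' χ B 0 hB le_rfl hα (fun l => l.elim0)
      have b2 := K2' χ (C1 * (B ^ 2 + 0)) (by positivity) b1 k
      refine b2.trans (le_of_eq ?_)
      rw [add_zero, mul_pow, ← pow_mul, mul_assoc]
      congr 3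
      ring

end Pool.Agent.HPP
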