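import Pool.Agent.Lib.HPP.A1

/-!
# Project HPP, A2 (S): the class `FN`, Cauchy-Schwarz, translations
-/

open Finset

namespace Pool.Agent.HPP

variable {G : Type} [AddCommGroup G]

theorem FN.mul {N : ℝ} {f g : G → ℂ} (hf : FN N f) (hg : ∀ y, ‖g y‖ ≤ 1) : FN N fun y => f y * g y := by
  obtain ⟨S, hS, h0⟩ := hf.sup
  refine ⟨fun y => ?_, S, hS, fun y hy => ?_⟩
  · rw [norm_mul]
    exact mul_le_one₀ (hf.le y) (norm_nonneg _) (hg y)
  · show f y * g y = 0
    rw [h0 y hy, zero_mul]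

theorem FN.trans {N : ℝ} {f : G → ℂ} (hf : FN N f) (c : G) : FN N fun y => f (y + c) := by
  obtain ⟨S, hS, h0⟩ := hf.sup
  refine ⟨fun y => hf.le _, S.map (Equiv.addRight (-c)).toEmbedding, ?_, fun y hy => h0 _ fun h => hy ?_⟩
  · rw [Finset.card_map]
    exact hS
  · rw [Finset.mem_map]
    exact ⟨y + c, h, by simp⟩

theorem FN.star {N : ℝ} {f : G → ℂ} (hf : FN N f) : FN N fun y => (starRingEnd ℂ) (f y) := by
  obtain ⟨S, hS, h0⟩ := hf.sup
  refine ⟨fun y => ?_, S, hS, fun y hy => ?_⟩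
  · rw [RCLike.norm_conj]
    exact hf.le y
  · show (starRingEnd ℂ) (f y) = 0
    rw [h0 y hy, map_zero]

theorem FN.D2 {N : ℝ} {f : G → ℂ} (hf : FN N f) (a b : G) : FN N (D2 a b f) := by
  refine (hf.trans a).mul (g := fun y => (starRingEnd ℂ) (f (y + b))) fun y => ?_
  rw [RCLike.norm_conj]
  exact hf.le _

theorem FN.nab {N : ℝ} {f : G → ℂ} (hf : FN N f) (L : List (Dir G)) (o : Om L) : FN N (nab L o f) := by
  induction L with
  | nil => exact hf
  | cons d L ih => exact (ih o.2).D2 _ _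

/-- Cauchy-Schwarz. -/
theorem FN.cs [Fintype G] {N : ℝ} {f : G → ℂ} (hf : FN N f) (W : G → ℂ) :
    ‖∑ y, f y * W y‖ ^ 2 ≤ N * ∑ y, ‖W y‖ ^ 2 := by
  obtain ⟨S, hS, h0⟩ := hf.sup
  have h1 : ∑ y, f y * W y = ∑ y ∈ S, f y * W y := by
    symm
    refine Finset.sum_subset (Finset.subset_univ _) fun y _ hy => ?_
    rw [h0 y hy, zero_mul]
  have h2 : ‖∑ y, f y * W y‖ ≤ ∑ y ∈ S, ‖W y‖ := by
    rw [h1]
    refine (norm_sum_le _ _).trans (Finset.sum_le_sum fun y _ => ?_)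
    rw [norm_mul]
    exact mul_le_of_le_one_left (norm_nonneg _) (hf.le y)
  calc ‖∑ y, f y * W y‖ ^ 2 ≤ (∑ y ∈ S, ‖W y‖) ^ 2 := pow_le_pow_left₀ (norm_nonneg _) h2 2
    _ ≤ S.card * ∑ y ∈ S, ‖W y‖ ^ 2 := sq_sum_le_card_mul_sum_sq
    _ ≤ N * ∑ y, ‖W y‖ ^ 2 := by
      refine mul_le_mul hS ?_ (Finset.sum_nonneg fun y _ => sq_nonneg _) ((Nat.cast_nonneg _).trans hS)
      exact Finset.sum_le_sum_of_subset_of_nonneg (Finset.subset_univ _) fun y _ _ => sq_nonneg _

theorem FN.norm_sum [Fintype G] {N : ℝ} {f : G → ℂ} (hf : FN N f) : ‖∑ y, f y‖ ≤ N := by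
  obtain ⟨S, hS, h0⟩ := hf.sup
  have h1 : ∑ y, f y = ∑ y ∈ S, f y := by
    symm
    exact Finset.sum_subset (Finset.subset_univ _) fun y _ hy => h0 y hy
  rw [h1]
  refine (norm_sum_le _ _).trans ((Finset.sum_le_sum fun y _ => hf.le y).trans ?_)
  rw [Finset.sum_const, nsmul_eq_mul, mul_one]
  exact hS

theorem FN.ge {N : ℝ} {f : G → ℂ} (hf : FN N f) : 0 ≤ N := by
  obtain ⟨S, hS, -⟩ := hf.sup
  exact (Nat.cast_nonneg _).trans hS

/-- The differences commute. -/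
theorem D2_comm (a b c d : G) (f : G → ℂ) : D2 a b (D2 c d f) = D2 c d (D2 a b f) := by
  funext y
  simp only [D2, map_mul, Complex.conj_conj]
  rw [add_right_comm y a c, add_right_comm y a d, add_right_comm y b c, add_right_comm y b d]
  ring

theorem D2_mul (a b : G) (f g : G → ℂ) : D2 a b (fun y => f y * g y) = fun y => D2 a b f y * D2 a b g y := by
  funext y
  simp only [D2, map_mul]
  ring

theorem D2_trans (a b c : G) (f : G → ℂ) : D2 a b (fun y => f (y + c)) = fun y => D2 a b f (y + c) := by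
  funext y
  simp only [D2]
  rw [add_right_comm y a c, add_right_comm y b c]

/-- `D2 a b f` is a translate of `D2 0 (b - a) f`. -/
theorem D2_zero (a b : G) (f : G → ℂ) (y : G) : D2 a b f y = D2 0 (b - a) f (y + a) := by
  simp only [D2]
  rw [add_zero, add_assoc, add_sub_cancel]

theorem D2_nab (a b : G) (L : List (Dir G)) (o : Om L) (f : G → ℂ) : D2 a b (nab L o f) = nab L o (D2 a b f) := by
  induction L with
  | nil => rfl
  | cons d L ih =>
    show D2 a b (D2 _ _ (nab L o.2 f)) = D2 _ _ (nab L o.2 (D2 a b f))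
    rw [D2_comm, ih o.2]

theorem nab_trans (L : List (Dir G)) (o : Om L) (f : G → ℂ) (c : G) :
    nab L o (fun y => f (y + c)) = fun y => nab L o f (y + c) := by
  induction L with
  | nil => rfl
  | cons d L ih =>
    show D2 _ _ (nab L o.2 (fun y => f (y + c))) = fun y => D2 _ _ (nab L o.2 f) (y + c)
    rw [ih o.2, D2_trans]

theorem sum_trans [Fintype G] (f : G → ℂ) (c : G) : ∑ y, f (y + c) = ∑ y, f y :=
  Equiv.sum_comp (Equiv.addRight c) f

end Pool.Agent.HPP
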