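import Pool.Agent.Lib.HPP.A2

/-!
# Project HPP, A3 (S/M): rules for the box averages `NN`
-/

open Finset

namespace Pool.Agent.HPP

variable {G : Type} [AddCommGroup G] [Fintype G]

theorem NN_nonneg (L : List (Dir G)) (f : G → ℂ) : 0 ≤ NN L f := by
  exact av_nonneg fun _ => norm_nonneg _

theorem NN_nil (f : G → ℂ) : NN [] f = ‖∑ y, f y‖ := by
  change av (fun _ : Om ([] : List (Dir G)) => ‖∑ y, f y‖) = _
  exact av_const _

/-- Averages over `Om (d :: L)` are iterated (`av_prod`; `Om (d :: L)` is by definition the product). -/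
theorem av_Om_cons (d : Dir G) (L : List (Dir G)) (F : (d.ι × d.ι) × Om L → ℝ) :
    av (ι := Om (d :: L)) F = av fun p : d.ι × d.ι => av fun o : Om L => F (p, o) := by
  exact av_prod (ι := d.ι × d.ι) (κ := Om L) F

theorem avc_Om_cons (d : Dir G) (L : List (Dir G)) (F : (d.ι × d.ι) × Om L → ℂ) :
    avc (ι := Om (d :: L)) F = avc fun p : d.ι × d.ι => avc fun o : Om L => F (p, o) := by
  exact avc_prod (ι := d.ι × d.ι) (κ := Om L) F

/-- `av_Om_cons`, `D2_nab`. -/
theorem NN_cons (d : Dir G) (L : List (Dir G)) (f : G → ℂ) :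
    NN (d :: L) f = av fun p : d.ι × d.ι => NN L (D2 (d.a p.1) (d.a p.2) f) := by
  unfold NN
  refine (av_Om_cons d L _).trans ?_
  refine congrArg av (funext fun p => congrArg av (funext fun o => ?_))
  change ‖∑ y, D2 (d.a p.1) (d.a p.2) (nab L o f) y‖ = _
  rw [D2_nab]

/-- `nab_trans`, `sum_trans`. -/
theorem NN_trans (L : List (Dir G)) (f : G → ℂ) (c : G) : NN L (fun y => f (y + c)) = NN L f := by
  unfold NN
  refine congrArg av (funext fun o => ?_)
  rw [nab_trans, sum_trans]

/-- Induction on `List.Perm`, generalising `f` (`NN_cons`, `av_comm`, `D2_comm`). -/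
theorem NN_perm {L L' : List (Dir G)} (h : L.Perm L') : ∀ f : G → ℂ, NN L f = NN L' f := by
  induction h with
  | nil => exact fun f => rfl
  | cons d h ih =>
    intro f
    rw [NN_cons, NN_cons]
    exact congrArg av (funext fun p => ih _)
  | swap d e L =>
    intro f
    simp only [NN_cons]
    rw [av_comm]
    refine congrArg av (funext fun p => congrArg av (funext fun q => ?_))
    rw [D2_comm]
  | trans h1 h2 ih1 ih2 => exact fun f => (ih1 f).trans (ih2 f)

/-- Induction on `L` (`NN_cons`, `FN.D2`, `av_le`); `L = []`: `FN.norm_sum`. -/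
theorem NN_le {N : ℝ} (L : List (Dir G)) {f : G → ℂ} (hf : FN N f) : NN L f ≤ N := by
  induction L generalizing f with
  | nil =>
    rw [NN_nil]
    exact hf.norm_sum
  | cons d L ih =>
    rw [NN_cons]
    exact av_le fun p => ih (hf.D2 _ _)

/-- `NN` of an appended list: `NN (L ++ L') f = av_o NN L' (nab L o f)`. Induction on `L`. -/
theorem NN_append (L L' : List (Dir G)) (f : G → ℂ) : NN (L ++ L') f = av fun o : Om L => NN L' (nab L o f) := by
  induction L generalizing f with
  | nil =>
    change NN L' f = av fun _ : Om ([] : List (Dir G)) => NN L' f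
    exact (av_const _).symm
  | cons d L ih =>
    rw [List.cons_append, NN_cons]
    refine Eq.trans ?_ (av_Om_cons d L _).symm
    refine congrArg av (funext fun p => ?_)
    rw [ih]
    refine congrArg av (funext fun o => ?_)
    change _ = NN L' (D2 (d.a p.1) (d.a p.2) (nab L o f))
    rw [D2_nab]

end Pool.Agent.HPP
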