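import Pool.Agent.Lib.HPP.A3

/-!
# Project HPP, A4 (M): the vertices relative to the first one, adapted families
-/

open Finset

namespace Pool.Agent.HPP

variable {G : Type} [AddCommGroup G]

/-- **A4.** `nab L o f (y - sh L o) = f(y) Phi_o(y)`.
Proof. Induction on `L`. `d :: L`, `o = ((x, x'), o')`, `δ = a x' - a x`: `nab (d :: L) o f (y - a x - sh L o') =
nab L o' f (y - sh L o') * conj (nab L o' f (y - sh L o' + δ))` (associativity), and by the induction hypothesis for `y` and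
`y + δ` it is `f y * Phi L f o' y * conj (f (y + δ) * Phi L f o' (y + δ))`. -/
theorem A4_phi (L : List (Dir G)) (o : Om L) (f : G → ℂ) (y : G) : nab L o f (y - sh L o) = f y * Phi L f o y := by
  induction L generalizing y with
  | nil =>
    change f (y - 0) = f y * 1
    rw [sub_zero, mul_one]
  | cons d L ih =>
    obtain ⟨p, o'⟩ := o
    change nab L o' f (y - (d.a p.1 + sh L o') + d.a p.1) *
        (starRingEnd ℂ) (nab L o' f (y - (d.a p.1 + sh L o') + d.a p.2)) =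
      f y * ((starRingEnd ℂ) (f (y + (d.a p.2 - d.a p.1)) * Phi L f o' (y + (d.a p.2 - d.a p.1))) * Phi L f o' y)
    have h1 : y - (d.a p.1 + sh L o') + d.a p.1 = y - sh L o' := by abel
    have h2 : y - (d.a p.1 + sh L o') + d.a p.2 = y + (d.a p.2 - d.a p.1) - sh L o' := by abel
    rw [h1, h2, ih, ih]
    ring

/-- Induction on `L`. -/
theorem A4_le (L : List (Dir G)) (f : G → ℂ) (hf : ∀ y, ‖f y‖ ≤ 1) (o : Om L) (y : G) : ‖Phi L f o y‖ ≤ 1 := by
  induction L generalizing y with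
  | nil =>
    change ‖(1 : ℂ)‖ ≤ 1
    rw [norm_one]
  | cons d L ih =>
    obtain ⟨p, o'⟩ := o
    change ‖(starRingEnd ℂ) (f (y + (d.a p.2 - d.a p.1)) * Phi L f o' (y + (d.a p.2 - d.a p.1))) * Phi L f o' y‖ ≤ 1
    rw [norm_mul, RCLike.norm_conj, norm_mul]
    exact mul_le_one₀ (mul_le_one₀ (hf _) (norm_nonneg _) (ih _ _)) (norm_nonneg _) (ih _ _)

/-- **The family `Phi` is adapted.** Proof. Induction on `L`. `[]`: `ξ = 1`. `d :: L`: `ξ = 1`,
`U o' = fun y => conj (f y * Phi L f o' y)` (in `FN N` by `FN.mul`, `FN.star`, `A4_le`), `Φ' = Phi L f`. -/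
theorem A4_ad {N : ℝ} (L : List (Dir G)) (f : G → ℂ) (hf : FN N f) : Ad N L (Phi L f) := by
  induction L with
  | nil => exact ⟨1, by rw [norm_one], fun o y => rfl⟩
  | cons d L ih =>
    refine ⟨fun _ => 1, fun o' y => (starRingEnd ℂ) (f y * Phi L f o' y), Phi L f, fun _ => by rw [norm_one],
      fun o' => (hf.mul (A4_le L f hf.le o')).star, ih, fun o y => ?_⟩
    change (starRingEnd ℂ) (f (y + (d.a o.1.2 - d.a o.1.1)) * Phi L f o.2 (y + (d.a o.1.2 - d.a o.1.1))) *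
      Phi L f o.2 y = 1 * (starRingEnd ℂ) (f (y + (d.a o.1.2 - d.a o.1.1)) * Phi L f o.2 (y + (d.a o.1.2 - d.a o.1.1))) *
      Phi L f o.2 y
    rw [one_mul]

/-- Adapted families are bounded by `1`. Induction on `L`. -/
theorem Ad.le {N : ℝ} {L : List (Dir G)} {Φ : Om L → G → ℂ} (h : Ad N L Φ) (o : Om L) (y : G) : ‖Φ o y‖ ≤ 1 := by
  induction L generalizing y with
  | nil =>
    obtain ⟨ξ, h1, h2⟩ := h
    rw [h2]
    exact h1
  | cons d L ih =>
    obtain ⟨ξ, U, Φ', h1, h2, h3, h4⟩ := h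
    rw [h4 o y, norm_mul, norm_mul]
    exact mul_le_one₀ (mul_le_one₀ (h1 o) (norm_nonneg _) ((h2 o.2).le _)) (norm_nonneg _) (ih h3 _ _)

/-- Multiplication by scalars which depend on the index. `[]`: `Om []` has one element. `d :: L`: multiply `ξ`. -/
theorem Ad.smul {N : ℝ} {L : List (Dir G)} {Φ : Om L → G → ℂ} (h : Ad N L Φ) (ξ : Om L → ℂ) (hξ : ∀ o, ‖ξ o‖ ≤ 1) :
    Ad N L fun o y => ξ o * Φ o y := by
  cases L with
  | nil =>
    obtain ⟨ξ0, h1, h2⟩ := h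
    refine ⟨ξ () * ξ0, ?_, fun o y => ?_⟩
    · rw [norm_mul]
      exact mul_le_one₀ (hξ _) (norm_nonneg _) h1
    · exact congrArg (fun z => ξ o * z) (h2 o y)
  | cons d L =>
    obtain ⟨ξ0, U, Φ', h1, h2, h3, h4⟩ := h
    refine ⟨fun o => ξ o * ξ0 o, U, Φ', fun o => ?_, h2, h3, fun o y => ?_⟩
    · rw [norm_mul]
      exact mul_le_one₀ (hξ _) (norm_nonneg _) (h1 o)
    · refine (congrArg (fun z => ξ o * z) (h4 o y)).trans ?_
      change ξ o * (ξ0 o * U o.2 (y + (d.a o.1.2 - d.a o.1.1)) * Φ' o.2 y) =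
        ξ o * ξ0 o * U o.2 (y + (d.a o.1.2 - d.a o.1.1)) * Φ' o.2 y
      ring

/-- Products: induction on `L` (`U o y * V o y`, `FN.mul`). -/
theorem Ad.mul {N : ℝ} {L : List (Dir G)} {Φ Θ : Om L → G → ℂ} (h : Ad N L Φ) (h' : Ad N L Θ) :
    Ad N L fun o y => Φ o y * Θ o y := by
  induction L with
  | nil =>
    obtain ⟨ξ, h1, h2⟩ := h
    obtain ⟨ζ, h3, h4⟩ := h'
    refine ⟨ξ * ζ, ?_, fun o y => ?_⟩
    · rw [norm_mul]
      exact mul_le_one₀ h1 (norm_nonneg _) h3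
    · exact congrArg₂ (fun z w => z * w) (h2 o y) (h4 o y)
  | cons d L ih =>
    obtain ⟨ξ, U, Φ', h1, h2, h3, h4⟩ := h
    obtain ⟨ζ, V, Θ', k1, k2, k3, k4⟩ := h'
    refine ⟨fun o => ξ o * ζ o, fun o y => U o y * V o y, fun o y => Φ' o y * Θ' o y, fun o => ?_,
      fun o => (h2 o).mul (k2 o).le, ih h3 k3, fun o y => ?_⟩
    · rw [norm_mul]
      exact mul_le_one₀ (h1 o) (norm_nonneg _) (k1 o)
    · refine (congrArg₂ (fun z w => z * w) (h4 o y) (k4 o y)).trans ?_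
      change ξ o * U o.2 (y + (d.a o.1.2 - d.a o.1.1)) * Φ' o.2 y *
          (ζ o * V o.2 (y + (d.a o.1.2 - d.a o.1.1)) * Θ' o.2 y) =
        ξ o * ζ o * (U o.2 (y + (d.a o.1.2 - d.a o.1.1)) * V o.2 (y + (d.a o.1.2 - d.a o.1.1))) *
          (Φ' o.2 y * Θ' o.2 y)
      ring

/-- Translation: induction on `L` (`FN.trans`). -/
theorem Ad.trans {N : ℝ} {L : List (Dir G)} {Φ : Om L → G → ℂ} (h : Ad N L Φ) (c : G) : Ad N L fun o y => Φ o (y + c) := by
  induction L with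
  | nil =>
    obtain ⟨ξ, h1, h2⟩ := h
    exact ⟨ξ, h1, fun o y => h2 o (y + c)⟩
  | cons d L ih =>
    obtain ⟨ξ, U, Φ', h1, h2, h3, h4⟩ := h
    refine ⟨ξ, fun o y => U o (y + c), fun o y => Φ' o (y + c), h1, fun o => (h2 o).trans c, ih h3, fun o y => ?_⟩
    refine (h4 o (y + c)).trans ?_
    change ξ o * U o.2 (y + c + (d.a o.1.2 - d.a o.1.1)) * Φ' o.2 (y + c) =
      ξ o * U o.2 (y + (d.a o.1.2 - d.a o.1.1) + c) * Φ' o.2 (y + c)
    rw [add_right_comm]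

/-- Complex conjugation: induction on `L` (`FN.star`). -/
theorem Ad.star {N : ℝ} {L : List (Dir G)} {Φ : Om L → G → ℂ} (h : Ad N L Φ) :
    Ad N L fun o y => (starRingEnd ℂ) (Φ o y) := by
  induction L with
  | nil =>
    obtain ⟨ξ, h1, h2⟩ := h
    refine ⟨(starRingEnd ℂ) ξ, ?_, fun o y => ?_⟩
    · rw [RCLike.norm_conj]
      exact h1
    · exact congrArg (fun z => (starRingEnd ℂ) z) (h2 o y)
  | cons d L ih =>
    obtain ⟨ξ, U, Φ', h1, h2, h3, h4⟩ := h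
    refine ⟨fun o => (starRingEnd ℂ) (ξ o), fun o y => (starRingEnd ℂ) (U o y), fun o y => (starRingEnd ℂ) (Φ' o y),
      fun o => ?_, fun o => (h2 o).star, ih h3, fun o y => ?_⟩
    · rw [RCLike.norm_conj]
      exact h1 o
    · refine (congrArg (fun z => (starRingEnd ℂ) z) (h4 o y)).trans ?_
      change (starRingEnd ℂ) (ξ o * U o.2 (y + (d.a o.1.2 - d.a o.1.1)) * Φ' o.2 y) =
        (starRingEnd ℂ) (ξ o) * (starRingEnd ℂ) (U o.2 (y + (d.a o.1.2 - d.a o.1.1))) * (starRingEnd ℂ) (Φ' o.2 y)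
      rw [map_mul, map_mul]

/-- Differences: `D2 a b Φ_o = (translate by a) * conj (translate by b)`: `Ad.mul`, `Ad.trans`, `Ad.star`. -/
theorem Ad.D2 {N : ℝ} {L : List (Dir G)} {Φ : Om L → G → ℂ} (h : Ad N L Φ) (a b : G) : Ad N L fun o => D2 a b (Φ o) := by
  exact (h.trans a).mul (h.trans b).star

end Pool.Agent.HPP
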