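import Pool.Agent.Lib.HPP.A4

/-!
# Project HPP, A5 (S/M): appended lists of directions
-/

open Finset

namespace Pool.Agent.HPP

/-- The two parts of an index of an appended list. -/
def omSplit {G : Type} : (L L' : List (Dir G)) → Om (L ++ L') → Om L × Om L'
  | [], _, o => ((), o)
  | _ :: L, L', o => ((o.1, (omSplit L L' o.2).1), (omSplit L L' o.2).2)

variable {G : Type}

theorem a5_cons (d : Dir G) (L : List (Dir G)) (F : (d.ι × d.ι) × Om L → ℂ) :
    avc (ι := Om (d :: L)) F = avc fun p : d.ι × d.ι => avc fun o : Om L => F (p, o) := avc_prod F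

/-- Averages over `Om (L ++ L')`: induction on `L` (`avc_Om_cons`; `Om (d :: L ++ L')` is the product of `d.ι × d.ι` and `Om (L ++ L')`). -/
theorem avc_split (L L' : List (Dir G)) (F : Om L × Om L' → ℂ) :
    (avc fun o : Om (L ++ L') => F (omSplit L L' o)) = avc fun o : Om L => avc fun o' : Om L' => F (o, o') := by
  induction L with
  | nil => exact (avc_const (ι := Om ([] : List (Dir G))) (avc fun o' : Om L' => F ((), o'))).symm
  | cons d L ih =>
    have h1 := a5_cons d (L ++ L') (fun o => F (omSplit (d :: L) L' o))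
    have h2 := a5_cons d L (fun o => avc fun o' : Om L' => F (o, o'))
    have h3 : ∀ p : d.ι × d.ι, (avc fun o : Om (L ++ L') => F ((p, (omSplit L L' o).1), (omSplit L L' o).2)) =
        avc fun o : Om L => avc fun o' : Om L' => F ((p, o), o') := fun p => ih (fun q => F ((p, q.1), q.2))
    refine h1.trans (Eq.trans ?_ h2.symm)
    have h4 : (fun p : d.ι × d.ι => avc fun o : Om (L ++ L') => F ((p, (omSplit L L' o).1), (omSplit L L' o).2)) =
        fun p => avc fun o : Om L => avc fun o' : Om L' => F ((p, o), o') := funext h3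
    exact congrArg avc h4

/-- **Products of adapted families in independent indices are adapted.** Induction on `L`. `[]`: `Φ = ξ` constant, `Ad.smul`.
`d :: L`: `ξ` and `U` are those of `Φ` (with the part `(omSplit ..).1` of the index), `Φ'` the product of `Φ'` and `Θ` by the induction
hypothesis. -/
theorem A5_append [AddCommGroup G] {N : ℝ} (L L' : List (Dir G)) {Φ : Om L → G → ℂ} {Θ : Om L' → G → ℂ} (h : Ad N L Φ)
    (h' : Ad N L' Θ) : Ad N (L ++ L') fun o y => Φ (omSplit L L' o).1 y * Θ (omSplit L L' o).2 y := by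
  induction L with
  | nil =>
    obtain ⟨ξ, hξ, hΦ⟩ := h
    have h1 := h'.smul (fun _ => ξ) (fun _ => hξ)
    have h2 : (fun (o : Om ([] ++ L')) y => Φ (omSplit [] L' o).1 y * Θ (omSplit [] L' o).2 y) =
        fun (o : Om L') y => ξ * Θ o y := by
      funext o y
      rw [hΦ]
      rfl
    rw [h2]
    exact h1
  | cons d L ih =>
    obtain ⟨ξ, U, Φ', hξ, hU, hΦ', hΦ⟩ := h
    refine ⟨fun o => ξ (o.1, (omSplit L L' o.2).1), fun o => U (omSplit L L' o).1,
      fun o y => Φ' (omSplit L L' o).1 y * Θ (omSplit L L' o).2 y, fun o => hξ _, fun o => hU _, ih hΦ', ?_⟩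
    intro o y
    have h1 := hΦ (o.1, (omSplit L L' o.2).1) y
    show Φ (o.1, (omSplit L L' o.2).1) y * Θ (omSplit L L' o.2).2 y = _
    rw [h1]
    ring

end Pool.Agent.HPP
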