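import Pool.Agent.Lib.HPP.A4

/-!
# Project HPP, A6 (M): the killing lemma (K)
-/

open Finset

namespace Pool.Agent.HPP

variable {G : Type} [AddCommGroup G] [Fintype G]

theorem a6_shift (d : Dir G) (L : List (Dir G)) (g : G → ℂ) (ξ : (d.ι × d.ι) × Om L → ℂ)
    (U Φ' : Om L → G → ℂ) (z z' : d.ι) (o : Om L) : (∑ y, g y * (ξ ((z, z'), o) * U o (y + (d.a z' - d.a z)) * Φ' o y)) =
      ∑ w, U o (w + d.a z') * (ξ ((z, z'), o) * g (w + d.a z) * Φ' o (w + d.a z)) := by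
  rw [← sum_trans (fun y => g y * (ξ ((z, z'), o) * U o (y + (d.a z' - d.a z)) * Φ' o y)) (d.a z)]
  refine Finset.sum_congr rfl fun w _ => ?_
  have e : w + d.a z + (d.a z' - d.a z) = w + d.a z' := by abel
  simp only [e]
  ring

theorem a6_T (d : Dir G) (L : List (Dir G)) (g : G → ℂ) (ξ : (d.ι × d.ι) × Om L → ℂ)
    (U Φ' : Om L → G → ℂ) :
    (avc fun o : (d.ι × d.ι) × Om L => ∑ y, g y * (ξ o * U o.2 (y + (d.a o.1.2 - d.a o.1.1)) * Φ' o.2 y)) =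
      avc fun t : d.ι × Om L => ∑ w, U t.2 (w + d.a t.1) * avc fun z => ξ ((z, t.1), t.2) * g (w + d.a z) * Φ' t.2 (w + d.a z) := by
  calc (avc fun o : (d.ι × d.ι) × Om L => ∑ y, g y * (ξ o * U o.2 (y + (d.a o.1.2 - d.a o.1.1)) * Φ' o.2 y))
      = avc fun z : d.ι => avc fun z' : d.ι => avc fun o : Om L => ∑ w, U o (w + d.a z') * (ξ ((z, z'), o) * g (w + d.a z) * Φ' o (w + d.a z)) := by
        rw [avc_prod, avc_prod]
        exact congrArg avc (funext fun z => congrArg avc (funext fun z' => congrArg avc (funext fun o => a6_shift d L g ξ U Φ' z z' o)))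
    _ = avc fun z' : d.ι => avc fun o : Om L => avc fun z : d.ι => ∑ w, U o (w + d.a z') * (ξ ((z, z'), o) * g (w + d.a z) * Φ' o (w + d.a z)) := by
        rw [avc_comm]
        exact congrArg avc (funext fun z' => avc_comm _)
    _ = _ := by
        rw [avc_prod (ι := d.ι) (κ := Om L)]
        refine congrArg avc (funext fun z' => congrArg avc (funext fun o => ?_))
        change _ = ∑ w, U o (w + d.a z') * avc fun z => ξ ((z, z'), o) * g (w + d.a z) * Φ' o (w + d.a z)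
        rw [avc_sum]
        simp only [avc_mul_left]

theorem a6_sq (d : Dir G) (L : List (Dir G)) (g : G → ℂ) (ξ : (d.ι × d.ι) × Om L → ℂ) (Φ' : Om L → G → ℂ) (z' : d.ι) (o : Om L) :
    ((∑ w, ‖avc fun z => ξ ((z, z'), o) * g (w + d.a z) * Φ' o (w + d.a z)‖ ^ 2 : ℝ) : ℂ) = avc fun p : d.ι × d.ι => ∑ w, D2 (d.a p.1) (d.a p.2) g w *
        (ξ ((p.1, z'), o) * (starRingEnd ℂ) (ξ ((p.2, z'), o)) * D2 (d.a p.1) (d.a p.2) (Φ' o) w) := by
  rw [avc_sum, Complex.ofReal_sum]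
  refine Finset.sum_congr rfl fun w _ => ?_
  rw [Complex.ofReal_pow, ← Complex.mul_conj', avc_mul_conj]
  refine congrArg avc (funext fun p => ?_)
  simp only [D2, map_mul]
  ring

theorem a6_fin (d : Dir G) (L : List (Dir G)) (g : G → ℂ) (ξ : (d.ι × d.ι) × Om L → ℂ) (Φ' : Om L → G → ℂ) :
    (av fun t : d.ι × Om L => ∑ w, ‖avc fun z => ξ ((z, t.1), t.2) * g (w + d.a z) * Φ' t.2 (w + d.a z)‖ ^ 2) ≤
      av fun q : d.ι × (d.ι × d.ι) => ‖avc fun o : Om L => ∑ w, D2 (d.a q.2.1) (d.a q.2.2) g w *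
        (ξ ((q.2.1, q.1), o) * (starRingEnd ℂ) (ξ ((q.2.2, q.1), o)) * D2 (d.a q.2.1) (d.a q.2.2) (Φ' o) w)‖ := by
  have h6 : ((av fun t : d.ι × Om L => ∑ w, ‖avc fun z => ξ ((z, t.1), t.2) * g (w + d.a z) * Φ' t.2 (w + d.a z)‖ ^ 2 : ℝ) : ℂ) =
      avc fun q : d.ι × (d.ι × d.ι) => avc fun o : Om L => ∑ w, D2 (d.a q.2.1) (d.a q.2.2) g w *
        (ξ ((q.2.1, q.1), o) * (starRingEnd ℂ) (ξ ((q.2.2, q.1), o)) * D2 (d.a q.2.1) (d.a q.2.2) (Φ' o) w) := by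
    rw [av_ofReal, avc_prod, avc_prod (ι := d.ι) (κ := d.ι × d.ι)]
    refine congrArg avc (funext fun z' => ?_)
    refine Eq.trans ?_ (avc_comm _)
    exact congrArg avc (funext fun o => a6_sq d L g ξ Φ' z' o)
  refine (le_abs_self _).trans ?_
  rw [← Real.norm_eq_abs, ← Complex.norm_real, h6]
  exact norm_avc_le _

/-- One step. Proof. For fixed `o : Om L` and `z' = p.2` put `y = w + a z` (`z = p.1`, `sum_trans`):
`∑_y g y * (ξ U_o (y + (a z' - a z)) Φ'_o y) = ∑_w U_o (w + a z') * (ξ g (w + a z) Φ'_o (w + a z))`. So the left side is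
`‖avc_{o, z'} ∑_w U_o (w + a z') * avc_z (ξ ..)‖ ^ 2 ≤ av_{o, z'} ‖∑_w ..‖ ^ 2 ≤ N av_{o, z'} ∑_w ‖avc_z ξ g (w + a z) Φ'_o (w + a z)‖ ^ 2`
(`norm_avc_sq`, `FN.cs`, `FN.trans`) and the square is `avc_{z, z~}` (`avc_mul_conj`) of
`ξ(z, z', o) conj ξ(z~, z', o) * D2 (a z) (a z~) g w * D2 (a z) (a z~) Φ'_o w`; exchange the averages, `norm_avc_le`. -/
theorem A6_step {N : ℝ} (hN : 0 < N) (d : Dir G) (L : List (Dir G)) (g : G → ℂ) (ξ : (d.ι × d.ι) × Om L → ℂ)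
    (U Φ' : Om L → G → ℂ) (hU : ∀ o, FN N (U o)) :
    ‖avc fun o : (d.ι × d.ι) × Om L => ∑ y, g y * (ξ o * U o.2 (y + (d.a o.1.2 - d.a o.1.1)) * Φ' o.2 y)‖ ^ 2 ≤
      N * av fun q : d.ι × (d.ι × d.ι) => ‖avc fun o : Om L => ∑ w, D2 (d.a q.2.1) (d.a q.2.2) g w *
        (ξ ((q.2.1, q.1), o) * (starRingEnd ℂ) (ξ ((q.2.2, q.1), o)) * D2 (d.a q.2.1) (d.a q.2.2) (Φ' o) w)‖ := by
  rw [a6_T]
  refine (norm_avc_sq _).trans ?_
  refine le_trans (av_mono (H := fun t : d.ι × Om L => N * ∑ w, ‖avc fun z => ξ ((z, t.1), t.2) * g (w + d.a z) * Φ' t.2 (w + d.a z)‖ ^ 2)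
    fun t => ((hU t.2).trans (d.a t.1)).cs _) ?_
  rw [av_mul_left]
  exact mul_le_mul_of_nonneg_left (a6_fin d L g ξ Φ') hN.le

/-- **The killing lemma (K).** Proof. Induction on `L`, generalising `g` and `Φ`. `[]`: `Φ = ξ` constant: `‖∑ g ξ‖ ≤ ‖∑ g‖` (`NN_nil`, exponent `1`).
`d :: L`: `A6_step`; for fixed `q = (z', z, z~)` the family `o ↦ ξ ξ' D2 Φ'_o` is adapted (`Ad.D2`, `Ad.smul`) and `D2 g ∈ FN N`: the
induction hypothesis. With `x = ‖..‖ / N`, `m = 2 ^ L.length`: `x ^ (2 m) ≤ (av_q ‖..‖ / N) ^ m ≤ av_q (‖..‖ / N) ^ m ≤ av_q NN L (D2 g) / N`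
(`av_pow`), and `av_q` over `(z', (z, z~))` of a function of `(z, z~)` is `NN (d :: L) g / N` (`av_prod`, `av_const`, `NN_cons`). -/
theorem A6_kill {N : ℝ} (hN : 0 < N) : ∀ (L : List (Dir G)) (g : G → ℂ), FN N g → ∀ Φ : Om L → G → ℂ, Ad N L Φ →
    (‖avc fun o : Om L => ∑ y, g y * Φ o y‖ / N) ^ (2 ^ L.length) ≤ NN L g / N := by
  intro L
  induction L with
  | nil =>
    rintro g hg Φ ⟨ξ, hξ, e⟩
    have h1 : (avc fun o : Om ([] : List (Dir G)) => ∑ y, g y * Φ o y) = (∑ y, g y) * ξ := by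
      simp only [e, ← Finset.sum_mul]
      exact avc_const _
    rw [h1, NN_nil, List.length_nil, pow_zero, pow_one, norm_mul]
    exact div_le_div_of_nonneg_right (mul_le_of_le_one_right (norm_nonneg _) hξ) hN.le
  | cons d L ih =>
    rintro g hg Φ ⟨ξ, U, Φ', hξ, hU, hΦ', e⟩
    have h0 : (avc fun o : Om (d :: L) => ∑ y, g y * Φ o y) =
        avc fun o : (d.ι × d.ι) × Om L => ∑ y, g y * (ξ o * U o.2 (y + (d.a o.1.2 - d.a o.1.1)) * Φ' o.2 y) := by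
      exact congrArg avc (funext fun o => Finset.sum_congr rfl fun y _ => congrArg (fun x => g y * x) (e o y))
    rw [h0]
    have h1 := A6_step hN d L g ξ U Φ' hU
    obtain ⟨X, hX⟩ : ∃ X : ℝ, X = ‖avc fun o : (d.ι × d.ι) × Om L => ∑ y, g y * (ξ o * U o.2 (y + (d.a o.1.2 - d.a o.1.1)) * Φ' o.2 y)‖ := ⟨_, rfl⟩
    rw [← hX] at h1 ⊢
    have hX0 : 0 ≤ X := by
      rw [hX]
      exact norm_nonneg _
    let Z : d.ι × (d.ι × d.ι) → ℝ := fun q => ‖avc fun o : Om L => ∑ w, D2 (d.a q.2.1) (d.a q.2.2) g w *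
        (ξ ((q.2.1, q.1), o) * (starRingEnd ℂ) (ξ ((q.2.2, q.1), o)) * D2 (d.a q.2.1) (d.a q.2.2) (Φ' o) w)‖ / N
    have hZ0 : ∀ q, 0 ≤ Z q := fun q => div_nonneg (norm_nonneg _) hN.le
    have h2 : (X / N) ^ 2 ≤ av Z := by
      have h3 : av Z = (N * av fun q : d.ι × (d.ι × d.ι) => ‖avc fun o : Om L => ∑ w, D2 (d.a q.2.1) (d.a q.2.2) g w *
        (ξ ((q.2.1, q.1), o) * (starRingEnd ℂ) (ξ ((q.2.2, q.1), o)) * D2 (d.a q.2.1) (d.a q.2.2) (Φ' o) w)‖) / N ^ 2 := by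
        rw [show av Z = _ from av_div N _]
        field_simp
      rw [h3, div_pow]
      exact div_le_div_of_nonneg_right h1 (by positivity)
    have h4 : ∀ q, Z q ^ (2 ^ L.length) ≤ NN L (D2 (d.a q.2.1) (d.a q.2.2) g) / N := by
      intro q
      refine ih (D2 (d.a q.2.1) (d.a q.2.2) g) (hg.D2 _ _) (fun o w => ξ ((q.2.1, q.1), o) * (starRingEnd ℂ) (ξ ((q.2.2, q.1), o)) *
        D2 (d.a q.2.1) (d.a q.2.2) (Φ' o) w) ?_
      refine (hΦ'.D2 (d.a q.2.1) (d.a q.2.2)).smul (fun o => ξ ((q.2.1, q.1), o) * (starRingEnd ℂ) (ξ ((q.2.2, q.1), o))) fun o => ?_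
      rw [norm_mul, RCLike.norm_conj]
      exact mul_le_one₀ (hξ _) (norm_nonneg _) (hξ _)
    calc (X / N) ^ 2 ^ (d :: L).length = ((X / N) ^ 2) ^ (2 ^ L.length) := by
          rw [List.length_cons, ← pow_mul, pow_succ']
      _ ≤ (av Z) ^ (2 ^ L.length) := pow_le_pow_left₀ (sq_nonneg _) h2 _
      _ ≤ av fun q => Z q ^ (2 ^ L.length) := av_pow _ hZ0
      _ ≤ av fun q : d.ι × (d.ι × d.ι) => NN L (D2 (d.a q.2.1) (d.a q.2.2) g) / N := av_mono h4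
      _ = NN (d :: L) g / N := by
          rw [av_div, NN_cons, av_prod]
          exact congrArg (fun x => x / N) (av_const (ι := d.ι) (av fun p : d.ι × d.ι => NN L (D2 (d.a p.1) (d.a p.2) g)))

end Pool.Agent.HPP
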