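import Pool.Agent.Lib.HPP.A7a

/-!
# Project HPP, A7 (M): the concatenation step (C1)
-/

open Finset

namespace Pool.Agent.HPP

variable {G : Type} [AddCommGroup G] [Fintype G]

/-- The first formula: a sum with the phase. -/
theorem a7_one (d : Dir G) (β : List (Dir G)) (f : G → ℂ) :
    ∃ ξ : (d.ι × d.ι) → Om β → ℂ, (∀ p o, ‖ξ p o‖ ≤ 1) ∧
      ((NN (d :: β) f : ℝ) : ℂ) = ∑ y, f y * avc fun p : d.ι × d.ι => avc fun o : Om β => ξ p o *
        ((starRingEnd ℂ) (f (y + (d.a p.2 - d.a p.1))) * ((starRingEnd ℂ) (Phi β f o (y + (d.a p.2 - d.a p.1))) * Phi β f o y)) := by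
  have h1 : ∀ (p : d.ι × d.ι) (o : Om β), ∃ ξ : ℂ, ‖ξ‖ ≤ 1 ∧ ((‖∑ y, nab β o (D2 (d.a p.1) (d.a p.2) f) y‖ : ℝ) : ℂ) =
      ξ * ∑ y, nab β o (D2 (d.a p.1) (d.a p.2) f) y := fun p o => phase _
  choose ξ hξ hp using h1
  refine ⟨ξ, hξ, ?_⟩
  have h2 : ∀ (p : d.ι × d.ι) (o : Om β), (∑ y, nab β o (D2 (d.a p.1) (d.a p.2) f) y) =
      ∑ y, f y * ((starRingEnd ℂ) (f (y + (d.a p.2 - d.a p.1))) * ((starRingEnd ℂ) (Phi β f o (y + (d.a p.2 - d.a p.1))) * Phi β f o y)) := by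
    intro p o
    have h3 := A4_phi (d :: β) (p, o) f
    rw [← sum_trans (nab β o (D2 (d.a p.1) (d.a p.2) f)) (-(sh (d :: β) ((p, o) : Om (d :: β))))]
    refine Finset.sum_congr rfl fun y _ => ?_
    rw [← sub_eq_add_neg, ← D2_nab]
    refine (h3 y).trans ?_
    refine congrArg (fun x => f y * x) ?_
    change (starRingEnd ℂ) (f (y + (d.a p.2 - d.a p.1)) * Phi β f o (y + (d.a p.2 - d.a p.1))) * Phi β f o y = _
    rw [map_mul]
    ring
  rw [NN_cons, av_ofReal]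
  have h4 : ∀ p : d.ι × d.ι, ((NN β (D2 (d.a p.1) (d.a p.2) f) : ℝ) : ℂ) = avc fun o : Om β => ∑ y, f y * (ξ p o *
      ((starRingEnd ℂ) (f (y + (d.a p.2 - d.a p.1))) * ((starRingEnd ℂ) (Phi β f o (y + (d.a p.2 - d.a p.1))) * Phi β f o y))) := by
    intro p
    unfold NN
    rw [av_ofReal]
    refine congrArg avc (funext fun o => ?_)
    rw [hp, h2, Finset.mul_sum]
    refine Finset.sum_congr rfl fun y _ => ?_
    ring
  simp only [h4, avc_sum, avc_mul_left]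

/-- The square of the average, for two indices. -/
theorem a7_two (d e : Dir G) (β β' : List (Dir G)) (f : G → ℂ) (ξ : (d.ι × d.ι) → Om β → ℂ) (ξ' : (e.ι × e.ι) → Om β' → ℂ) :
    (∑ y, (avc fun p : d.ι × d.ι => avc fun o : Om β => ξ p o *
        ((starRingEnd ℂ) (f (y + (d.a p.2 - d.a p.1))) * ((starRingEnd ℂ) (Phi β f o (y + (d.a p.2 - d.a p.1))) * Phi β f o y))) *
      (starRingEnd ℂ) (avc fun p : e.ι × e.ι => avc fun o : Om β' => ξ' p o *
        ((starRingEnd ℂ) (f (y + (e.a p.2 - e.a p.1))) * ((starRingEnd ℂ) (Phi β' f o (y + (e.a p.2 - e.a p.1))) * Phi β' f o y)))) =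
    avc fun r : (d.ι × d.ι) × (e.ι × e.ι) => avc fun o : Om β => avc fun o' : Om β' => ∑ y,
      ((starRingEnd ℂ) (f (y + (d.a r.1.2 - d.a r.1.1))) * f (y + (e.a r.2.2 - e.a r.2.1))) * ((ξ r.1 o * (starRingEnd ℂ) (ξ' r.2 o')) *
        ((starRingEnd ℂ) (Phi β f o (y + (d.a r.1.2 - d.a r.1.1))) * Phi β f o y) *
        (Phi β' f o' (y + (e.a r.2.2 - e.a r.2.1)) * (starRingEnd ℂ) (Phi β' f o' y))) := by
  rw [avc_prod (ι := d.ι × d.ι) (κ := e.ι × e.ι)]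
  simp only [avc_sum]
  refine Finset.sum_congr rfl fun y _ => ?_
  rw [avc_star, ← avc_mul_right]
  refine congrArg avc (funext fun p => ?_)
  rw [← avc_mul_left]
  refine congrArg avc (funext fun q => ?_)
  rw [avc_star, ← avc_mul_right]
  refine congrArg avc (funext fun o => ?_)
  rw [← avc_mul_left]
  refine congrArg avc (funext fun o' => ?_)
  simp only [map_mul, Complex.conj_conj]
  ring

theorem a7_sub (d e : Dir G) (L : List (Dir G)) (f : G → ℂ) :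
    NN (e.sub d :: L) f = av fun r : (d.ι × d.ι) × (e.ι × e.ι) => NN L (D2 (e.a r.2.2 - d.a r.1.2) (e.a r.2.1 - d.a r.1.1) f) := by
  rw [NN_cons]
  change (av fun p : (e.ι × d.ι) × (e.ι × d.ι) => NN L (D2 (e.a p.1.1 - d.a p.1.2) (e.a p.2.1 - d.a p.2.2) f)) = _
  let E : ((d.ι × d.ι) × (e.ι × e.ι)) ≃ ((e.ι × d.ι) × (e.ι × d.ι)) :=
    ⟨fun r => ((r.2.2, r.1.2), (r.2.1, r.1.1)), fun p => ((p.2.2, p.1.2), (p.2.1, p.1.1)), fun _ => rfl, fun _ => rfl⟩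
  exact (av_equiv E (fun p : (e.ι × d.ι) × (e.ι × d.ι) => NN L (D2 (e.a p.1.1 - d.a p.1.2) (e.a p.2.1 - d.a p.2.2) f))).symm

/-- **A7b. The concatenation step.** Proof. By `A4_phi` for the list `α i :: β i` and `phase`, `sum_trans`:
`NN (α i :: β i) f = av_o ‖∑_y f(y) Phi (α i :: β i) f o y‖` and `Phi (d :: L) f ((x, x'), o) y = conj f(y + a) * (conj (Phi L f o (y + a)) * Phi L f o y)`,
`a = d.a x' - d.a x`. So `av_i NN (α i :: β i) f = ‖∑_y f(y) W(y)‖` with `W(y) = avc_{i, x, x', o} ξ conj f(y + a) (..)`. `FN.cs`: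
its square is `≤ N ∑_y ‖W y‖ ^ 2 = N avc_{(i,x,x',o), (j,u,u',o')} ..` (`avc_mul_conj`); take absolute values outside the averages over `o, o'`. For fixed
`i, x, x', j, u, u'`: `A7a` with `u := e.a u' - d.a x'`, `v := e.a u - d.a x` where `e = α j`, `d = α i` (so `v - u = a - b`), the length is `2 p`.
With `m = 2 ^ (2 p)`: `(.. / N) ^ (2 m) ≤ (av ‖..‖ / N) ^ m ≤ av (‖..‖ / N) ^ m ≤ av NN (β i ++ β j) (D2 ..) / N` and by `NN_cons` for
`(α j).sub (α i)` (index `((u', x'), (u, x))`; reorder the averages, `av_prod`, `av_comm`) this is the right side. -/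
theorem A7b (N : ℝ) (hN : 0 < N) {I : Type} [Fintype I] [Nonempty I] (p : ℕ) (α : I → Dir G) (β : I → List (Dir G))
    (hβ : ∀ i, (β i).length = p) (f : G → ℂ) (hf : FN N f) :
    ((av fun i => NN (α i :: β i) f) / N) ^ (2 ^ (2 * p + 1)) ≤
      (av fun x : I × I => NN ((α x.2).sub (α x.1) :: (β x.1 ++ β x.2)) f) / N := by
  choose ξ hξ hNN using fun i => a7_one (α i) (β i) f
  obtain ⟨V, hV⟩ : ∃ V : I → G → ℂ, V = fun i y => avc fun p : (α i).ι × (α i).ι => avc fun o : Om (β i) => ξ i p o *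
        ((starRingEnd ℂ) (f (y + ((α i).a p.2 - (α i).a p.1))) *
          ((starRingEnd ℂ) (Phi (β i) f o (y + ((α i).a p.2 - (α i).a p.1))) * Phi (β i) f o y)) := ⟨_, rfl⟩
  obtain ⟨X, hX⟩ : ∃ X : ℝ, X = av fun i => NN (α i :: β i) f := ⟨_, rfl⟩
  have hX0 : 0 ≤ X := by
    rw [hX]
    exact av_nonneg fun i => NN_nonneg _ _
  have h1 : (X : ℂ) = ∑ y, f y * avc fun i => V i y := by
    rw [hX, av_ofReal]
    simp only [hNN, avc_sum, avc_mul_left]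
    rw [hV]
  have h2 : X ^ 2 ≤ N * ∑ y, ‖avc fun i => V i y‖ ^ 2 := by
    have h3 := hf.cs fun y => avc fun i => V i y
    rw [← h1, Complex.norm_real, Real.norm_eq_abs, sq_abs] at h3
    exact h3
  obtain ⟨Z, hZ⟩ : ∃ Z : (x : I × I) → ((α x.1).ι × (α x.1).ι) × ((α x.2).ι × (α x.2).ι) → ℝ, Z = fun x r => ‖avc fun o : Om (β x.1) => avc fun o' : Om (β x.2) => ∑ y,
      ((starRingEnd ℂ) (f (y + ((α x.1).a r.1.2 - (α x.1).a r.1.1))) * f (y + ((α x.2).a r.2.2 - (α x.2).a r.2.1))) *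
        ((ξ x.1 r.1 o * (starRingEnd ℂ) (ξ x.2 r.2 o')) *
        ((starRingEnd ℂ) (Phi (β x.1) f o (y + ((α x.1).a r.1.2 - (α x.1).a r.1.1))) * Phi (β x.1) f o y) *
        (Phi (β x.2) f o' (y + ((α x.2).a r.2.2 - (α x.2).a r.2.1)) * (starRingEnd ℂ) (Phi (β x.2) f o' y)))‖ / N := ⟨_, rfl⟩
  have hZ0 : ∀ x r, 0 ≤ Z x r := by
    intro x r
    rw [hZ]
    exact div_nonneg (norm_nonneg _) hN.le
  have h3 : (∑ y, ‖avc fun i => V i y‖ ^ 2) ≤ N * av fun x => av (Z x) := by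
    have h4 : ((∑ y, ‖avc fun i => V i y‖ ^ 2 : ℝ) : ℂ) = avc fun x : I × I => ∑ y, V x.1 y * (starRingEnd ℂ) (V x.2 y) := by
      rw [avc_sum, Complex.ofReal_sum]
      refine Finset.sum_congr rfl fun y _ => ?_
      rw [Complex.ofReal_pow, ← Complex.mul_conj', avc_mul_conj]
    have h5 : (∑ y, ‖avc fun i => V i y‖ ^ 2) ≤ av fun x : I × I => ‖∑ y, V x.1 y * (starRingEnd ℂ) (V x.2 y)‖ := by
      refine (le_abs_self _).trans ?_
      rw [← Real.norm_eq_abs, ← Complex.norm_real, h4]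
      exact norm_avc_le _
    refine h5.trans ?_
    rw [← av_mul_left]
    refine av_mono fun x => ?_
    rw [hV]
    simp only
    rw [a7_two]
    refine (norm_avc_le _).trans ?_
    rw [← av_mul_left]
    refine av_mono fun r => ?_
    rw [hZ]
    exact (mul_div_cancel₀ _ hN.ne').symm.le
  have h6 : (X / N) ^ 2 ≤ av fun x => av (Z x) := by
    rw [div_pow, div_le_iff₀ (by positivity)]
    calc X ^ 2 ≤ N * ∑ y, ‖avc fun i => V i y‖ ^ 2 := h2
      _ ≤ N * (N * av fun x => av (Z x)) := mul_le_mul_of_nonneg_left h3 hN.le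
      _ = _ := by ring
  have h7 : ∀ x r, Z x r ^ (2 ^ (2 * p)) ≤ NN (β x.1 ++ β x.2) (D2 ((α x.2).a r.2.2 - (α x.1).a r.1.2) ((α x.2).a r.2.1 - (α x.1).a r.1.1) f) / N := by
    intro x r
    have h8 := A7a N hN f hf (β x.1) (β x.2) ((α x.1).a r.1.2 - (α x.1).a r.1.1) ((α x.2).a r.2.2 - (α x.2).a r.2.1)
      ((α x.2).a r.2.2 - (α x.1).a r.1.2) ((α x.2).a r.2.1 - (α x.1).a r.1.1) (by abel) (fun o o' => ξ x.1 r.1 o * (starRingEnd ℂ) (ξ x.2 r.2 o')) ?_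
    · rw [hβ, hβ, ← two_mul] at h8
      rw [hZ]
      exact h8
    · intro o o'
      rw [norm_mul, RCLike.norm_conj]
      exact mul_le_one₀ (hξ _ _ _) (norm_nonneg _) (hξ _ _ _)
  rw [← hX]
  calc (X / N) ^ 2 ^ (2 * p + 1) = ((X / N) ^ 2) ^ (2 ^ (2 * p)) := by
        rw [← pow_mul, pow_succ']
    _ ≤ (av fun x => av (Z x)) ^ (2 ^ (2 * p)) := pow_le_pow_left₀ (sq_nonneg _) h6 _
    _ ≤ av fun x => (av (Z x)) ^ (2 ^ (2 * p)) := av_pow _ fun x => av_nonneg (hZ0 x)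
    _ ≤ av fun x => av fun r => (Z x r) ^ (2 ^ (2 * p)) := av_mono fun x => av_pow _ (hZ0 x)
    _ ≤ av fun x : I × I => av fun r : ((α x.1).ι × (α x.1).ι) × ((α x.2).ι × (α x.2).ι) => NN (β x.1 ++ β x.2) (D2 ((α x.2).a r.2.2 - (α x.1).a r.1.2) ((α x.2).a r.2.1 - (α x.1).a r.1.1) f) / N :=
        av_mono fun x => av_mono (h7 x)
    _ = _ := by
        rw [← av_div]
        refine congrArg av (funext fun x => ?_)
        rw [av_div, a7_sub]

end Pool.Agent.HPP
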