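import Pool.Agent.Lib.HPP.A5
import Pool.Agent.Lib.HPP.A6

/-!
# Project HPP, A7a (M): the concatenation step for two fixed indices
-/

open Finset

namespace Pool.Agent.HPP

variable {G : Type} [AddCommGroup G] [Fintype G]

/-- **A7a.** Two indices `(i, x, x')` and `(j, u, u')` fixed: `α = d` for `i`, `α = e` for `j`.
`g y = conj f(y + a) f(y + b)`, `a = d.a x' - d.a x`, `b = e.a u' - e.a u`, is a translate of
`D2 (e.a u' - d.a x') (e.a u - d.a x) f`: `g (y + c)` with `c = e.a u - d.a x'` (abelian group computation, `f(y + b + c) = f(y + (e.a u' - d.a x'))`,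
`f(y + a + c) = f(y + (e.a u - d.a x))`). The families `Ψ_o(y) = conj (Phi β f o (y + a)) * Phi β f o y` (`β` the list of `i`), and the conjugate of
the same for `j`, are adapted (`A4_ad`, `Ad.mul`, `Ad.trans`, `Ad.star`); product over the two indices: `A5_append`, scalars `Ad.smul`; `A6_kill` for
`L = β ++ β'`, and `NN_trans`. -/
theorem A7a (N : ℝ) (hN : 0 < N) (f : G → ℂ) (hf : FN N f) (β β' : List (Dir G)) (a b u v : G) (huv : v - u = a - b)
    (ξ : Om β → Om β' → ℂ) (hξ : ∀ o o', ‖ξ o o'‖ ≤ 1) :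
    (‖avc fun o : Om β => avc fun o' : Om β' => ∑ y, ((starRingEnd ℂ) (f (y + a)) * f (y + b)) * (ξ o o' *
        ((starRingEnd ℂ) (Phi β f o (y + a)) * Phi β f o y) *
        (Phi β' f o' (y + b) * (starRingEnd ℂ) (Phi β' f o' y)))‖ / N) ^ (2 ^ (β.length + β'.length)) ≤
      NN (β ++ β') (D2 u v f) / N := by
  have hβ := A4_ad β f hf
  have hβ' := A4_ad β' f hf
  have h1 := ((hβ.trans a).star).mul hβ
  have h2 := (hβ'.trans b).mul hβ'.star
  have h3 := (A5_append β β' h1 h2).smul (fun o => ξ (omSplit β β' o).1 (omSplit β β' o).2) (fun o => hξ _ _)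
  have hg : FN N (fun y => (starRingEnd ℂ) (f (y + a)) * f (y + b)) :=
    FN.mul (FN.star (FN.trans hf a)) (fun y => hf.le (y + b))
  have h4 := A6_kill hN (β ++ β') _ hg _ h3
  have h5 := avc_split β β' (fun p : Om β × Om β' => ∑ y, ((starRingEnd ℂ) (f (y + a)) * f (y + b)) *
    (ξ p.1 p.2 * (((starRingEnd ℂ) (Phi β f p.1 (y + a)) * Phi β f p.1 y) *
      (Phi β' f p.2 (y + b) * (starRingEnd ℂ) (Phi β' f p.2 y)))))
  have h6 : D2 u v f = fun y => (fun y => (starRingEnd ℂ) (f (y + a)) * f (y + b)) (y + (u - b)) := by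
    funext y
    have e1 : y + (u - b) + b = y + u := by abel
    have e2 : y + (u - b) + a = y + v := by
      have : v = u + (a - b) := by
        rw [← huv]
        abel
      rw [this]
      abel
    show f (y + u) * (starRingEnd ℂ) (f (y + v)) = (starRingEnd ℂ) (f (y + (u - b) + a)) * f (y + (u - b) + b)
    rw [e1, e2, mul_comm]
  rw [h6, NN_trans (β ++ β') (fun y => (starRingEnd ℂ) (f (y + a)) * f (y + b)) (u - b)]
  rw [List.length_append] at h4
  refine le_trans (le_of_eq ?_) h4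
  congr 3
  refine Eq.trans ?_ h5.symm
  have h7 : ∀ o : Om β, ∀ o' : Om β', ∑ y, ((starRingEnd ℂ) (f (y + a)) * f (y + b)) * (ξ o o' *
        ((starRingEnd ℂ) (Phi β f o (y + a)) * Phi β f o y) *
        (Phi β' f o' (y + b) * (starRingEnd ℂ) (Phi β' f o' y))) =
      ∑ y, ((starRingEnd ℂ) (f (y + a)) * f (y + b)) * (ξ o o' *
        (((starRingEnd ℂ) (Phi β f o (y + a)) * Phi β f o y) *
        (Phi β' f o' (y + b) * (starRingEnd ℂ) (Phi β' f o' y)))) := by
    intro o o'
    refine Finset.sum_congr rfl fun y _ => ?_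
    rw [mul_assoc (ξ o o')]
  simp only [h7]

end Pool.Agent.HPP
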