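import Pool.Agent.Lib.HPP.A3

/-!
# Project HPP, A8 (S): common directions; Fourier transforms of directions
-/

open Finset

namespace Pool.Agent.HPP

variable {G : Type} [AddCommGroup G] [Fintype G]

/-- **Common directions.** If the inequality holds for all `f ∈ FN N` then it holds with the fixed directions `C` added in front.
Proof. `NN_append`: `NN (C ++ A i) f = av_c NN (A i) (nab C c f)`, `nab C c f ∈ FN N` (`FN.nab`). `av_comm`; with
`X_c = (av_i NN (A i) (nab C c f)) / N`: `(av_c X_c) ^ E ≤ av_c X_c ^ E` (`av_pow`) `≤ av_c (av_j NN (B j) (nab C c f)) / N`. -/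
theorem A8_common {N : ℝ} (hN : 0 < N) {I J : Type} [Fintype I] [Nonempty I] [Fintype J] [Nonempty J] (E : ℕ)
    (A : I → List (Dir G)) (B : J → List (Dir G))
    (h : ∀ f : G → ℂ, FN N f → ((av fun i => NN (A i) f) / N) ^ E ≤ (av fun j => NN (B j) f) / N)
    (C : List (Dir G)) (f : G → ℂ) (hf : FN N f) :
    ((av fun i => NN (C ++ A i) f) / N) ^ E ≤ (av fun j => NN (C ++ B j) f) / N := by
  have key : ∀ {K : Type} [Fintype K] [Nonempty K] (A : K → List (Dir G)),
      (av fun i => NN (C ++ A i) f) / N = av fun c : Om C => (av fun i => NN (A i) (nab C c f)) / N := by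
    intro K _ _ A
    simp only [NN_append]
    rw [av_comm, av_div]
  rw [key A, key B]
  refine (av_pow E fun c => ?_).trans (av_mono fun c => h _ (hf.nab C c))
  exact div_nonneg (av_nonneg fun i => NN_nonneg _ _) hN.le

omit [Fintype G] in
theorem ft_le (d : Dir G) (χ : AddChar G ℂ) [Finite G] : ‖ft d χ‖ ≤ 1 := by
  unfold ft
  refine (norm_avc_le _).trans (av_le fun x => ?_)
  exact (AddChar.norm_apply χ _).le

omit [Fintype G] in
/-- `‖ft (d.sub e) χ‖ = ‖ft d χ‖ ‖ft e χ‖` (`χ (a - b) = χ a conj (χ b)` on a finite group, `AddChar.map_neg_eq_conj`; `avc_prod`). -/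
theorem ft_sub (d e : Dir G) (χ : AddChar G ℂ) [Finite G] : ‖ft (d.sub e) χ‖ = ‖ft d χ‖ * ‖ft e χ‖ := by
  have h1 : ft (d.sub e) χ = ft d χ * (starRingEnd ℂ) (ft e χ) := by
    change (avc fun p : d.ι × e.ι => χ (d.a p.1 - e.a p.2)) = _
    unfold ft
    rw [avc_prod, avc_star, ← avc_mul_right]
    refine congrArg avc (funext fun x => ?_)
    rw [← avc_mul_left]
    refine congrArg avc (funext fun y => ?_)
    rw [sub_eq_add_neg, AddChar.map_add_eq_mul, AddChar.map_neg_eq_conj]
  rw [h1, norm_mul, RCLike.norm_conj]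

end Pool.Agent.HPP
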