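import Pool.Agent.Lib.HPP.A8

/-!
# Project HPP, A9b (S/M): the Fourier bound in the step of `T_p`
-/

open Finset

namespace Pool.Agent.HPP

/-- **The Fourier bound in the step.** Proof. For fixed `i'` the extras of the first application are bounded by
`B1 i' = B ‖ft (α_p i') χ‖² + B'` (`ft_sub`, `av_mul_left`): `av_j ‖ft (δ1 i' k j)‖² ≤ C2 (B² + B1 i')`; average over `i'`:
`≤ C2 (2 B² + B')`. For fixed `j` the extras of the second one are bounded by `B2 j = B' + ∑_k av_{i'} ‖ft (δ1 i' k j)‖²`: `≤ C3 (B² + B2 j)`;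
average over `j` (`av_sum`, `av_comm`): `≤ C3 (B² + B' + n2 C2 (2 B² + B')) ≤ C3 (1 + 2 n2 C2) (B² + B')`. -/
theorem A9_four (p q n2 n3 : ℕ) (C2 C3 : ℝ) (hC2 : 0 ≤ C2) (hC3 : 0 ≤ C3) {I J1 J2 : Type} [Fintype I] [Nonempty I]
    [Fintype J1] [Nonempty J1] [Fintype J2] [Nonempty J2] {G : Type} [AddCommGroup G] [Fintype G]
    (α : Fin (p + 1) → I → Dir G) (γ : Fin q → I → Dir G) (δ1 : I → Fin n2 → J1 → Dir G) (δ2 : J1 → Fin n3 → J2 → Dir G)
    (χ : AddChar G ℂ) (h1 : ∀ (i' : I) (B B' : ℝ), 0 ≤ B → 0 ≤ B' →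
      (∀ l : Fin p, (av fun i => ‖ft (α l.castSucc i) χ‖ ^ 2) ≤ B) →
      (∀ l : Fin (q + 1), (av fun i => ‖ft ((Fin.cons ((α (Fin.last p) i').sub (α (Fin.last p) i)) (fun l => γ l i) :
        Fin (q + 1) → Dir G) l) χ‖ ^ 2) ≤ B') → ∀ k, (av fun j => ‖ft (δ1 i' k j) χ‖ ^ 2) ≤ C2 * (B ^ 2 + B'))
    (h2 : ∀ (j : J1) (B B' : ℝ), 0 ≤ B → 0 ≤ B' → (∀ l : Fin p, (av fun i => ‖ft (α l.castSucc i) χ‖ ^ 2) ≤ B) →
      (∀ l : Fin (q + n2), (av fun i' => ‖ft ((Fin.append (fun l => γ l i') (fun k => δ1 i' k j) :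
        Fin (q + n2) → Dir G) l) χ‖ ^ 2) ≤ B') → ∀ k, (av fun j' => ‖ft (δ2 j k j') χ‖ ^ 2) ≤ C3 * (B ^ 2 + B'))
    (B B' : ℝ) (hB : 0 ≤ B) (hB' : 0 ≤ B') (hα : ∀ l, (av fun i => ‖ft (α l i) χ‖ ^ 2) ≤ B)
    (hγ : ∀ l, (av fun i => ‖ft (γ l i) χ‖ ^ 2) ≤ B') (k : Fin n3) :
    (av fun x : J1 × J2 => ‖ft (δ2 x.1 k x.2) χ‖ ^ 2) ≤ C3 * (1 + 2 * n2 * C2) * (B ^ 2 + B') := by
  obtain ⟨g, hg⟩ : ∃ g : I → ℝ, g = fun i' => ‖ft (α (Fin.last p) i') χ‖ ^ 2 := ⟨_, rfl⟩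
  have hg0 : ∀ i, 0 ≤ g i := fun i => by rw [hg]; exact sq_nonneg _
  have hgB : av g ≤ B := by
    rw [hg]
    exact hα (Fin.last p)
  -- first application
  have e1 : ∀ (i' : I) (k : Fin n2), (av fun j => ‖ft (δ1 i' k j) χ‖ ^ 2) ≤ C2 * (B ^ 2 + (B * g i' + B')) := by
    intro i' k
    refine h1 i' B (B * g i' + B') hB (add_nonneg (mul_nonneg hB (hg0 i')) hB') (fun l => hα l.castSucc) ?_ k
    intro l
    refine Fin.cases ?_ (fun l => ?_) l
    · have e : (av fun i => ‖ft ((Fin.cons ((α (Fin.last p) i').sub (α (Fin.last p) i)) (fun l => γ l i) :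
          Fin (q + 1) → Dir G) 0) χ‖ ^ 2) = g i' * av g := by
        rw [← av_mul_left]
        refine congrArg av (funext fun i => ?_)
        rw [Fin.cons_zero, ft_sub, mul_pow, hg]
      rw [e]
      have := mul_le_mul_of_nonneg_left hgB (hg0 i')
      linarith
    · have e : (av fun i => ‖ft ((Fin.cons ((α (Fin.last p) i').sub (α (Fin.last p) i)) (fun l => γ l i) :
          Fin (q + 1) → Dir G) l.succ) χ‖ ^ 2) = av fun i => ‖ft (γ l i) χ‖ ^ 2 := by
        refine congrArg av (funext fun i => ?_)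
        rw [Fin.cons_succ]
      rw [e]
      have := hγ l
      have := mul_nonneg hB (hg0 i')
      linarith
  -- second application
  obtain ⟨T, hT⟩ : ∃ T : J1 → ℝ, T = fun j => ∑ k : Fin n2, av fun i' => ‖ft (δ1 i' k j) χ‖ ^ 2 := ⟨_, rfl⟩
  have hT0 : ∀ j, 0 ≤ T j := fun j => by
    rw [hT]
    exact Finset.sum_nonneg fun k _ => av_nonneg fun i => sq_nonneg _
  have hTk : ∀ j (k : Fin n2), (av fun i' => ‖ft (δ1 i' k j) χ‖ ^ 2) ≤ T j := fun j k => by
    rw [hT]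
    exact Finset.single_le_sum (f := fun k : Fin n2 => av fun i' => ‖ft (δ1 i' k j) χ‖ ^ 2)
      (fun k _ => av_nonneg fun i => sq_nonneg _) (Finset.mem_univ k)
  have e2 : ∀ j : J1, (av fun j' => ‖ft (δ2 j k j') χ‖ ^ 2) ≤ C3 * (B ^ 2 + (B' + T j)) := by
    intro j
    refine h2 j B (B' + T j) hB (add_nonneg hB' (hT0 j)) (fun l => hα l.castSucc) ?_ k
    intro l
    refine Fin.addCases (fun l => ?_) (fun l => ?_) l
    · have e : (av fun i' => ‖ft ((Fin.append (fun l => γ l i') (fun k => δ1 i' k j) :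
          Fin (q + n2) → Dir G) (Fin.castAdd n2 l)) χ‖ ^ 2) = av fun i => ‖ft (γ l i) χ‖ ^ 2 := by
        refine congrArg av (funext fun i => ?_)
        rw [Fin.append_left]
      rw [e]
      have := hγ l
      have := hT0 j
      linarith
    · have e : (av fun i' => ‖ft ((Fin.append (fun l => γ l i') (fun k => δ1 i' k j) :
          Fin (q + n2) → Dir G) (Fin.natAdd q l)) χ‖ ^ 2) = av fun i' => ‖ft (δ1 i' l j) χ‖ ^ 2 := by
        refine congrArg av (funext fun i => ?_)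
        rw [Fin.append_right]
      rw [e]
      have := hTk j l
      linarith
  -- the average of `T`
  have e3 : av T ≤ n2 * (C2 * (2 * B ^ 2 + B')) := by
    rw [hT, av_sum]
    have : ∀ k : Fin n2, (av fun j => av fun i' => ‖ft (δ1 i' k j) χ‖ ^ 2) ≤ C2 * (2 * B ^ 2 + B') := by
      intro k
      rw [av_comm]
      refine (av_mono fun i' => e1 i' k).trans ?_
      rw [av_mul_left]
      refine mul_le_mul_of_nonneg_left ?_ hC2
      have e : (av fun i' => B ^ 2 + (B * g i' + B')) = B ^ 2 + (B * av g + B') := by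
        rw [av_add, av_add, av_const, av_const, av_mul_left]
      rw [e]
      have := mul_le_mul_of_nonneg_left hgB hB
      nlinarith
    refine (Finset.sum_le_sum fun k _ => this k).trans (le_of_eq ?_)
    rw [Finset.sum_const, Finset.card_univ, Fintype.card_fin, nsmul_eq_mul]
  have e4 : (av fun x : J1 × J2 => ‖ft (δ2 x.1 k x.2) χ‖ ^ 2) ≤ C3 * (B ^ 2 + (B' + av T)) := by
    rw [av_prod]
    refine (av_mono e2).trans (le_of_eq ?_)
    rw [av_mul_left, av_add, av_add, av_const, av_const]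
  refine e4.trans ?_
  rw [mul_assoc]
  refine mul_le_mul_of_nonneg_left ?_ hC3
  have hn : (0 : ℝ) ≤ n2 * C2 := mul_nonneg (Nat.cast_nonneg _) hC2
  have h5 : 0 ≤ n2 * C2 * B' := mul_nonneg hn hB'
  nlinarith

end Pool.Agent.HPP
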