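import Pool.Agent.Lib.HPP.A9a
import Pool.Agent.Lib.HPP.A9b

/-!
# Project HPP, A9 (M): the statement `T_p`
-/

open Finset

namespace Pool.Agent.HPP

/-- The case without pure directions: `J = I`, `δ = γ`, `E = 1`, `n = q`, `C = 1`. -/
theorem A9_zero (q : ℕ) : TP 0 q 1 q 1 := by
  intro I hI1 hI2
  refine ⟨I, hI1, hI2, fun G _ _ α γ => ⟨γ, fun N f hN hf => ?_, fun χ B B' hB hB' _ hγ k => ?_⟩⟩
  · simp only [List.ofFn_zero, List.nil_append, pow_one]
    exact le_rfl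
  · have h1 := hγ k
    have h2 : 0 ≤ B ^ 2 := sq_nonneg B
    linarith

/-- **The step.** `choose` the data for every `i'` and every `j` (the type `J1` does not depend on `i'`: in `TP` it is chosen before `α, γ`), `J = J1 × J2`,
`δ k x = δ2 x.1 k x.2`, `A9_ineq`, `A9_four`. The extras of the second application as functions of `i'`: `Fin.append γ (fun k i' => δ1 i' k j)`
(rewrite `Fin.append` at a point by `Fin.addCases` / `funext`). -/
theorem A9_step (p q E2 n2 E3 n3 : ℕ) (C2 C3 : ℝ) (hC2 : 0 ≤ C2) (hC3 : 0 ≤ C3) (h2 : TP p (q + 1) E2 n2 C2)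
    (h3 : TP p (q + n2) E3 n3 C3) : TP (p + 1) q (2 ^ (2 * (p + q) + 1) * E2 * E3) n3 (C3 * (1 + 2 * n2 * C2)) := by
  intro I hI1 hI2
  obtain ⟨J1, hJ1, hJ1', H1⟩ := h2 I
  obtain ⟨J2, hJ2, hJ2', H2⟩ := h3 I
  refine ⟨J1 × J2, inferInstance, inferInstance, fun G _ _ α γ => ?_⟩
  have K1 := fun i' : I => H1 G (fun l : Fin p => α l.castSucc)
    (fun (l : Fin (q + 1)) (i : I) => (Fin.cons ((α (Fin.last p) i').sub (α (Fin.last p) i)) (fun l => γ l i) :
      Fin (q + 1) → Dir G) l)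
  choose δ1 hδ1 hδ1' using K1
  have K2 := fun j : J1 => H2 G (fun l : Fin p => α l.castSucc)
    (fun (l : Fin (q + n2)) (i' : I) => (Fin.append (fun l => γ l i') (fun k => δ1 i' k j) : Fin (q + n2) → Dir G) l)
  choose δ2 hδ2 hδ2' using K2
  refine ⟨fun k x => δ2 x.1 k x.2, fun N f hN hf => ?_, fun χ B B' hB hB' hα hγ k => ?_⟩
  · exact A9_ineq p q E2 n2 E3 n3 N hN α γ δ1 δ2 (fun i' f hf => hδ1 i' N f hN hf) (fun j f hf => hδ2 j N f hN hf) f hf
  · exact A9_four p q n2 n3 C2 C3 hC2 hC3 α γ δ1 δ2 χ (fun i' B B' hB hB' ha hc k => hδ1' i' χ B B' hB hB' ha hc k)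
      (fun j B B' hB hB' ha hc k => hδ2' j χ B B' hB hB' ha hc k) B B' hB hB' hα hγ k

/-- **T_p for all `p`, `q`.** Induction on `p` (for all `q`). -/
theorem A9_all (p : ℕ) : ∀ q : ℕ, ∃ (E n : ℕ) (C : ℝ), 0 < E ∧ 0 ≤ C ∧ TP p q E n C := by
  induction p with
  | zero => exact fun q => ⟨1, q, 1, one_pos, zero_le_one, A9_zero q⟩
  | succ p ih =>
    intro q
    obtain ⟨E2, n2, C2, hE2, hC2, h2⟩ := ih (q + 1)
    obtain ⟨E3, n3, C3, hE3, hC3, h3⟩ := ih (q + n2)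
    exact ⟨2 ^ (2 * (p + q) + 1) * E2 * E3, n3, C3 * (1 + 2 * n2 * C2), by positivity, by positivity,
      A9_step p q E2 n2 E3 n3 C2 C3 hC2 hC3 h2 h3⟩

end Pool.Agent.HPP
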