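import Pool.Agent.Lib.HPP.A7
import Pool.Agent.Lib.HPP.A8

/-!
# Project HPP, A9a (M): the inequality in the step of `T_p`
-/

open Finset

namespace Pool.Agent.HPP

theorem a9a_ofFn {p : ℕ} {D : Type*} (u : Fin (p + 1) → D) :
    List.ofFn u = List.ofFn (fun l : Fin p => u l.castSucc) ++ [u (Fin.last p)] := by
  rw [List.ofFn_succ', List.concat_eq_append]

theorem a9a_perm1 {D : Type*} (A Γ : List D) (a : D) : (A ++ [a] ++ Γ).Perm (a :: (A ++ Γ)) := by
  rw [List.append_assoc, List.singleton_append]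
  exact List.perm_middle

theorem a9a_perm2 {D : Type*} (e : D) (A Γ A' Γ' : List D) :
    (e :: ((A ++ Γ) ++ (A' ++ Γ'))).Perm ((A' ++ Γ') ++ (A ++ (e :: Γ))) := by
  refine List.Perm.trans ?_ List.perm_append_comm
  rw [← List.cons_append]
  exact List.Perm.append_right _ List.perm_middle.symm

theorem a9a_step {N : ℝ} (hN : 0 < N) {I J : Type} [Fintype I] [Nonempty I] [Fintype J] (E : ℕ) (X : I → ℝ)
    (Y : I → J → ℝ) (hX : ∀ i, 0 ≤ X i) (h : ∀ i, (X i / N) ^ E ≤ (av fun j => Y i j) / N) :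
    (av X / N) ^ E ≤ (av fun j => av fun i => Y i j) / N := by
  have h1 : av X / N = av fun i => X i / N := (av_div N X).symm
  have h2 : (av fun i => X i / N) ^ E ≤ av fun i => (X i / N) ^ E :=
    av_pow E fun i => div_nonneg (hX i) hN.le
  have h3 : (av fun i => (X i / N) ^ E) ≤ av fun i => (av fun j => Y i j) / N := av_mono h
  have h4 : (av fun i => (av fun j => Y i j) / N) = (av fun j => av fun i => Y i j) / N := by
    rw [av_div, av_comm]
  rw [h1]
  exact h2.trans (h3.trans h4.le)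

/-- **The inequality in the step.** `A8_common` twice and `A7b` once. Data: for every `i'` a family
`δ1 i' : Fin n2 → J1 → Dir G` (result of `T_p` in the index `i` with the `q + 1` extras `(α_p(i')).sub (α_p(i))`, `γ(i)`), for every `j ∈ J1` a
family `δ2 j : Fin n3 → J2 → Dir G` (result of `T_p` in the index `i'` with the `q + n2` extras `γ(i')`, `δ1 i' k j`).
Proof. Write `A i = ofFn (α_l i, l < p)`, `Γ i = ofFn (γ_l i)`, `a i = α_p(i)` (`α (Fin.last p)`), `e i' i = (a i').sub (a i)`.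
`ofFn (α i) ++ Γ i` is a permutation of `a i :: (A i ++ Γ i)` (`List.ofFn_succ'`, `NN_perm`). `A7b` with `β i = A i ++ Γ i` (length `p + q`), exponent
`2 ^ (2 (p + q) + 1)`: average over `(i, i')` of `NN (e i' i :: ((A i ++ Γ i) ++ (A i' ++ Γ i')))`; by `NN_perm` it is
`NN ((A i' ++ Γ i') ++ (A i ++ ofFn (Fin.cons (e i' i) (γ i))))`. For fixed `i'`: `A8_common` with `h1 i'`: exponent `E2`, average over `j ∈ J1` of
`NN ((A i' ++ Γ i') ++ ofFn (δ1 i' · j))`, which is by `NN_perm` / append `NN (A i' ++ ofFn (Fin.append (γ i') (δ1 i' · j)))`. For fixed `j` `h2 j`: exponent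
`E3`. Between the steps `av_prod`, `av_comm`, `av_pow` (`(av X) ^ E ≤ av (X ^ E)`), everything is `≥ 0`. -/
theorem A9_ineq (p q E2 n2 E3 n3 : ℕ) {I J1 J2 : Type} [Fintype I] [Nonempty I] [Fintype J1] [Nonempty J1] [Fintype J2]
    [Nonempty J2] {G : Type} [AddCommGroup G] [Fintype G] (N : ℝ) (hN : 0 < N) (α : Fin (p + 1) → I → Dir G)
    (γ : Fin q → I → Dir G) (δ1 : I → Fin n2 → J1 → Dir G) (δ2 : J1 → Fin n3 → J2 → Dir G)
    (h1 : ∀ (i' : I) (f : G → ℂ), FN N f → ((av fun i => NN (List.ofFn (fun l : Fin p => α l.castSucc i) ++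
      List.ofFn (Fin.cons ((α (Fin.last p) i').sub (α (Fin.last p) i)) (fun l => γ l i) : Fin (q + 1) → Dir G)) f) / N) ^ E2 ≤
        (av fun j => NN (List.ofFn fun k => δ1 i' k j) f) / N)
    (h2 : ∀ (j : J1) (f : G → ℂ), FN N f → ((av fun i' => NN (List.ofFn (fun l : Fin p => α l.castSucc i') ++
      List.ofFn (Fin.append (fun l => γ l i') (fun k => δ1 i' k j) : Fin (q + n2) → Dir G)) f) / N) ^ E3 ≤
        (av fun j' => NN (List.ofFn fun k => δ2 j k j') f) / N)
    (f : G → ℂ) (hf : FN N f) :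
    ((av fun i => NN (List.ofFn (fun l => α l i) ++ List.ofFn (fun l => γ l i)) f) / N) ^ (2 ^ (2 * (p + q) + 1) * E2 * E3) ≤
      (av fun x : J1 × J2 => NN (List.ofFn fun k => δ2 x.1 k x.2) f) / N := by
  -- notation
  set A : I → List (Dir G) := fun i => List.ofFn (fun l : Fin p => α l.castSucc i) with hA
  set Γ : I → List (Dir G) := fun i => List.ofFn (fun l => γ l i) with hΓ
  have hlen : ∀ i, (A i ++ Γ i).length = p + q := by
    intro i
    rw [List.length_append, hA, hΓ]
    simp only [List.length_ofFn]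
  -- step 0
  have e0 : (av fun i => NN (List.ofFn (fun l => α l i) ++ List.ofFn (fun l => γ l i)) f) =
      av fun i => NN (α (Fin.last p) i :: (A i ++ Γ i)) f := by
    congr 1
    funext i
    rw [a9a_ofFn (fun l => α l i)]
    exact NN_perm (a9a_perm1 _ _ _) f
  -- step 1
  have s1 := A7b N hN (p + q) (fun i => α (Fin.last p) i) (fun i => A i ++ Γ i) hlen f hf
  -- step 2
  have e1 : (av fun x : I × I => NN ((α (Fin.last p) x.2).sub (α (Fin.last p) x.1) ::
      ((A x.1 ++ Γ x.1) ++ (A x.2 ++ Γ x.2))) f) = av fun i' => av fun i =>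
        NN ((A i' ++ Γ i') ++ (A i ++ List.ofFn (Fin.cons ((α (Fin.last p) i').sub (α (Fin.last p) i))
          (fun l => γ l i) : Fin (q + 1) → Dir G))) f := by
    rw [av_prod, av_comm]
    congr 1
    funext i'
    congr 1
    funext i
    rw [List.ofFn_succ (f := (Fin.cons ((α (Fin.last p) i').sub (α (Fin.last p) i))
          (fun l => γ l i) : Fin (q + 1) → Dir G))]
    simp only [Fin.cons_zero, Fin.cons_succ]
    exact NN_perm (a9a_perm2 _ _ _ _ _) f
  have s2 := a9a_step hN E2 (fun i' => av fun i =>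
        NN ((A i' ++ Γ i') ++ (A i ++ List.ofFn (Fin.cons ((α (Fin.last p) i').sub (α (Fin.last p) i))
          (fun l => γ l i) : Fin (q + 1) → Dir G))) f)
    (fun i' j => NN ((A i' ++ Γ i') ++ List.ofFn fun k => δ1 i' k j) f)
    (fun i' => av_nonneg fun i => NN_nonneg _ _)
    (fun i' => A8_common hN E2 (fun i => A i ++ List.ofFn (Fin.cons ((α (Fin.last p) i').sub (α (Fin.last p) i))
          (fun l => γ l i) : Fin (q + 1) → Dir G)) (fun j => List.ofFn fun k => δ1 i' k j) (h1 i')
      (A i' ++ Γ i') f hf)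
  -- step 3
  have e2 : ∀ j, (av fun i' => NN ((A i' ++ Γ i') ++ List.ofFn fun k => δ1 i' k j) f) =
      av fun i' => NN (List.ofFn (fun l : Fin p => α l.castSucc i') ++
      List.ofFn (Fin.append (fun l => γ l i') (fun k => δ1 i' k j) : Fin (q + n2) → Dir G)) f := by
    intro j
    congr 1
    funext i'
    rw [List.ofFn_fin_append, List.append_assoc]
  have s3 := a9a_step hN E3 (fun j => av fun i' => NN ((A i' ++ Γ i') ++ List.ofFn fun k => δ1 i' k j) f)
    (fun j j' => NN (List.ofFn fun k => δ2 j k j') f)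
    (fun j => av_nonneg fun i' => NN_nonneg _ _)
    (fun j => by
      rw [e2 j]
      exact h2 j f hf)
  have e3 : (av fun x : J1 × J2 => NN (List.ofFn fun k => δ2 x.1 k x.2) f) =
      av fun j' => av fun j => NN (List.ofFn fun k => δ2 j k j') f := by
    rw [av_prod, av_comm]
  -- together
  have p0 : 0 ≤ (av fun i => NN (α (Fin.last p) i :: (A i ++ Γ i)) f) / N :=
    div_nonneg (av_nonneg fun i => NN_nonneg _ _) hN.le
  rw [e0, e3, pow_mul, pow_mul]
  rw [e1] at s1
  refine le_trans (pow_le_pow_left₀ (pow_nonneg (pow_nonneg p0 _) _) ?_ E3) s3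
  exact le_trans (pow_le_pow_left₀ (pow_nonneg p0 _) s1 E2) s2

end Pool.Agent.HPP
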