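import Pool.Agent.Lib.HPP.BDefs

/-!
# Project HPP, B1 (M): one Cauchy-Schwarz step; averages over lists of parameters
-/

open Finset Polynomial

namespace Pool.Agent.HPP

theorem AL_zero (X : ℕ) (F : List ℤ → ℝ) : AL X 0 F = F [] := by
  unfold AL
  have : (fun v : Fin 0 → Iv X => F (List.ofFn fun i => ((v i : Iv X) : ℤ))) = fun _ => F [] := by
    funext v
    rw [List.ofFn_zero]
  rw [this, av_const]

/-- `Fin.consEquiv` / `Fin.insertNthEquiv`, `av_prod`, `av_equiv`, `List.ofFn_succ`. -/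
theorem AL_succ (X ρ : ℕ) (F : List ℤ → ℝ) :
    AL X (ρ + 1) F = av fun h : Iv X => AL X ρ fun l => F ((h : ℤ) :: l) := by
  have e1 : AL X (ρ + 1) F = av fun p : Iv X × (Fin ρ → Iv X) =>
      F (((p.1 : Iv X) : ℤ) :: List.ofFn fun i => ((p.2 i : Iv X) : ℤ)) := by
    unfold AL
    rw [← av_equiv (Fin.consEquiv fun _ : Fin (ρ + 1) => Iv X)]
    refine congrArg av (funext fun p => ?_)
    rw [List.ofFn_succ]
    rfl
  rw [e1, av_prod]
  rfl

/-- Induction on `ρ`. -/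
theorem AL_add (X ρ ρ' : ℕ) (F : List ℤ → ℝ) : AL X (ρ + ρ') F = AL X ρ fun l => AL X ρ' fun l' => F (l ++ l') := by
  induction ρ generalizing F with
  | zero =>
    rw [AL_zero, Nat.zero_add]
    rfl
  | succ ρ ih =>
    rw [show ρ + 1 + ρ' = ρ + ρ' + 1 by omega, AL_succ, AL_succ]
    exact congrArg av (funext fun h => ih _)

/-- Only lists of length `ρ` matter. -/
theorem AL_mono (X ρ : ℕ) {F H : List ℤ → ℝ} (h : ∀ l : List ℤ, l.length = ρ → F l ≤ H l) : AL X ρ F ≤ AL X ρ H := by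
  unfold AL
  exact av_mono fun v => h _ (List.length_ofFn)

theorem AL_congr (X ρ : ℕ) {F H : List ℤ → ℝ} (h : ∀ l : List ℤ, l.length = ρ → F l = H l) : AL X ρ F = AL X ρ H :=
  le_antisymm (AL_mono X ρ fun l hl => (h l hl).le) (AL_mono X ρ fun l hl => (h l hl).ge)

theorem AL_nonneg (X ρ : ℕ) {F : List ℤ → ℝ} (h : ∀ l : List ℤ, l.length = ρ → 0 ≤ F l) : 0 ≤ AL X ρ F := by
  unfold AL
  exact av_nonneg fun v => h _ (List.length_ofFn)

theorem AL_const (X ρ : ℕ) (c : ℝ) : (AL X ρ fun _ => c) = c := by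
  unfold AL
  exact av_const c

theorem AL_mul_left (X ρ : ℕ) (c : ℝ) (F : List ℤ → ℝ) : (AL X ρ fun l => c * F l) = c * AL X ρ F := by
  unfold AL
  exact av_mul_left c _

/-- `av_pow`. -/
theorem AL_pow (X ρ n : ℕ) {F : List ℤ → ℝ} (h : ∀ l, 0 ≤ F l) : (AL X ρ F) ^ n ≤ AL X ρ fun l => F l ^ n := by
  unfold AL
  exact av_pow n fun v => h _

theorem b1_shift (X : ℕ) (n : ℤ) (hn : n ∈ Ico (0 : ℤ) X) (G : ℤ → ℂ) (hG : ∀ n', n' ∉ Ico (0 : ℤ) X → G n' = 0) :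
    ∑ n' ∈ Ico (0 : ℤ) X, G n' = ∑ h : Iv X, G (n + (h : ℤ)) := by
  rw [Finset.sum_coe_sort (Icc (-(X : ℤ)) X) (fun h => G (n + h))]
  have h1 : ∑ h ∈ Icc (-(X : ℤ)) X, G (n + h) = ∑ n' ∈ Icc (n - X) (n + X), G n' := by
    refine Finset.sum_nbij' (fun h => n + h) (fun n' => n' - n) ?_ ?_ ?_ ?_ ?_
    · intro h hh
      rw [mem_Icc] at hh ⊢
      constructor <;> linarith [hh.1, hh.2]
    · intro h hh
      rw [mem_Icc] at hh ⊢
      constructor <;> linarith [hh.1, hh.2]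
    · intro h _
      ring
    · intro h _
      ring
    · intro h _
      rfl
  rw [h1]
  refine Finset.sum_subset ?_ fun n' _ h => hG n' h
  intro n' hn'
  rw [mem_Ico] at hn hn'
  rw [mem_Icc]
  constructor <;> linarith [hn.1, hn.2, hn'.1, hn'.2]

/-- **B1.** Proof. Put `m(n)` for the value of `P` at `n`. For fixed `n` replace `t` by `t - m(n)`:
`SS = ∑_t f(t) ∑_n A(t - m(n), n)`. `FN.cs`: `|SS|² ≤ N ∑_t |∑_n A(t - m(n), n)|² = N ∑_{n, n' ∈ [0, X)} ∑_t A(t - m(n), n) conj A(t - m(n'), n')`.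
Put `n' = n + h`, `|h| < X` (for `n'` outside `[0, X)` the term is zero, `Vn`), replace `t` by `t + m(n)`: the sum over `t, n` is
`SS X (EO h W A)` with `W(n) = -(m(n + h) - m(n))` (`taylor_eval`). Absolute values for every `h`: `|SS|² ≤ N ∑_{|h| < X} |SS_h|
≤ N (2 X + 1) av_{|h| ≤ X} |SS_h| ≤ 3 N X av_h |SS_h|`. -/
theorem B1_step (M : ℕ) [NeZero M] (X : ℕ) (N : ℝ) (hX : 0 < X) (hN : 0 < N) (f : ZMod M → ℂ) (hf : FN N f) (P : ℤ[X])
    (A : ZMod M → ℤ → ℂ) (hA : Vn X A) :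
    (‖SS X fun t n => A t n * f (t + ((P.eval n : ℤ) : ZMod M))‖ / (N * X)) ^ 2 ≤
      3 * av fun h : Iv X => ‖SS X (EO (h : ℤ) (-(taylor (h : ℤ) P - P)) A)‖ / (N * X) := by
  obtain ⟨m, hm⟩ : ∃ m : ℤ → ZMod M, m = fun n => ((P.eval n : ℤ) : ZMod M) := ⟨_, rfl⟩
  obtain ⟨W, hW⟩ : ∃ W : ZMod M → ℂ, W = fun t => ∑ n ∈ Ico (0 : ℤ) X, A (t - m n) n := ⟨_, rfl⟩
  obtain ⟨S, hS⟩ : ∃ S : Iv X → ℂ, S = fun h : Iv X => SS X (EO (h : ℤ) (-(taylor (h : ℤ) P - P)) A) := ⟨_, rfl⟩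
  have e1 : SS X (fun t n => A t n * f (t + ((P.eval n : ℤ) : ZMod M))) = ∑ t, f t * W t := by
    unfold SS
    rw [Finset.sum_comm]
    have : ∀ n : ℤ, ∑ t : ZMod M, A t n * f (t + ((P.eval n : ℤ) : ZMod M)) = ∑ t, f t * A (t - m n) n := by
      intro n
      rw [hm]
      refine Eq.trans ?_ (Equiv.sum_comp (Equiv.addRight ((P.eval n : ℤ) : ZMod M))
        (fun t => f t * A (t - ((P.eval n : ℤ) : ZMod M)) n))
      refine Finset.sum_congr rfl fun t _ => ?_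
      simp only [Equiv.coe_addRight, add_sub_cancel_right]
      rw [mul_comm]
    rw [Finset.sum_congr rfl fun n _ => this n, Finset.sum_comm, hW]
    refine Finset.sum_congr rfl fun t _ => ?_
    rw [Finset.mul_sum]
  have e2 : ((∑ t, ‖W t‖ ^ 2 : ℝ) : ℂ) = ∑ h, S h := by
    have h1 : ((∑ t, ‖W t‖ ^ 2 : ℝ) : ℂ) = ∑ t, ∑ n ∈ Ico (0 : ℤ) X, ∑ n' ∈ Ico (0 : ℤ) X,
        A (t - m n) n * (starRingEnd ℂ) (A (t - m n') n') := by
      rw [Complex.ofReal_sum]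
      refine Finset.sum_congr rfl fun t _ => ?_
      rw [Complex.ofReal_pow, ← Complex.mul_conj', hW, map_sum, Finset.sum_mul_sum]
    have h2 : ∀ n : ℤ, ∑ t : ZMod M, ∑ n' ∈ Ico (0 : ℤ) X, A (t - m n) n * (starRingEnd ℂ) (A (t - m n') n') =
        ∑ t : ZMod M, ∑ n' ∈ Ico (0 : ℤ) X, A t n * (starRingEnd ℂ) (A (t + (m n - m n')) n') := by
      intro n
      refine (Equiv.sum_comp (Equiv.addRight (m n)) (fun t => ∑ n' ∈ Ico (0 : ℤ) X,
        A (t - m n) n * (starRingEnd ℂ) (A (t - m n') n'))).symm.trans ?_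
      refine Finset.sum_congr rfl fun t _ => Finset.sum_congr rfl fun n' _ => ?_
      simp only [Equiv.coe_addRight, add_sub_cancel_right]
      rw [add_sub_assoc]
    have h3 : ∀ n ∈ Ico (0 : ℤ) X, ∀ t : ZMod M,
        ∑ n' ∈ Ico (0 : ℤ) X, A t n * (starRingEnd ℂ) (A (t + (m n - m n')) n') =
        ∑ h : Iv X, A t n * (starRingEnd ℂ) (A (t + (m n - m (n + (h : ℤ)))) (n + (h : ℤ))) := by
      intro n hn t
      refine b1_shift X n hn (fun n' => A t n * (starRingEnd ℂ) (A (t + (m n - m n')) n')) fun n' hn' => ?_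
      rw [hA _ n' hn', map_zero, mul_zero]
    rw [h1, Finset.sum_comm, hS]
    rw [Finset.sum_congr rfl fun n _ => h2 n]
    rw [Finset.sum_congr rfl fun n hn => Finset.sum_congr rfl fun t _ => h3 n hn t]
    unfold SS EO
    rw [Finset.sum_comm, Finset.sum_comm (s := (univ : Finset (Iv X)))]
    refine Finset.sum_congr rfl fun t _ => ?_
    rw [Finset.sum_comm]
    refine Finset.sum_congr rfl fun h _ => Finset.sum_congr rfl fun n _ => ?_
    have : m n - m (n + (h : ℤ)) = ((((-(taylor (h : ℤ) P - P)).eval n : ℤ)) : ZMod M) := by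
      rw [hm, eval_neg, eval_sub, taylor_eval]
      push_cast
      ring_nf
    rw [this]
  have e3 : ∑ t, ‖W t‖ ^ 2 ≤ 3 * X * av fun h => ‖S h‖ := by
    have h1 : (∑ t, ‖W t‖ ^ 2 : ℝ) ≤ ∑ h, ‖S h‖ := by
      have h0 : 0 ≤ (∑ t, ‖W t‖ ^ 2 : ℝ) := Finset.sum_nonneg fun t _ => sq_nonneg _
      calc (∑ t, ‖W t‖ ^ 2 : ℝ) = ‖((∑ t, ‖W t‖ ^ 2 : ℝ) : ℂ)‖ := by
            rw [Complex.norm_real, Real.norm_of_nonneg h0]
        _ = ‖∑ h, S h‖ := by rw [e2]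
        _ ≤ _ := norm_sum_le _ _
    refine h1.trans ?_
    unfold av
    have hc : (Fintype.card (Iv X) : ℝ) = 2 * X + 1 := by
      rw [Fintype.card_coe, Int.card_Icc]
      have : ((X : ℤ) + 1 - -(X : ℤ)).toNat = 2 * X + 1 := by omega
      rw [this]
      push_cast
      ring
    have hX1 : (1 : ℝ) ≤ X := by exact_mod_cast hX
    have hs : 0 ≤ ∑ h, ‖S h‖ := Finset.sum_nonneg fun h _ => norm_nonneg _
    rw [hc, mul_div_assoc', le_div_iff₀ (by linarith)]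
    nlinarith
  have e4 : ‖SS X (fun t n => A t n * f (t + ((P.eval n : ℤ) : ZMod M)))‖ ^ 2 ≤
      N * (3 * X * av fun h => ‖S h‖) := by
    rw [e1]
    exact (hf.cs W).trans (mul_le_mul_of_nonneg_left e3 hN.le)
  have hX0 : (0 : ℝ) < X := by exact_mod_cast hX
  have e5 : (av fun h : Iv X => ‖SS X (EO (h : ℤ) (-(taylor (h : ℤ) P - P)) A)‖ / (N * X)) =
      (av fun h => ‖S h‖) / (N * X) := by
    rw [hS, av_div]
  rw [e5, div_pow, div_le_iff₀ (by positivity)]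
  refine e4.trans (le_of_eq ?_)
  field_simp

end Pool.Agent.HPP
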