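import Pool.Agent.Lib.HPP.BDefs

/-!
# Project HPP, B2 (S/M): rules for polynomials and operators
-/

open Finset Polynomial

namespace Pool.Agent.HPP

theorem PD.add {d : ℕ} {r r' : ℤ} {R R' : ℤ[X]} (h : PD d r R) (h' : PD d r' R') : PD d (r + r') (R + R') := by
  refine ⟨(natDegree_add_le_of_le h.1 h'.1).trans (max_self d).le, ?_⟩
  rw [coeff_add, h.2, h'.2]

theorem PD.sub {d : ℕ} {r r' : ℤ} {R R' : ℤ[X]} (h : PD d r R) (h' : PD d r' R') : PD d (r - r') (R - R') := by
  refine ⟨(natDegree_sub_le_of_le h.1 h'.1).trans (max_self d).le, ?_⟩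
  rw [coeff_sub, h.2, h'.2]

theorem PD.neg {d : ℕ} {r : ℤ} {R : ℤ[X]} (h : PD d r R) : PD d (-r) (-R) := by
  refine ⟨?_, ?_⟩
  · rw [natDegree_neg]
    exact h.1
  · rw [coeff_neg, h.2]

theorem PD.up {d : ℕ} {r : ℤ} {R : ℤ[X]} (h : PD d r R) : PD (d + 1) 0 R := by
  refine ⟨h.1.trans (Nat.le_succ d), ?_⟩
  exact coeff_eq_zero_of_natDegree_lt (Nat.lt_succ_of_le h.1)

theorem PD.down {d : ℕ} {R : ℤ[X]} (h : PD (d + 1) 0 R) : PD d (R.coeff d) R := by
  refine ⟨?_, rfl⟩
  by_contra hcon
  have h1 : R.natDegree = d + 1 := by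
    have := h.1
    omega
  have h2 : R.leadingCoeff = 0 := by
    rw [leadingCoeff, h1]
    exact h.2
  rw [leadingCoeff_eq_zero] at h2
  rw [h2, natDegree_zero] at h1
  omega

/-- `taylor_eval`, `natDegree_taylor`, `taylor_coeff` (the coefficient of `x ^ d` of `R(x + h)` is that of `R` if `natDegree ≤ d`). -/
theorem PD.taylor {d : ℕ} {r : ℤ} {R : ℤ[X]} (h : PD d r R) (a : ℤ) : PD d r (taylor a R) := by
  refine ⟨?_, ?_⟩
  · rw [natDegree_taylor]
    exact h.1
  · have h1 : (hasseDeriv d R).natDegree ≤ 0 := by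
      refine (natDegree_hasseDeriv_le R d).trans ?_
      have := h.1
      omega
    rw [taylor_coeff, eq_C_of_natDegree_le_zero h1, eval_C, hasseDeriv_coeff]
    simp [h.2]

/-- The difference of `R(x + h)` and `R`: coefficient `(d + 1) h r` of `x ^ d`. -/
theorem PD.delta {d : ℕ} {r : ℤ} {R : ℤ[X]} (h : PD (d + 1) r R) (a : ℤ) :
    PD d (((d : ℤ) + 1) * a * r) (Polynomial.taylor a R - R) := by
  have h1 : PD (d + 1) 0 (Polynomial.taylor a R - R) := by
    have := (h.taylor a).sub h
    rwa [sub_self] at this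
  refine ⟨h1.down.1, ?_⟩
  have h2 : (hasseDeriv d R).natDegree < 2 := by
    have h3 := natDegree_hasseDeriv_le R d
    have h4 := h.1
    omega
  rw [coeff_sub, taylor_coeff, eval_eq_sum_range' h2, Finset.sum_range_succ, Finset.sum_range_one,
    hasseDeriv_coeff, hasseDeriv_coeff]
  have h5 : R.coeff (1 + d) = r := by
    rw [add_comm]
    exact h.2
  rw [h5]
  have h6 : (1 + d).choose d = d + 1 := by
    rw [add_comm 1 d, Nat.choose_succ_self_right]
  rw [h6, zero_add, Nat.choose_self]
  push_cast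
  ring

theorem PD.const {r : ℤ} {R : ℤ[X]} (h : PD 0 r R) (n : ℤ) : R.eval n = r := by
  rw [eq_C_of_natDegree_le_zero h.1, eval_C]
  exact h.2

/-- `PW (d + 1)` polynomials have degree `≤ d`, `PW 0` is zero: always `PD d 0`. -/
theorem PW.pd {d : ℕ} {h r : ℤ} {W : ℤ[X]} (hW : PW d h r W) : PD d 0 W := by
  cases d with
  | zero =>
    have hW0 : W = 0 := hW
    subst hW0
    exact ⟨by simp, by simp⟩
  | succ d => exact PD.up hW

variable {M : ℕ}

theorem EO_mul (h : ℤ) (W : ℤ[X]) (A B : ZMod M → ℤ → ℂ) :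
    EO h W (fun t n => A t n * B t n) = fun t n => EO h W A t n * EO h W B t n := by
  funext t n
  simp only [EO, map_mul]
  ring

theorem EL_mul (l : List (ℤ × ℤ[X])) (A B : ZMod M → ℤ → ℂ) :
    EL l (fun t n => A t n * B t n) = fun t n => EL l A t n * EL l B t n := by
  induction l generalizing A B with
  | nil => rfl
  | cons p l ih =>
    simp only [EL]
    rw [EO_mul, ih]

theorem EL_append (l l' : List (ℤ × ℤ[X])) (A : ZMod M → ℤ → ℂ) : EL (l ++ l') A = EL l' (EL l A) := by
  induction l generalizing A with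
  | nil => rfl
  | cons p l ih =>
    simp only [List.cons_append, EL]
    rw [ih]

/-- `EO` of the product of a family is the product of the family `XO` (`taylor_eval`, `List.prod_append`, `map_list_prod`, `push_cast`). -/
theorem EO_pr (h : ℤ) (W : ℤ[X]) (L : Fam M) : EO h W (pr L) = pr (XO h W L) := by
  funext t n
  simp only [EO, pr, XO, List.map_append, List.prod_append, List.map_map, map_list_prod]
  congr 1
  refine congrArg List.prod (List.map_congr_left fun p _ => ?_)
  simp only [Function.comp_apply, eval_add, taylor_eval]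
  congr 2
  push_cast
  rw [add_assoc]

theorem EL_pr (l : List (ℤ × ℤ[X])) (L : Fam M) : EL l (pr L) = pr (XL l L) := by
  induction l generalizing L with
  | nil => rfl
  | cons p l ih =>
    simp only [EL, XL]
    rw [EO_pr, ih]

theorem EO_vn {X : ℕ} (h : ℤ) (W : ℤ[X]) {A : ZMod M → ℤ → ℂ} (hA : Vn X A) : Vn X (EO h W A) := by
  intro t n hn
  simp only [EO]
  rw [hA t n hn, zero_mul]

theorem EL_vn {X : ℕ} (l : List (ℤ × ℤ[X])) {A : ZMod M → ℤ → ℂ} (hA : Vn X A) : Vn X (EL l A) := by
  induction l generalizing A with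
  | nil => exact hA
  | cons p l ih =>
    simp only [EL]
    exact ih (EO_vn p.1 p.2 hA)

theorem XL_length (l : List (ℤ × ℤ[X])) (L : Fam M) : (XL l L).length = L.length * 2 ^ l.length := by
  induction l generalizing L with
  | nil => simp [XL]
  | cons p l ih =>
    simp only [XL]
    rw [ih]
    simp only [XO, List.length_append, List.length_map, List.length_cons]
    ring

/-- A class stays a class (`PD.taylor`, `PD.add` with `PD d 0 W`, `FN.star`). -/
theorem XL_cls {N : ℝ} {d : ℕ} {r : ℤ} (l : List (ℤ × ℤ[X])) (hl : ∀ p ∈ l, PD d 0 p.2) (L : Fam M) (hL : Cls N d r L) :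
    Cls N d r (XL l L) := by
  induction l generalizing L with
  | nil => exact hL
  | cons p l ih =>
    simp only [XL]
    refine ih (fun q hq => hl q (List.mem_cons_of_mem _ hq)) _ ?_
    intro q hq
    simp only [XO, List.mem_append, List.mem_map] at hq
    rcases hq with hq | ⟨q', hq', rfl⟩
    · exact hL q hq
    · have h1 := hL q' hq'
      refine ⟨h1.1.star, ?_⟩
      have h2 := (hl p (List.mem_cons_self)).add (h1.2.taylor p.1)
      rwa [zero_add] at h2

/-- **Recentering.** `A~(t, n) = A(t - P(n), n)`; `EO h W~ A~ = (EO h W A)~` with `W = W~ - (P(x + h) - P)`. -/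
theorem EO_rec (h : ℤ) (W P : ℤ[X]) (A : ZMod M → ℤ → ℂ) :
    EO h W (fun t n => A (t - ((P.eval n : ℤ) : ZMod M)) n) =
      fun t n => EO h (W - (taylor h P - P)) A (t - ((P.eval n : ℤ) : ZMod M)) n := by
  funext t n
  simp only [EO]
  congr 3
  simp only [eval_sub, taylor_eval]
  push_cast
  ring

/-- The sum does not change. -/
theorem SS_rec [NeZero M] (X : ℕ) (P : ℤ[X]) (A : ZMod M → ℤ → ℂ) :
    SS X (fun t n => A (t - ((P.eval n : ℤ) : ZMod M)) n) = SS X A := by
  simp only [SS]
  rw [Finset.sum_comm, Finset.sum_comm (s := (Finset.univ : Finset (ZMod M))) (t := Ico (0 : ℤ) X) (f := fun t n => A t n)]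
  refine Finset.sum_congr rfl fun n _ => ?_
  exact Equiv.sum_comp (Equiv.subRight ((P.eval n : ℤ) : ZMod M)) (fun t => A t n)

end Pool.Agent.HPP
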