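import Pool.Agent.Lib.HPP.B1
import Pool.Agent.Lib.HPP.B2

/-!
# Project HPP, B3 (M): elimination of one class
-/

open Finset Polynomial

namespace Pool.Agent.HPP

/-- A product of functions of a nonempty family. -/
theorem b3_prod {M : ℕ} (N : ℝ) (L : Fam M) (hne : L ≠ []) (h : ∀ p ∈ L, FN N p.1) :
    FN N fun y : ZMod M => (L.map fun p => p.1 y).prod := by
  cases L with
  | nil => exact absurd rfl hne
  | cons p L =>
    have h1 : ∀ y : ZMod M, ‖(L.map fun p => p.1 y).prod‖ ≤ 1 := by
      intro y
      have h2 : ∀ q ∈ L, FN N q.1 := fun q hq => h q (List.mem_cons_of_mem _ hq)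
      clear h hne
      induction L with
      | nil => simp
      | cons q L ih =>
        rw [List.map_cons, List.prod_cons, norm_mul]
        have h3 := (h2 q (by simp)).le y
        have h4 := ih fun a ha => h2 a (List.mem_cons_of_mem _ ha)
        calc ‖q.1 y‖ * ‖(L.map fun p => p.1 y).prod‖ ≤ 1 * 1 := mul_le_mul h3 h4 (norm_nonneg _) zero_le_one
          _ = 1 := one_mul 1
    have h5 := (h p (by simp)).mul h1
    simpa using h5

theorem b3_mem {α β : Type*} {R : α → β → Prop} {a : List α} {b : List β} (h : List.Forall₂ R a b) :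
    ∀ x ∈ a, ∃ y, R x y := by
  induction h with
  | nil => intro x hx; simp at hx
  | cons h1 _ ih =>
    intro x hx
    rw [List.mem_cons] at hx
    rcases hx with rfl | hx
    · exact ⟨_, h1⟩
    · exact ih x hx

theorem b3_forall (d : ℕ) (r : ℤ) (P : ℤ[X]) (hP : PD (d + 1) r P) : ∀ (l : List ℤ) (v : List ℤ[X]), l.length = v.length →
    (∀ p ∈ l.zip v, PD d 0 p.2) →
    List.Forall₂ (fun h w => PW (d + 1) h r w) l (List.zipWith (fun h w => w - (taylor h P - P)) l v) := by
  intro l
  induction l with
  | nil => intro v _ _; exact List.Forall₂.nil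
  | cons h l ih =>
    intro v hv hp
    cases v with
    | nil => simp at hv
    | cons w v =>
      rw [List.zipWith_cons_cons]
      refine List.Forall₂.cons ?_ (ih v (by simpa using hv) fun p hp' => hp p (by rw [List.zip_cons_cons]; exact List.mem_cons_of_mem _ hp'))
      have h1 : PD d 0 w := hp (h, w) (by simp)
      have h2 := h1.sub (hP.delta h)
      rw [zero_sub] at h2
      exact h2

theorem b3_EL {M : ℕ} (P : ℤ[X]) : ∀ (l : List ℤ) (v : List ℤ[X]) (A : ZMod M → ℤ → ℂ),
    EL (l.zip v) (fun t n => A (t - ((P.eval n : ℤ) : ZMod M)) n) =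
      fun t n => EL (l.zip (List.zipWith (fun h w => w - (taylor h P - P)) l v)) A (t - ((P.eval n : ℤ) : ZMod M)) n := by
  intro l
  induction l with
  | nil => intro v A; rfl
  | cons h l ih =>
    intro v A
    cases v with
    | nil => rfl
    | cons w v =>
      rw [List.zipWith_cons_cons, List.zip_cons_cons, List.zip_cons_cons]
      show EL (l.zip v) (EO h w (fun t n => A (t - ((P.eval n : ℤ) : ZMod M)) n)) = _
      rw [EO_rec, ih v (EO h (w - (taylor h P - P)) A)]
      rfl

/-- An empty class: no step. -/
theorem B3_nil (d : ℕ) : KC d 0 0 := by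
  intro M _ X N hX hN r L hL hC A hA
  refine ⟨fun _ => [], fun l hl => ?_, ?_⟩
  · rw [List.length_eq_zero_iff] at hl
    subst hl
    exact List.Forall₂.nil
  · rw [List.length_eq_zero_iff] at hL
    subst hL
    rw [AL_zero]
    have h1 : (fun (t : ZMod M) (n : ℤ) => A t n * pr ([] : Fam M) t n) = A := by
      funext t n
      simp [pr]
    rw [h1]
    simp [EL]

/-- **Constants**: `s + 1` functions `f_j(t + r)`: their product is a function `F(t + r)`, `F = ∏ f_j ∈ FN N`; `B1_step` with the polynomial
`C r` (`taylor h (C r) = C r`, so the polynomial `-(..)` is `0`). One step. -/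
theorem B3_zero (s : ℕ) : KC 0 (s + 1) 1 := by
  intro M _ X N hX hN r L hL hC A hA
  have hne : L ≠ [] := by
    intro h
    rw [h] at hL
    simp at hL
  have hF := b3_prod N L hne fun p hp => (hC p hp).1
  have hpr : (fun (t : ZMod M) (n : ℤ) => A t n * pr L t n) =
      fun t n => A t n * (fun y : ZMod M => (L.map fun p => p.1 y).prod) (t + (((C r : ℤ[X]).eval n : ℤ) : ZMod M)) := by
    funext t n
    have h1 : pr L t n = (L.map fun p => p.1 (t + (((C r : ℤ[X]).eval n : ℤ) : ZMod M))).prod := by
      unfold pr
      congr 1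
      apply List.map_congr_left
      intro p hp
      rw [(hC p hp).2.const n, eval_C]
    rw [h1]
  have hstep := B1_step M X N hX hN (fun y : ZMod M => (L.map fun p => p.1 y).prod) hF (C r) A hA
  refine ⟨fun l => l.map fun _ => 0, fun l hl => ?_, ?_⟩
  · clear hl
    induction l with
    | nil => exact List.Forall₂.nil
    | cons h l ih => exact List.Forall₂.cons rfl ih
  · rw [AL_succ]
    simp only [AL_zero]
    rw [hpr]
    have h2 : ∀ h : Iv X, -(taylor (h : ℤ) (C r : ℤ[X]) - C r) = 0 := by
      intro h
      rw [taylor_C, sub_self, neg_zero]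
    simp only [h2] at hstep
    have h3 : (3 : ℝ) ^ (2 ^ 1 - 1) = 3 := by norm_num
    rw [h3]
    exact hstep

/-- **The step in the degree.** `L = p0 :: L'`, `P = p0.2`. `A~(t, n) = A(t - P(n), n)`; by `SS_rec` the sum is
`SS X (A~ * ∏_j f_j(t + (R_j - P)(n)))`. Every `R_j - P` is `PD (d + 1) 0`, hence `PD d (its coefficient)` (`PD.sub`, `PD.down`): classes with one
element each (`C = L.map fun p => ((p.2 - P).coeff d, [(p.1, p.2 - P)])`, sizes `replicate (s + 1) 1`). The hypothesis gives `W~`; put
`W l = zipWith (fun h w => w - (taylor h P - P)) l (W~ l)`: `PD d 0 w` (`PW.pd`) minus `PD d ((d+1) h r)` (`PD.delta`). `EO_rec` along the list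
(induction) and `SS_rec`. -/
theorem B3_succ (d s : ℕ) (lab : List ℕ) (h : KF d (List.replicate (s + 1) 1) lab) : KC (d + 1) (s + 1) lab.length := by
  intro M _ X N hX hN r L hL hC A hA
  cases L with
  | nil => simp at hL
  | cons p0 L' =>
    have hP : PD (d + 1) r p0.2 := (hC p0 (by simp)).2
    -- the recentered bystander
    have hpd : ∀ p ∈ p0 :: L', PD d ((p.2 - p0.2).coeff d) (p.2 - p0.2) := by
      intro p hp
      have h1 := PD.sub (hC p hp).2 hP
      rw [sub_self] at h1
      exact h1.down
    have hAn : Vn X fun t n => A (t - ((p0.2.eval n : ℤ) : ZMod M)) n := by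
      intro t n hn
      exact hA _ _ hn
    obtain ⟨W, hW1, hW2⟩ := h M X N hX hN
      ((p0 :: L').map fun p => ((p.2 - p0.2).coeff d, [(p.1, p.2 - p0.2)]))
      (by
        rw [List.map_map]
        have h1 : ((fun c : ℤ × Fam M => c.2.length) ∘ fun p : (ZMod M → ℂ) × ℤ[X] => ((p.2 - p0.2).coeff d, [(p.1, p.2 - p0.2)])) =
            fun _ => 1 := by
          funext p
          rfl
        rw [h1, List.map_const', hL])
      (by
        intro c hc
        rw [List.mem_map] at hc
        obtain ⟨p, hp, rfl⟩ := hc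
        intro q hq
        simp only [List.mem_singleton] at hq
        subst hq
        exact ⟨(hC p hp).1, hpd p hp⟩)
      (fun t n => A (t - ((p0.2.eval n : ℤ) : ZMod M)) n) hAn
    refine ⟨fun l => List.zipWith (fun h w => w - (taylor h p0.2 - p0.2)) l (W l), fun l hl => ?_, ?_⟩
    · obtain ⟨h1, h2⟩ := hW1 l hl
      refine b3_forall d r p0.2 hP l (W l) (by rw [hl, h1]) fun p hp => ?_
      obtain ⟨k, hk⟩ := b3_mem h2 p hp
      exact hk.pd
    · have h1 : SS X (fun t n => A t n * pr (p0 :: L') t n) = SS X (fun t n => A (t - ((p0.2.eval n : ℤ) : ZMod M)) n *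
          (((p0 :: L').map fun p => ((p.2 - p0.2).coeff d, [(p.1, p.2 - p0.2)])).map fun c => pr c.2 t n).prod) := by
        rw [← SS_rec X p0.2 (fun t n => A t n * pr (p0 :: L') t n)]
        congr 1
        funext t n
        congr 1
        rw [List.map_map]
        unfold pr
        congr 1
        apply List.map_congr_left
        intro p _
        have h3 : t - ((p0.2.eval n : ℤ) : ZMod M) + ((p.2.eval n : ℤ) : ZMod M) = t + (((p.2 - p0.2).eval n : ℤ) : ZMod M) := by
          rw [eval_sub]
          push_cast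
          ring
        rw [h3]
        simp
      rw [h1]
      refine hW2.trans (le_of_eq ?_)
      congr 1
      apply AL_congr
      intro l _
      rw [b3_EL p0.2 l (W l) A, SS_rec]

end Pool.Agent.HPP
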