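import Pool.Agent.Lib.HPP.B1
import Pool.Agent.Lib.HPP.B2
import Pool.Agent.Lib.HPP.B3

/-!
# Project HPP, B4 (M/L): elimination of several classes
-/

open Finset Polynomial

namespace Pool.Agent.HPP

/-- No class. -/
theorem B4_nil (d : ℕ) : KF d [] [] := by
  intro M _ X N hX hN C hC hcls A hA
  have hC0 : C = [] := List.map_eq_nil_iff.1 hC
  subst hC0
  refine ⟨fun _ => [], ?_, ?_⟩
  · intro l hl
    have hl0 : l = [] := List.length_eq_zero_iff.1 hl
    subst hl0
    exact ⟨rfl, List.Forall₂.nil⟩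
  · simp only [List.length_nil, AL_zero, List.zip_nil_right, List.map_nil, List.prod_nil, mul_one, EL, pow_zero, pow_one, tsub_self,
      one_mul]
    exact le_refl _

/-- The operators on a bystander times several families. -/
theorem b4_EL {M : ℕ} (l : List (ℤ × ℤ[X])) (A : ZMod M → ℤ → ℂ) : ∀ C : List (ℤ × Fam M),
    EL l (fun t n => A t n * (C.map fun c => pr c.2 t n).prod) =
      fun t n => EL l A t n * ((C.map fun c => ((c.1, XL l c.2) : ℤ × Fam M)).map fun c => pr c.2 t n).prod
  | [] => by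
    simp only [List.map_nil, List.prod_nil, mul_one]
  | c :: C => by
    have h : (fun t n => A t n * ((c :: C).map fun c => pr c.2 t n).prod) =
        fun t n => (A t n * (C.map fun c => pr c.2 t n).prod) * pr c.2 t n := by
      funext t n
      rw [List.map_cons, List.prod_cons]
      ring
    rw [h, EL_mul l (fun t n => A t n * (C.map fun c => pr c.2 t n).prod) (pr c.2), b4_EL l A C, EL_pr]
    funext t n
    simp only [List.map_cons, List.prod_cons]
    ring

theorem b4_rep {α β : Type*} {R : α → β → Prop} {S : α × β → ℕ → Prop} {l : List α} {w : List β} (h : List.Forall₂ R l w)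
    (hRS : ∀ a b, R a b → S (a, b) 0) : List.Forall₂ S (l.zip w) (List.replicate l.length 0) := by
  induction h with
  | nil => exact List.Forall₂.nil
  | cons h1 _ ih =>
    rw [List.zip_cons_cons, List.length_cons, List.replicate_succ]
    exact List.Forall₂.cons (hRS _ _ h1) ih

theorem b4_zip {d : ℕ} {r : ℤ} {l : List ℤ} {w : List ℤ[X]} (h : List.Forall₂ (fun h w => PW d h r w) l w) :
    ∀ p ∈ l.zip w, PD d 0 p.2 := by
  induction h with
  | nil => intro p hp; exact absurd hp (List.not_mem_nil)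
  | cons h1 _ ih =>
    intro p hp
    rw [List.zip_cons_cons, List.mem_cons] at hp
    rcases hp with rfl | hp
    · exact PW.pd h1
    · exact ih p hp

theorem b4_exp (a b : ℕ) : (2 ^ a - 1) * 2 ^ b + (2 ^ b - 1) = 2 ^ (a + b) - 1 := by
  have h1 : 1 ≤ 2 ^ a := Nat.one_le_two_pow
  have h2 : 1 ≤ 2 ^ b := Nat.one_le_two_pow
  rw [pow_add, Nat.sub_mul, one_mul]
  have h3 : 2 ^ b ≤ 2 ^ a * 2 ^ b := Nat.le_mul_of_pos_left _ (by positivity)
  omega

/-- **One more class.** `C = (r, L) :: C'`. `KC` for `L` with the bystander `A' = A * ∏_{c ∈ C'} pr c.2` (`Vn`): `ρ` steps with polynomials `W1 l1`,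
all `PW d h r`. `EL (l1.zip (W1 l1)) A' = EL .. A * ∏ pr (XL .. c.2)` (`EL_mul`, `EL_pr`, induction on the list `C'`), the classes
`(c.1, XL .. c.2)` have the sizes `(c.2.length) * 2 ^ ρ` (`XL_length`) and are classes (`XL_cls`, `PW.pd`). For every `l1` of length `ρ` `KF` for
them with the bystander `EL (l1.zip (W1 l1)) A` gives `W2 l1` (`choose`). `W l = W1 (l.take ρ) ++ W2 (l.take ρ) (l.drop ρ)`,
labels `replicate ρ 0 ++ lab.map (· + 1)`; `List.zip_append`, `EL_append`, `AL_add`, `AL_congr`. Exponents: with `x = ‖SS‖ / (N X)`, `m = 2 ^ lab.length`: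
`x ^ (2 ^ ρ m) ≤ (3 ^ (2 ^ ρ - 1) AL_1 y_l) ^ m ≤ 3 ^ ((2 ^ ρ - 1) m) AL_1 (y_l ^ m) ≤ 3 ^ ((2 ^ ρ - 1) m + m - 1) AL ..` (`AL_pow`). -/
theorem B4_cons (d s ρ : ℕ) (sz lab : List ℕ) (h1 : KC d s ρ) (h2 : KF d (sz.map fun x => x * 2 ^ ρ) lab) :
    KF d (s :: sz) (List.replicate ρ 0 ++ lab.map (· + 1)) := by
  intro M _ X N hX hN C hC hcls A hA
  cases C with
  | nil => exact absurd hC (by simp)
  | cons c0 C =>
  rw [List.map_cons, List.cons.injEq] at hC
  obtain ⟨hs, hsz⟩ := hC
  have hNX : (0 : ℝ) < N * X := mul_pos hN (Nat.cast_pos.2 hX)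
  have hc0 : Cls N d c0.1 c0.2 := hcls c0 List.mem_cons_self
  have hcC : ∀ c ∈ C, Cls N d c.1 c.2 := fun c hc => hcls c (List.mem_cons_of_mem _ hc)
  have hA' : Vn X (fun t n => A t n * (C.map fun c => pr c.2 t n).prod) := by
    intro t n hn
    show A t n * _ = 0
    rw [hA t n hn, zero_mul]
  obtain ⟨W1, hW1, hin1⟩ := h1 M X N hX hN c0.1 c0.2 hs hc0 _ hA'
  have key : ∀ l1 : List ℤ, ∃ W2 : List ℤ → List ℤ[X], l1.length = ρ →
      (∀ l : List ℤ, l.length = lab.length → (W2 l).length = lab.length ∧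
        List.Forall₂ (fun (p : ℤ × ℤ[X]) (k : ℕ) => PW d p.1 ((C.map Prod.fst).getD k 0) p.2) (l.zip (W2 l)) lab) ∧
      (‖SS X (EL (l1.zip (W1 l1)) fun t n => A t n * (C.map fun c => pr c.2 t n).prod)‖ / (N * X)) ^ (2 ^ lab.length) ≤
        3 ^ (2 ^ lab.length - 1) * AL X lab.length fun l => ‖SS X (EL (l.zip (W2 l)) (EL (l1.zip (W1 l1)) A))‖ / (N * X) := by
    intro l1
    by_cases hl1 : l1.length = ρ
    · have hf := hW1 l1 hl1
      have hlen : (l1.zip (W1 l1)).length = ρ := by
        rw [List.length_zip, ← hf.length_eq, min_self, hl1]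
      obtain ⟨W2, hW2, hin2⟩ := h2 M X N hX hN (C.map fun c => ((c.1, XL (l1.zip (W1 l1)) c.2) : ℤ × Fam M))
        (by
          rw [List.map_map, ← hsz, List.map_map]
          refine List.map_congr_left fun c _ => ?_
          show (XL (l1.zip (W1 l1)) c.2).length = c.2.length * 2 ^ ρ
          rw [XL_length, hlen])
        (by
          intro c hc
          obtain ⟨c', hc', rfl⟩ := List.mem_map.1 hc
          exact XL_cls _ (b4_zip hf) _ (hcC c' hc'))
        (EL (l1.zip (W1 l1)) A) (EL_vn _ hA)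
      refine ⟨W2, fun _ => ⟨?_, ?_⟩⟩
      · intro l hl
        have h := hW2 l hl
        rw [List.map_map] at h
        exact h
      · rw [b4_EL]
        exact hin2
    · exact ⟨fun _ => [], fun h => absurd h hl1⟩
  choose W2 hW2 using key
  refine ⟨fun l => W1 (l.take ρ) ++ W2 (l.take ρ) (l.drop ρ), ?_, ?_⟩
  · intro l hl
    have hl' : l.length = ρ + lab.length := by
      rw [hl, List.length_append, List.length_replicate, List.length_map]
    have ht : (l.take ρ).length = ρ := by
      rw [List.length_take, hl']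
      exact min_eq_left (Nat.le_add_right _ _)
    have hd : (l.drop ρ).length = lab.length := by
      rw [List.length_drop, hl']
      exact Nat.add_sub_cancel_left _ _
    have hf := hW1 _ ht
    obtain ⟨hl2, hf2⟩ := (hW2 _ ht).1 _ hd
    refine ⟨?_, ?_⟩
    · show (W1 (l.take ρ) ++ W2 (l.take ρ) (l.drop ρ)).length = _
      rw [List.length_append, hl2, ← hf.length_eq, ht, List.length_append, List.length_replicate, List.length_map]
    · show List.Forall₂ _ (l.zip (W1 (l.take ρ) ++ W2 (l.take ρ) (l.drop ρ))) _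
      have hz : l.zip (W1 (l.take ρ) ++ W2 (l.take ρ) (l.drop ρ)) =
          (l.take ρ).zip (W1 (l.take ρ)) ++ (l.drop ρ).zip (W2 (l.take ρ) (l.drop ρ)) := by
        rw [← List.zip_append hf.length_eq, List.take_append_drop]
      rw [hz]
      refine List.rel_append ?_ ?_
      · have h := b4_rep (S := fun (p : ℤ × ℤ[X]) (k : ℕ) => PW d p.1 (((c0 :: C).map Prod.fst).getD k 0) p.2) hf (fun a b hab => hab)
        rw [ht] at h
        exact h
      · rw [List.forall₂_map_right_iff]
        exact hf2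
  · have hfun : (fun t n => A t n * ((c0 :: C).map fun c => pr c.2 t n).prod) =
        fun t n => (A t n * (C.map fun c => pr c.2 t n).prod) * pr c0.2 t n := by
      funext t n
      rw [List.map_cons, List.prod_cons]
      ring
    rw [hfun]
    have hlen : (List.replicate ρ 0 ++ lab.map (· + 1)).length = ρ + lab.length := by
      rw [List.length_append, List.length_replicate, List.length_map]
    rw [hlen, AL_add, pow_add, pow_mul]
    have hy : ∀ l1 : List ℤ, (0 : ℝ) ≤
        ‖SS X (EL (l1.zip (W1 l1)) fun t n => A t n * (C.map fun c => pr c.2 t n).prod)‖ / (N * X) := fun l1 => by positivity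
    have hstep : (AL X ρ fun l1 => (‖SS X (EL (l1.zip (W1 l1)) fun t n => A t n * (C.map fun c => pr c.2 t n).prod)‖ / (N * X)) ^
        (2 ^ lab.length)) ≤ 3 ^ (2 ^ lab.length - 1) * AL X ρ fun l1 => AL X lab.length fun l2 =>
          ‖SS X (EL ((l1 ++ l2).zip (W1 ((l1 ++ l2).take ρ) ++ W2 ((l1 ++ l2).take ρ) ((l1 ++ l2).drop ρ))) A)‖ / (N * X) := by
      rw [← AL_mul_left]
      refine AL_mono X ρ fun l1 hl1 => ?_
      refine ((hW2 l1 hl1).2).trans (le_of_eq ?_)
      congr 1
      refine AL_congr X lab.length fun l2 hl2 => ?_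
      have e1 : (l1 ++ l2).take ρ = l1 := by rw [← hl1]; exact List.take_left
      have e2 : (l1 ++ l2).drop ρ = l2 := by rw [← hl1]; exact List.drop_left
      rw [e1, e2, List.zip_append (hW1 l1 hl1).length_eq, EL_append]
    calc _ ≤ (3 ^ (2 ^ ρ - 1) * AL X ρ fun l => ‖SS X (EL (l.zip (W1 l)) fun t n => A t n * (C.map fun c => pr c.2 t n).prod)‖ / (N * X)) ^
          (2 ^ lab.length) := pow_le_pow_left₀ (by positivity) hin1 _
      _ = 3 ^ ((2 ^ ρ - 1) * 2 ^ lab.length) * (AL X ρ fun l => ‖SS X (EL (l.zip (W1 l))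
          fun t n => A t n * (C.map fun c => pr c.2 t n).prod)‖ / (N * X)) ^ (2 ^ lab.length) := by rw [mul_pow, ← pow_mul]
      _ ≤ 3 ^ ((2 ^ ρ - 1) * 2 ^ lab.length) * (3 ^ (2 ^ lab.length - 1) * AL X ρ fun l1 => AL X lab.length fun l2 =>
          ‖SS X (EL ((l1 ++ l2).zip (W1 ((l1 ++ l2).take ρ) ++ W2 ((l1 ++ l2).take ρ) ((l1 ++ l2).drop ρ))) A)‖ / (N * X)) := by
        refine mul_le_mul_of_nonneg_left ?_ (by positivity)
        exact (AL_pow X ρ _ hy).trans hstep
      _ = _ := by
        rw [← mul_assoc, ← pow_add, b4_exp]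
        rw [← pow_add]

/-- From one class to several classes. -/
theorem b4_KF (d : ℕ) (h : ∀ s : ℕ, ∃ ρ : ℕ, KC d s ρ) : ∀ (n : ℕ) (sz : List ℕ), sz.length = n →
    ∃ lab : List ℕ, (∀ k ∈ lab, k < sz.length) ∧ KF d sz lab := by
  intro n
  induction n with
  | zero =>
    intro sz hsz
    have h0 : sz = [] := List.length_eq_zero_iff.1 hsz
    subst h0
    exact ⟨[], fun k hk => absurd hk List.not_mem_nil, B4_nil d⟩
  | succ n ih =>
    intro sz hsz
    cases sz with
    | nil => exact absurd hsz (by simp)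
    | cons s sz =>
      obtain ⟨ρ, hρ⟩ := h s
      obtain ⟨lab, hlab, hKF⟩ := ih (sz.map fun x => x * 2 ^ ρ) (by
        rw [List.length_map]
        rw [List.length_cons] at hsz
        omega)
      refine ⟨List.replicate ρ 0 ++ lab.map (· + 1), ?_, B4_cons d s ρ sz lab hρ hKF⟩
      intro k hk
      rw [List.length_cons]
      rcases List.mem_append.1 hk with hk | hk
      · rw [List.eq_of_mem_replicate hk]
        exact Nat.succ_pos _
      · obtain ⟨k', hk', rfl⟩ := List.mem_map.1 hk
        have h3 := hlab k' hk'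
        rw [List.length_map] at h3
        exact Nat.succ_lt_succ h3

/-- **Everything can be eliminated.** Induction on `d`. `KC 0`: `B3_nil`, `B3_zero`. `KF d` from `KC d` (all sizes): induction on the list of
the sizes (for all lists of the same length; `B4_nil`, `B4_cons`; the labels stay below the length). `KC (d + 1)` from `KF d`: `B3_nil`, `B3_succ`. -/
theorem B4_all (d : ℕ) : (∀ s : ℕ, ∃ ρ : ℕ, KC d s ρ) ∧
    ∀ sz : List ℕ, ∃ lab : List ℕ, (∀ k ∈ lab, k < sz.length) ∧ KF d sz lab := by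
  induction d with
  | zero =>
    have h : ∀ s : ℕ, ∃ ρ : ℕ, KC 0 s ρ := by
      intro s
      cases s with
      | zero => exact ⟨0, B3_nil 0⟩
      | succ s => exact ⟨1, B3_zero s⟩
    exact ⟨h, fun sz => b4_KF 0 h _ sz rfl⟩
  | succ d ih =>
    have h : ∀ s : ℕ, ∃ ρ : ℕ, KC (d + 1) s ρ := by
      intro s
      cases s with
      | zero => exact ⟨0, B3_nil (d + 1)⟩
      | succ s =>
        obtain ⟨lab, _, hKF⟩ := ih.2 (List.replicate (s + 1) 1)
        exact ⟨lab.length, B3_succ d s lab hKF⟩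
    exact ⟨h, fun sz => b4_KF (d + 1) h _ sz rfl⟩

end Pool.Agent.HPP
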