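import Pool.Agent.Lib.HPP.B5a
import Pool.Agent.Lib.HPP.B4

/-!
# Project HPP, B5 (M): the family of the copies of the target
-/

open Finset Polynomial

namespace Pool.Agent.HPP

theorem b5_first {M : ℕ} (ops : List (ℤ × ℤ[X])) : ∀ (p : (ZMod M → ℂ) × ℤ[X]) (L : Fam M), ∃ T : Fam M, XL ops (p :: L) = p :: T := by
  induction ops with
  | nil => intro p L; exact ⟨L, rfl⟩
  | cons o ops ih =>
    intro p L
    exact ih p _

theorem b5_ws (d : ℕ) (R : List ℤ) (l : List ℤ) : ∀ (W : List ℤ[X]) (lab : List ℕ),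
    List.Forall₂ (fun (p : ℤ × ℤ[X]) (k : ℕ) => PW (d + 1) p.1 (R.getD k 0) p.2) (l.zip W) lab →
    List.Forall₂ (fun (p : ℤ × ℤ[X]) (w : ℤ) => PD d w p.2) (l.zip W)
      (List.zipWith (fun (h : ℤ) (k : ℕ) => -(((d : ℤ) + 1) * h * R.getD k 0)) l lab) := by
  induction l with
  | nil =>
    intro W lab _
    simp
  | cons a l ih =>
    intro W lab h
    cases W with
    | nil =>
      cases lab with
      | nil => simp
      | cons k lab => simp at h
    | cons w W =>
      cases lab with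
      | nil => simp at h
      | cons k lab =>
        rw [List.zip_cons_cons] at h ⊢
        rw [List.forall₂_cons] at h
        rw [List.zipWith_cons_cons, List.forall₂_cons]
        exact ⟨h.1, ih W lab h.2⟩

theorem b5_rn (d q : ℕ) (lab : List ℕ) (r : Fin q → ℤ) (l : List ℤ) (hl : l.length = lab.length) (j : ℕ) :
    (∑ i ∈ range (List.zipWith (fun (h : ℤ) (k : ℕ) => -(((d : ℤ) + 1) * h * (List.ofFn r).getD k 0)) l lab).length,
      if j.testBit i then (List.zipWith (fun (h : ℤ) (k : ℕ) => -(((d : ℤ) + 1) * h * (List.ofFn r).getD k 0)) l lab).getD i 0 else 0) =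
    rn d lab r l j := by
  have hlen : (List.zipWith (fun (h : ℤ) (k : ℕ) => -(((d : ℤ) + 1) * h * (List.ofFn r).getD k 0)) l lab).length = lab.length := by
    rw [List.length_zipWith, hl, min_self]
  rw [rn, hlen, mul_sum, ← sum_neg_distrib]
  refine sum_congr rfl fun i hi => ?_
  rw [mem_range] at hi
  split_ifs
  · rw [List.getD_eq_getElem _ _ (by rw [hlen]; exact hi), List.getElem_zipWith, List.getD_eq_getElem l _ (by rw [hl]; exact hi),
      List.getD_eq_getElem lab _ hi]
    ring
  · ring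

/-- **B5b.** The family of the copies of `f0`: the first element is `(f0, 0)`, the others are `2 ^ ρ - 1` functions in `FN N` with coefficients
`rn d lab r l (j + 1)`. Proof. `B5_coef` with `L = [(f0, 0)]`, `m = 0`, `u = 0`, `ws = zipWith (fun h k => -((d+1) * h * r_k)) l lab`; the first element of
`XL ops L` is the first one of `L` (induction). -/
theorem B5_fam {M : ℕ} (N : ℝ) (d q : ℕ) (lab : List ℕ) (r : Fin q → ℤ) (l : List ℤ) (W : List ℤ[X])
    (hl : l.length = lab.length) (hW : W.length = lab.length)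
    (h : List.Forall₂ (fun (p : ℤ × ℤ[X]) (k : ℕ) => PW (d + 1) p.1 ((List.ofFn r).getD k 0) p.2) (l.zip W) lab)
    (f0 : ZMod M → ℂ) (hf : FN N f0) :
    ∃ (f : Fin (2 ^ lab.length - 1) → ZMod M → ℂ) (V : Fin (2 ^ lab.length - 1) → ℤ[X]),
      (∀ j, FN N (f j) ∧ PD d (rn d lab r l (j + 1)) (V j)) ∧
      ∀ t n, EL (l.zip W) (pr [(f0, (0 : ℤ[X]))]) t n = f0 t * ∏ j, f j (t + (((V j).eval n : ℤ) : ZMod M)) := by
  obtain ⟨T, hT⟩ := b5_first (l.zip W) (f0, (0 : ℤ[X])) []
  have hlen := XL_length (l.zip W) [(f0, (0 : ℤ[X]))]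
  have hzl : (l.zip W).length = lab.length := by rw [List.length_zip, hl, hW, min_self]
  rw [hT, hzl, List.length_cons, List.length_singleton, one_mul] at hlen
  have hTl : T.length = 2 ^ lab.length - 1 := by omega
  have hco := B5_coef N d (l.zip W) _ [(f0, (0 : ℤ[X]))] 0 (fun _ => 0) (b5_ws d (List.ofFn r) l W lab h) (by simp)
    (by
      intro j hj
      have hj0 : j = 0 := by simpa using hj
      subst hj0
      refine ⟨hf, ?_⟩
      simp [PD])
  rw [← hTl]
  refine ⟨fun j => (T[j.1]).1, fun j => (T[j.1]).2, fun j => ?_, fun t n => ?_⟩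
  · have h1 := hco (j.1 + 1) (by rw [hT, List.length_cons]; omega)
    simp only [hT, List.getElem_cons_succ, zero_add] at h1
    rw [b5_rn d q lab r l hl] at h1
    exact h1
  · rw [EL_pr, hT]
    simp only [pr, List.map_cons, List.prod_cons, eval_zero, Int.cast_zero, add_zero]
    rw [← Fin.prod_univ_fun_getElem]

theorem b5_step {M : ℕ} (h : ℤ) (W : ℤ[X]) (a b : ℤ) :
    EO (M := M) h W (fun _ n => if n ∈ Ico a b then 1 else 0) =
      fun _ n => if n ∈ Ico (max a (a - h)) (min b (b - h)) then 1 else 0 := by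
  funext t n
  simp only [EO, mem_Ico]
  by_cases h1 : a ≤ n ∧ n < b
  · by_cases h2 : a ≤ n + h ∧ n + h < b
    · rw [if_pos h1, if_pos h2, if_pos ⟨max_le h1.1 (by linarith [h2.1]), lt_min h1.2 (by linarith [h2.2])⟩]
      simp
    · rw [if_pos h1, if_neg h2, if_neg]
      · simp
      · rintro ⟨h3, h4⟩
        rw [max_le_iff] at h3
        rw [lt_min_iff] at h4
        exact h2 ⟨by linarith [h3.2], by linarith [h4.2]⟩
  · rw [if_neg h1, zero_mul, if_neg]
    rintro ⟨h3, h4⟩
    rw [max_le_iff] at h3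
    rw [lt_min_iff] at h4
    exact h1 ⟨h3.1, h4.1⟩

/-- **B5c.** The cutoff: products of indicators of intervals. `EL ops` of the indicator of `[a, b)` (as a function of `n` only) is the
indicator of an interval `[a', b')` with `a ≤ a'`, `b' ≤ b`. Induction on `ops` (one operator: `[max a (a - h), min b (b - h))`). -/
theorem B5_cut {M : ℕ} (ops : List (ℤ × ℤ[X])) : ∀ a b : ℤ, ∃ a' b' : ℤ, a ≤ a' ∧ b' ≤ b ∧
    ∀ (t : ZMod M) (n : ℤ), EL ops (fun _ n => if n ∈ Ico a b then 1 else 0) t n = if n ∈ Ico a' b' then 1 else 0 := by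
  induction ops with
  | nil => intro a b; exact ⟨a, b, le_rfl, le_rfl, fun t n => rfl⟩
  | cons p ops ih =>
    intro a b
    obtain ⟨a', b', ha, hb, hh⟩ := ih (max a (a - p.1)) (min b (b - p.1))
    refine ⟨a', b', le_trans (le_max_left _ _) ha, le_trans hb (min_le_left _ _), fun t n => ?_⟩
    rw [← hh t n, EL, b5_step]

end Pool.Agent.HPP
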