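import Pool.Agent.Lib.HPP.B2

/-!
# Project HPP, B5a (M): coefficients in the extended family
-/

open Finset Polynomial

namespace Pool.Agent.HPP

private theorem b5a_step {M : ℕ} (N : ℝ) (d : ℕ) (h : ℤ) (W : ℤ[X]) (w : ℤ) (hW : PD d w W) (L : Fam M) (m : ℕ) (u : ℕ → ℤ)
    (hL : L.length = 2 ^ m) (H : ∀ (j : ℕ) (hj : j < L.length), FN N (L[j]).1 ∧ PD d (u j) (L[j]).2) :
    ∀ (j : ℕ) (hj : j < (XO h W L).length), FN N ((XO h W L)[j]).1 ∧
      PD d (u (j % 2 ^ m) + if j.testBit m then w else 0) ((XO h W L)[j]).2 := by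
  intro j hj
  by_cases hjm : j < L.length
  · have e : (XO h W L)[j] = L[j] := List.getElem_append_left hjm
    have hj2 : j < 2 ^ m := by rw [← hL]; exact hjm
    rw [e, Nat.mod_eq_of_lt hj2, Nat.testBit_lt_two_pow hj2, if_neg (by simp), add_zero]
    exact H j hjm
  · have hjm' : L.length ≤ j := not_lt.mp hjm
    have hlen : j - L.length < L.length := by
      have h1 : (XO h W L).length = L.length + L.length := by
        unfold XO
        rw [List.length_append, List.length_map]
      rw [h1] at hj
      omega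
    have e : (XO h W L)[j] = ((fun y => (starRingEnd ℂ) ((L[j - L.length]).1 y)), W + taylor h (L[j - L.length]).2) := by
      unfold XO
      rw [List.getElem_append_right hjm', List.getElem_map]
    have hj3 : j - L.length < 2 ^ m := by rw [← hL]; exact hlen
    obtain ⟨i, hi⟩ : ∃ i, i = j - L.length := ⟨_, rfl⟩
    have hji : j = 2 ^ m + i := by rw [hi, ← hL]; omega
    have hi2 : i < 2 ^ m := by rw [hi]; exact hj3
    have e1 : j % 2 ^ m = i := by
      rw [hji, Nat.add_mod_left, Nat.mod_eq_of_lt hi2]
    have e2 : j.testBit m = true := by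
      rw [hji, Nat.testBit_two_pow_add_eq, Nat.testBit_lt_two_pow hi2]
      rfl
    have H2 := H (j - L.length) hlen
    rw [e, e1, e2, if_pos rfl]
    refine ⟨⟨fun y => ?_, ?_⟩, ?_⟩
    · rw [RCLike.norm_conj]
      exact H2.1.le y
    · obtain ⟨S, hS, hS2⟩ := H2.1.sup
      refine ⟨S, hS, fun y hy => ?_⟩
      show (starRingEnd ℂ) ((L[j - L.length]).1 y) = 0
      rw [hS2 y hy, map_zero]
    · rw [add_comm]
      have H3 : PD d (u i) (L[j - L.length]).2 := by
        rw [hi]
        exact H2.2
      exact PD.add hW (PD.taylor H3 h)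

/-- **B5a.** Coefficients in the extended family. Proof. Induction on `ops`, generalising `L`, `m`, `u`. Step with `p = (h, W)`: `XO p.1 p.2 L` has length
`2 ^ (m + 1)`; its entry `j < 2 ^ m` is that of `L`, the entry `2 ^ m + j` has the polynomial `W + taylor h V` (`PD.add`, `PD.taylor`) and coefficient
`w + u j`. So the hypothesis holds with `u' j = u (j % 2 ^ m) + if j.testBit m then w else 0`. -/
theorem B5_coef {M : ℕ} (N : ℝ) (d : ℕ) (ops : List (ℤ × ℤ[X])) : ∀ (ws : List ℤ) (L : Fam M) (m : ℕ) (u : ℕ → ℤ),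
    List.Forall₂ (fun (p : ℤ × ℤ[X]) (w : ℤ) => PD d w p.2) ops ws → L.length = 2 ^ m →
    (∀ (j : ℕ) (hj : j < L.length), FN N (L[j]).1 ∧ PD d (u j) (L[j]).2) →
    ∀ (j : ℕ) (hj : j < (XL ops L).length), FN N ((XL ops L)[j]).1 ∧
      PD d (u (j % 2 ^ m) + ∑ i ∈ range ws.length, if j.testBit (m + i) then ws.getD i 0 else 0) ((XL ops L)[j]).2 := by
  induction ops with
  | nil =>
    intro ws L m u hf hL H j hj
    cases hf
    have hj2 : j < 2 ^ m := by rw [← hL]; exact hj
    rw [List.length_nil, Finset.sum_range_zero, add_zero, Nat.mod_eq_of_lt hj2]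
    exact H j hj
  | cons p ops ih =>
    intro ws L m u hf hL H
    cases hf with
    | @cons _ w _ ws' hw hf' =>
      intro j hj
      have hL' : (XO p.1 p.2 L).length = 2 ^ (m + 1) := by
        unfold XO
        rw [List.length_append, List.length_map, hL, pow_succ]
        ring
      have h1 := ih ws' (XO p.1 p.2 L) (m + 1) (fun j => u (j % 2 ^ m) + if j.testBit m then w else 0) hf' hL'
        (b5a_step N d p.1 p.2 w hw L m u hL H) j hj
      refine ⟨h1.1, ?_⟩
      have h2 := h1.2
      have e1 : j % 2 ^ (m + 1) % 2 ^ m = j % 2 ^ m := Nat.mod_mod_of_dvd j (pow_dvd_pow 2 (Nat.le_succ m))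
      have e2 : (j % 2 ^ (m + 1)).testBit m = j.testBit m := by
        rw [Nat.testBit_mod_two_pow]
        simp
      simp only [e1, e2] at h2
      have e3 : ∑ i ∈ range (w :: ws').length, (if j.testBit (m + i) then (w :: ws').getD i 0 else 0) =
          (∑ i ∈ range ws'.length, if j.testBit (m + 1 + i) then ws'.getD i 0 else 0) + if j.testBit m then w else 0 := by
        rw [List.length_cons, Finset.sum_range_succ']
        congr 1
        refine Finset.sum_congr rfl fun i _ => ?_
        rw [List.getD_cons_succ, show m + (i + 1) = m + 1 + i by omega]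
      rw [e3]
      have e4 : u (j % 2 ^ m) + ((∑ i ∈ range ws'.length, if j.testBit (m + 1 + i) then ws'.getD i 0 else 0) +
          if j.testBit m then w else 0) = (u (j % 2 ^ m) + if j.testBit m then w else 0) +
          ∑ i ∈ range ws'.length, if j.testBit (m + 1 + i) then ws'.getD i 0 else 0 := by ring
      rw [e4]
      exact h2

end Pool.Agent.HPP
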