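import Pool.Agent.Lib.HPP.B1

/-!
# Project HPP, B6a (S/M): from one-sided to two-sided differences
-/

open Finset Polynomial

namespace Pool.Agent.HPP

theorem b6a_av_iv (X : ℕ) (F : ℤ → ℝ) :
    (av fun h : Iv X => F (h : ℤ)) = (∑ h ∈ Icc (-(X : ℤ)) X, F h) / (2 * X + 1) := by
  unfold av
  rw [Finset.sum_coe_sort (Icc (-(X : ℤ)) X) F, Fintype.card_coe, Int.card_Icc]
  have h1 : ((((X : ℤ) + 1 - -(X : ℤ)).toNat : ℕ) : ℝ) = 2 * X + 1 := by
    have h2 : ((X : ℤ) + 1 - -(X : ℤ)).toNat = 2 * X + 1 := by omega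
    rw [h2]
    push_cast
    ring
  rw [h1]

theorem b6a_card (X : ℕ) (Φ : ℤ → ℝ) (h : ∀ x, 0 ≤ Φ x) :
    ((X : ℝ) + 1) * ∑ y ∈ Icc (-(X : ℤ)) X, Φ y ≤ ∑ x ∈ Icc (-(X : ℤ)) X, ∑ x' ∈ Icc (-(X : ℤ)) X, Φ (x - x') := by
  classical
  have h1 : ((X : ℝ) + 1) * ∑ y ∈ Icc (-(X : ℤ)) X, Φ y = ∑ q ∈ Icc (-(X : ℤ)) X ×ˢ Icc (0 : ℤ) X, Φ q.1 := by
    rw [Finset.sum_product, Finset.mul_sum]
    refine Finset.sum_congr rfl fun y _ => ?_
    change _ = ∑ _y ∈ Icc (0 : ℤ) X, Φ y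
    rw [Finset.sum_const, Int.card_Icc, nsmul_eq_mul]
    have h2 : ((X : ℤ) + 1 - 0).toNat = X + 1 := by omega
    rw [h2]
    push_cast
    ring
  have h3 : ∑ x ∈ Icc (-(X : ℤ)) X, ∑ x' ∈ Icc (-(X : ℤ)) X, Φ (x - x') =
      ∑ p ∈ Icc (-(X : ℤ)) X ×ˢ Icc (-(X : ℤ)) X, Φ (p.1 - p.2) := by
    rw [Finset.sum_product]
  rw [h1, h3]
  set g : ℤ × ℤ → ℤ × ℤ := fun q => if 0 ≤ q.1 then (q.1 - q.2, -q.2) else (q.1 + q.2, q.2) with hg
  have hinj : Set.InjOn g (Icc (-(X : ℤ)) X ×ˢ Icc (0 : ℤ) X : Finset (ℤ × ℤ)) := by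
    rintro ⟨a, b⟩ hab ⟨c, d⟩ hcd he
    rw [Finset.mem_coe, Finset.mem_product, Finset.mem_Icc, Finset.mem_Icc] at hab hcd
    simp only [hg] at he
    simp only at hab hcd
    by_cases h0 : 0 ≤ a <;> by_cases h1 : 0 ≤ c <;> simp only [h0, h1, if_true, if_false, Prod.mk.injEq] at he <;>
      rw [Prod.mk.injEq] <;> omega
  have h4 : ∑ q ∈ Icc (-(X : ℤ)) X ×ˢ Icc (0 : ℤ) X, Φ q.1 =
      ∑ p ∈ (Icc (-(X : ℤ)) X ×ˢ Icc (0 : ℤ) X).image g, Φ (p.1 - p.2) := by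
    rw [Finset.sum_image hinj]
    refine Finset.sum_congr rfl fun q _ => ?_
    simp only [hg]
    by_cases h0 : 0 ≤ q.1
    · simp only [h0, if_true]
      congr 1
      ring
    · simp only [h0, if_false]
      congr 1
      ring
  rw [h4]
  refine Finset.sum_le_sum_of_subset_of_nonneg ?_ fun _ _ _ => h _
  intro p hp
  rw [Finset.mem_image] at hp
  obtain ⟨⟨a, b⟩, hq, rfl⟩ := hp
  rw [Finset.mem_product, Finset.mem_Icc, Finset.mem_Icc] at hq ⊢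
  simp only at hq
  simp only [hg]
  by_cases h0 : 0 ≤ a
  · simp only [h0, if_true]
    omega
  · simp only [h0, if_false]
    omega

/-- **B6a.** One direction: for a non-negative function `Φ` of the difference: `x - x' = h` has at least `X + 1` solutions in `[-X, X]` for
`|h| ≤ X`, so `av_h Φ(h) ≤ 2 av_{x, x'} Φ(x - x')`. -/
theorem B6_one (X : ℕ) (Φ : ℤ → ℝ) (h : ∀ x, 0 ≤ Φ x) :
    (av fun h : Iv X => Φ (h : ℤ)) ≤ 2 * av fun p : Iv X × Iv X => Φ ((p.1 : ℤ) - (p.2 : ℤ)) := by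
  rw [av_prod (fun p : Iv X × Iv X => Φ ((p.1 : ℤ) - (p.2 : ℤ)))]
  have h1 : (av fun x : Iv X => av fun y : Iv X => Φ ((x : ℤ) - (y : ℤ))) =
      (∑ x ∈ Icc (-(X : ℤ)) X, ∑ x' ∈ Icc (-(X : ℤ)) X, Φ (x - x')) / (2 * X + 1) / (2 * X + 1) := by
    have h2 : ∀ x : Iv X, (av fun y : Iv X => Φ ((x : ℤ) - (y : ℤ))) =
        (fun x : ℤ => (∑ y ∈ Icc (-(X : ℤ)) X, Φ (x - y)) / (2 * X + 1)) (x : ℤ) := fun x =>
      b6a_av_iv X fun y => Φ ((x : ℤ) - y)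
    simp only [h2]
    rw [b6a_av_iv X fun x => (∑ y ∈ Icc (-(X : ℤ)) X, Φ (x - y)) / (2 * X + 1), ← Finset.sum_div]
  rw [h1, b6a_av_iv X Φ]
  have h3 := b6a_card X Φ h
  have h4 : 0 ≤ ∑ y ∈ Icc (-(X : ℤ)) X, Φ y := Finset.sum_nonneg fun x _ => h x
  have h5 : (0 : ℝ) < 2 * X + 1 := by positivity
  rw [div_div, ← mul_div_assoc, div_le_div_iff₀ h5 (by positivity)]
  nlinarith [mul_le_mul_of_nonneg_right h3 h5.le, mul_nonneg h4 h5.le]

/-- **B6b.** All directions. Proof. Induction on `rs` (`AL_succ`, `NN_cons`): for `r :: rs` `B6_one` with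
`Φ h = AL X ρ (fun l => ‖∑ DI .. (D2 0 (-(h r)) f)‖)`, induction hypothesis; `D2 (r x) (r x') f` is a translate of `D2 0 (r x' - r x) f` (`D2_zero`, `NN_trans`) and
`r x' - r x = -((x - x') r)`. -/
theorem B6_two {M : ℕ} [NeZero M] (X : ℕ) (rs : List ℤ) : ∀ f : ZMod M → ℂ,
    (AL X rs.length fun l => ‖∑ t, DI (List.zipWith (fun h r : ℤ => ((-(h * r) : ℤ) : ZMod M)) l rs) f t‖) ≤
      2 ^ rs.length * NN (rs.map fun c => cdir M X c) f := by
  induction rs with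
  | nil =>
    intro f
    rw [List.length_nil, AL_zero, List.map_nil, NN_nil, List.zipWith_nil_left]
    simp only [DI, pow_zero, one_mul, le_refl]
  | cons r rs ih =>
    intro f
    rw [List.length_cons, AL_succ]
    simp only [List.zipWith_cons_cons, DI]
    have h1 := B6_one X (fun h : ℤ => AL X rs.length fun l =>
      ‖∑ t, DI (List.zipWith (fun h r : ℤ => ((-(h * r) : ℤ) : ZMod M)) l rs) (D2 0 ((-(h * r) : ℤ) : ZMod M) f) t‖)
      fun h => AL_nonneg X rs.length fun l _ => norm_nonneg _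
    refine h1.trans ?_
    have h2 : ∀ p : Iv X × Iv X, (AL X rs.length fun l =>
        ‖∑ t, DI (List.zipWith (fun h r : ℤ => ((-(h * r) : ℤ) : ZMod M)) l rs)
          (D2 0 ((-(((p.1 : ℤ) - (p.2 : ℤ)) * r) : ℤ) : ZMod M) f) t‖) ≤
        2 ^ rs.length * NN (rs.map fun c => cdir M X c) (D2 ((cdir M X r).a p.1) ((cdir M X r).a p.2) f) := by
      intro p
      refine (ih _).trans (le_of_eq ?_)
      congr 1
      have h3 : D2 ((cdir M X r).a p.1) ((cdir M X r).a p.2) f =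
          fun y => (D2 0 ((-(((p.1 : ℤ) - (p.2 : ℤ)) * r) : ℤ) : ZMod M) f) (y + (cdir M X r).a p.1) := by
        funext y
        rw [D2_zero]
        have h4 : (cdir M X r).a p.2 - (cdir M X r).a p.1 = ((-(((p.1 : ℤ) - (p.2 : ℤ)) * r) : ℤ) : ZMod M) := by
          simp only [cdir]
          push_cast
          ring
        rw [h4]
      rw [h3, NN_trans]
    have h5 : (av fun p : Iv X × Iv X => AL X rs.length fun l =>
        ‖∑ t, DI (List.zipWith (fun h r : ℤ => ((-(h * r) : ℤ) : ZMod M)) l rs)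
          (D2 0 ((-(((p.1 : ℤ) - (p.2 : ℤ)) * r) : ℤ) : ZMod M) f) t‖) ≤
        2 ^ rs.length * NN (cdir M X r :: rs.map fun c => cdir M X c) f := by
      rw [NN_cons, ← av_mul_left]
      exact av_mono h2
    rw [List.map_cons, pow_succ]
    nlinarith [h5]

end Pool.Agent.HPP
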