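import Pool.Agent.Lib.HPP.B5
import Pool.Agent.Lib.HPP.B6a

/-!
# Project HPP, B6 (M): degree one
-/

open Finset Polynomial

namespace Pool.Agent.HPP

theorem b6_EL_const {M : ℕ} (ρ : ℕ → ℤ) (ops : List (ℤ × ℤ[X])) : ∀ (lab : List ℕ) (g : ZMod M → ℂ),
    List.Forall₂ (fun (p : ℤ × ℤ[X]) (k : ℕ) => PW 1 p.1 (ρ k) p.2) ops lab →
    EL ops (fun t _ => g t) = fun t _ =>
      DI (List.zipWith (fun h r : ℤ => ((-(h * r) : ℤ) : ZMod M)) (ops.map Prod.fst) (lab.map ρ)) g t := by
  induction ops with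
  | nil =>
    intro lab g h
    cases h
    rfl
  | cons p ops ih =>
    intro lab g h
    cases h with
    | @cons _ k _ lab' h1 h2 =>
      have h3 : EO p.1 p.2 (fun (t : ZMod M) (_ : ℤ) => g t) = fun t _ => D2 0 ((-(p.1 * ρ k) : ℤ) : ZMod M) g t := by
        funext t n
        simp only [EO, D2, add_zero]
        have h4 : p.2.eval n = -(p.1 * ρ k) := by
          rw [PD.const h1 n]
          push_cast
          ring
        rw [h4]
      simp only [EL, h3, List.map_cons, List.zipWith_cons_cons, DI]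
      exact ih lab' (D2 0 ((-(p.1 * ρ k) : ℤ) : ZMod M) g) h2

theorem b6_list {M : ℕ} (X : ℕ) (ρ : ℕ → ℤ) (lab : List ℕ) :
    ((lab.map ρ).map fun c => cdir M X c) = List.ofFn fun k : Fin lab.length => cdir M X (ρ (lab.getD k 0)) := by
  refine List.ext_getElem ?_ fun i h1 h2 => ?_
  · simp only [List.length_map, List.length_ofFn]
  · rw [List.getElem_map, List.getElem_map, List.getElem_ofFn]
    have h3 : i < lab.length := by
      simpa only [List.length_map] using h1
    simp only [List.getD_eq_getElem _ _ h3]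

/-- **B6c. Degree 1.** `c r k l = r_{lab k}` (no parameters). Proof. `KF 1` with `C = ofFn fun j => (r j, [(f j, R j)])`,
`A t n = (if n ∈ Ico a b then 1 else 0) * f0 t` (`Vn`: `0 ≤ a`, `b ≤ X`). All `W` are constants (`PD 0`): `EL` of `f0` is
`DI [w_1, ..] f0 t`, `w_i = -(h_i r_{lab i})` (`PD.const`), times the indicator of an interval (`EL_mul`, `B5_cut`): `‖SS‖ ≤ X ‖∑_t DI .. f0 t‖`. `B6_two`
with `rs = lab.map (fun k => (ofFn r).getD k 0)`. -/
theorem B6_FU (q : ℕ) (lab : List ℕ) (h : KF 1 (List.replicate q 1) lab) :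
    FU 1 q 0 lab.length (2 ^ lab.length) (3 ^ (2 ^ lab.length) * 2 ^ lab.length)
      (fun r k _ => (List.ofFn r).getD (lab.getD k 0) 0) := by
  intro M _ X N hX hN r f R hfR f0 hf0 a b ha hb
  have hXr : (0 : ℝ) < X := Nat.cast_pos.2 hX
  set C : List (ℤ × Fam M) := List.ofFn fun j => (r j, [(f j, R j)]) with hC
  have hC1 : (C.map fun c => c.2.length) = List.replicate q 1 := by
    rw [hC, List.map_ofFn]
    refine List.ext_getElem ?_ fun i h1 h2 => ?_
    · simp only [List.length_ofFn, List.length_replicate]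
    · rw [List.getElem_ofFn, List.getElem_replicate]
      rfl
  have hC2 : C.map Prod.fst = List.ofFn r := by
    rw [hC, List.map_ofFn]
    rfl
  have hC3 : ∀ c ∈ C, Cls N 1 c.1 c.2 := by
    intro c hc
    rw [hC, List.mem_ofFn] at hc
    obtain ⟨j, rfl⟩ := hc
    intro p hp
    rw [List.mem_singleton] at hp
    rw [hp]
    exact hfR j
  have hC4 : ∀ t n, (C.map fun c => pr c.2 t n).prod = ∏ j, f j (t + (((R j).eval n : ℤ) : ZMod M)) := by
    intro t n
    rw [hC, List.map_ofFn, List.prod_ofFn]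
    refine Finset.prod_congr rfl fun j _ => ?_
    simp only [Function.comp_apply, pr, List.map_cons, List.map_nil, List.prod_singleton]
  have hA : Vn X (fun (t : ZMod M) (n : ℤ) => (if n ∈ Ico a b then (1 : ℂ) else 0) * f0 t) := by
    intro t n hn
    have h1 : n ∉ Ico a b := by
      rw [mem_Ico] at hn ⊢
      omega
    simp only [h1, if_false, zero_mul]
  obtain ⟨W, hW1, hW2⟩ := h M X N hX hN C hC1 hC3 _ hA
  have h1 : (SS X fun (t : ZMod M) (n : ℤ) => ((if n ∈ Ico a b then (1 : ℂ) else 0) * f0 t) * (C.map fun c => pr c.2 t n).prod) =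
      ∑ t : ZMod M, ∑ n ∈ Ico a b, f0 t * ∏ j, f j (t + (((R j).eval n : ℤ) : ZMod M)) := by
    unfold SS
    refine Finset.sum_congr rfl fun t _ => ?_
    have h2 : Ico a b ⊆ Ico (0 : ℤ) X := Ico_subset_Ico ha hb
    rw [← Finset.sum_subset h2 (f := fun n => ((if n ∈ Ico a b then (1 : ℂ) else 0) * f0 t) * (C.map fun c => pr c.2 t n).prod)]
    · refine Finset.sum_congr rfl fun n hn => ?_
      rw [hC4]
      simp only [hn, if_true, one_mul]
    · intro n _ hn
      simp only [hn, if_false, zero_mul]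
  rw [h1] at hW2
  refine hW2.trans ?_
  rw [AL_zero]
  set ρ : ℕ → ℤ := fun k => (List.ofFn r).getD k 0 with hρ
  have h3 : (AL X lab.length fun l => ‖SS X (EL (l.zip (W l)) fun (t : ZMod M) (n : ℤ) => (if n ∈ Ico a b then (1 : ℂ) else 0) * f0 t)‖ / (N * X)) ≤
      AL X lab.length fun l => N⁻¹ * ‖∑ t, DI (List.zipWith (fun h r : ℤ => ((-(h * r) : ℤ) : ZMod M)) l (lab.map ρ)) f0 t‖ := by
    refine AL_mono X lab.length fun l hl => ?_
    obtain ⟨hWl, hWF⟩ := hW1 l hl
    rw [hC2] at hWF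
    rw [EL_mul (l.zip (W l)) (fun (_ : ZMod M) (n : ℤ) => if n ∈ Ico a b then (1 : ℂ) else 0) (fun t _ => f0 t)]
    obtain ⟨a', b', _, _, h4⟩ := B5_cut (M := M) (l.zip (W l)) a b
    rw [b6_EL_const ρ (l.zip (W l)) lab f0 hWF, List.map_fst_zip (by rw [hl, hWl])]
    have h5 : (SS X fun (t : ZMod M) (n : ℤ) => EL (l.zip (W l)) (fun (_ : ZMod M) (n : ℤ) => if n ∈ Ico a b then (1 : ℂ) else 0) t n *
        DI (List.zipWith (fun h r : ℤ => ((-(h * r) : ℤ) : ZMod M)) l (lab.map ρ)) f0 t) =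
        (∑ n ∈ Ico (0 : ℤ) X, if n ∈ Ico a' b' then (1 : ℂ) else 0) *
          ∑ t, DI (List.zipWith (fun h r : ℤ => ((-(h * r) : ℤ) : ZMod M)) l (lab.map ρ)) f0 t := by
      unfold SS
      rw [Finset.sum_mul_sum, Finset.sum_comm]
      refine Finset.sum_congr rfl fun n _ => Finset.sum_congr rfl fun t _ => ?_
      rw [h4]
    rw [h5, norm_mul]
    have h6 : ‖∑ n ∈ Ico (0 : ℤ) X, if n ∈ Ico a' b' then (1 : ℂ) else 0‖ ≤ X := by
      refine (norm_sum_le _ _).trans ?_
      refine (Finset.sum_le_card_nsmul _ _ 1 fun n _ => ?_).trans ?_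
      · by_cases h : n ∈ Ico a' b'
        · simp only [h, if_true, norm_one, le_refl]
        · simp only [h, if_false, norm_zero, zero_le_one]
      · rw [Int.card_Ico, nsmul_eq_mul, mul_one]
        have h7 : ((X : ℤ) - 0).toNat = X := by omega
        rw [h7]
    rw [div_le_iff₀ (by positivity)]
    calc _ ≤ (X : ℝ) * ‖∑ t, DI (List.zipWith (fun h r : ℤ => ((-(h * r) : ℤ) : ZMod M)) l (lab.map ρ)) f0 t‖ :=
          mul_le_mul_of_nonneg_right h6 (norm_nonneg _)
      _ = _ := by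
          field_simp
  have h8 := B6_two X (lab.map ρ) f0
  rw [List.length_map, b6_list] at h8
  rw [AL_mul_left] at h3
  have h9 : 0 ≤ NN (List.ofFn fun k : Fin lab.length => cdir M X (ρ (lab.getD k 0))) f0 := NN_nonneg _ _
  have h10 : (3 : ℝ) ^ (2 ^ lab.length - 1) ≤ 3 ^ (2 ^ lab.length) := pow_le_pow_right₀ (by norm_num) (Nat.sub_le _ _)
  calc _ ≤ (3 : ℝ) ^ (2 ^ lab.length - 1) *
        (N⁻¹ * (2 ^ lab.length * NN (List.ofFn fun k : Fin lab.length => cdir M X (ρ (lab.getD k 0))) f0)) := by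
        refine mul_le_mul_of_nonneg_left (h3.trans ?_) (by positivity)
        exact mul_le_mul_of_nonneg_left h8 (by positivity)
    _ ≤ (3 : ℝ) ^ (2 ^ lab.length) *
        (N⁻¹ * (2 ^ lab.length * NN (List.ofFn fun k : Fin lab.length => cdir M X (ρ (lab.getD k 0))) f0)) :=
        mul_le_mul_of_nonneg_right h10 (by positivity)
    _ = _ := by
        simp only [hρ]
        ring

/-- **B6d.** `κ = 1`, `j = lab k < q`. -/
theorem B6_EP (q : ℕ) (lab : List ℕ) (h : ∀ k ∈ lab, k < q) :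
    EP 1 q 0 lab.length (fun r k _ => (List.ofFn r).getD (lab.getD k 0) 0) := by
  intro k
  have h1 : lab.getD k 0 = lab[(k : ℕ)] := List.getD_eq_getElem _ _ k.2
  have h2 : lab[(k : ℕ)] < q := h _ (List.getElem_mem _)
  refine ⟨1, one_ne_zero, ⟨lab[(k : ℕ)], h2⟩, ?_⟩
  intro M X _ χ r
  rw [AL_zero]
  have h3 : (List.ofFn r).getD (lab.getD k 0) 0 = r ⟨lab[(k : ℕ)], h2⟩ := by
    rw [h1, List.getD_eq_getElem _ _ (by rw [List.length_ofFn]; exact h2), List.getElem_ofFn]
  simp only [h3, one_mul, Nat.sub_self, pow_zero, Real.rpow_one, le_refl]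

end Pool.Agent.HPP
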