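import Pool.Agent.Lib.HPP.B5

/-!
# Project HPP, B7a (M): the step of the complete elimination, inequality
-/

open Finset Polynomial

namespace Pool.Agent.HPP

/-- The directions in the step. -/
def cnew (d : ℕ) {q n : ℕ} (lab : List ℕ) (c : (Fin (2 ^ lab.length - 1) → ℤ) → Fin n → List ℤ → ℤ) :
    (Fin q → ℤ) → Fin n → List ℤ → ℤ :=
  fun r k l => c (fun j => rn d lab r (l.take lab.length) (j + 1)) k (l.drop lab.length)

private theorem b7a_sum {M : ℕ} [NeZero M] (X : ℕ) (a b : ℤ) (ha : 0 ≤ a) (hb : b ≤ X) (g : ZMod M → ℤ → ℂ) :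
    SS X (fun t n => (if n ∈ Ico a b then 1 else 0) * g t n) = ∑ t : ZMod M, ∑ n ∈ Ico a b, g t n := by
  unfold SS
  refine Finset.sum_congr rfl fun t _ => ?_
  have hsub : Ico a b ⊆ Ico (0 : ℤ) X := Finset.Ico_subset_Ico ha hb
  rw [← Finset.sum_subset hsub]
  · refine Finset.sum_congr rfl fun n hn => ?_
    show (if n ∈ Ico a b then (1 : ℂ) else 0) * g t n = _
    rw [if_pos hn, one_mul]
  · intro n _ hn
    show (if n ∈ Ico a b then (1 : ℂ) else 0) * g t n = _
    rw [if_neg hn, zero_mul]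

private theorem b7a_pr {M : ℕ} (f0 : ZMod M → ℂ) (t : ZMod M) (n : ℤ) : pr [(f0, (0 : ℤ[X]))] t n = f0 t := by
  unfold pr
  simp

/-- **B7a.** Proof. `KF (d + 1)` with the singletons `C = ofFn fun j => (r j, [(f j, R j)])` and
`A t n = (if n ∈ Ico a b then 1 else 0) * pr [(f0, 0)] t n`. For every `l` of length `lab.length`: `EL_mul`, `B5_cut`, `B5_fam`: the remaining sum is of the
form of `FU d` with the interval `[a', b')` (as a sum over `n ∈ Ico 0 X` of the indicator) and coefficients `rn d lab r l (j + 1)`. With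
`x = ‖..‖ / (N X)`, `m = 2 ^ lab.length`: `x ^ (m E) ≤ (3 ^ (m - 1) AL y_l) ^ E ≤ 3 ^ (m E) AL (y_l ^ E) ≤ 3 ^ (m E) K AL (AL ..)` and `AL_add`, `AL_congr`
(`List.take_left'`, `List.drop_left'`). -/
theorem B7_FU (d q ρ n E : ℕ) (K : ℝ) (hK : 0 ≤ K) (lab : List ℕ)
    (c : (Fin (2 ^ lab.length - 1) → ℤ) → Fin n → List ℤ → ℤ)
    (h1 : KF (d + 1) (List.replicate q 1) lab) (h2 : FU d (2 ^ lab.length - 1) ρ n E K c) :
    FU (d + 1) q (lab.length + ρ) n (2 ^ lab.length * E) (3 ^ (2 ^ lab.length * E) * K) (cnew d lab c) := by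
  intro M _ X N hX hN r f R hfR f0 hf0 a b ha hb
  have hNX : (0 : ℝ) < N * X := mul_pos hN (Nat.cast_pos.2 hX)
  have hC1 : (((List.ofFn fun j => ((r j, [(f j, R j)]) : ℤ × Fam M)).map fun c => c.2.length)) = List.replicate q 1 := by
    rw [List.map_ofFn]
    exact List.ofFn_const q 1
  have hC2 : ∀ c ∈ (List.ofFn fun j => ((r j, [(f j, R j)]) : ℤ × Fam M)), Cls N (d + 1) c.1 c.2 := by
    intro c hc
    rw [List.mem_ofFn] at hc
    obtain ⟨j, rfl⟩ := hc
    intro p hp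
    rw [List.mem_singleton] at hp
    subst hp
    exact hfR j
  have hA : Vn X (fun (t : ZMod M) (n : ℤ) => (if n ∈ Ico a b then (1 : ℂ) else 0) * pr [(f0, (0 : ℤ[X]))] t n) := by
    intro t n hn
    have hn2 : n ∉ Ico a b := fun h => hn (Finset.Ico_subset_Ico ha hb h)
    show (if n ∈ Ico a b then (1 : ℂ) else 0) * _ = 0
    rw [if_neg hn2, zero_mul]
  obtain ⟨W, hW, hin⟩ := h1 M X N hX hN _ hC1 hC2 _ hA
  have hfst : (List.ofFn fun j => ((r j, [(f j, R j)]) : ℤ × Fam M)).map Prod.fst = List.ofFn r := by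
    rw [List.map_ofFn]
    rfl
  rw [hfst] at hW
  have hprod : ∀ (t : ZMod M) (n : ℤ), ((List.ofFn fun j => ((r j, [(f j, R j)]) : ℤ × Fam M)).map fun c => pr c.2 t n).prod =
      ∏ j, f j (t + (((R j).eval n : ℤ) : ZMod M)) := by
    intro t n
    rw [List.map_ofFn, List.prod_ofFn]
    refine Finset.prod_congr rfl fun j _ => ?_
    show pr [(f j, R j)] t n = _
    unfold pr
    simp
  have hSS : (SS X fun (t : ZMod M) (n : ℤ) => ((if n ∈ Ico a b then (1 : ℂ) else 0) * pr [(f0, (0 : ℤ[X]))] t n) *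
      ((List.ofFn fun j => ((r j, [(f j, R j)]) : ℤ × Fam M)).map fun c => pr c.2 t n).prod) =
      ∑ t : ZMod M, ∑ n ∈ Ico a b, f0 t * ∏ j, f j (t + (((R j).eval n : ℤ) : ZMod M)) := by
    rw [← b7a_sum X a b ha hb]
    congr 1
    funext t n
    rw [hprod, b7a_pr, mul_assoc]
  rw [hSS] at hin
  have hy : ∀ l : List ℤ, (0 : ℝ) ≤ ‖SS X (EL (l.zip (W l)) fun (t : ZMod M) (n : ℤ) =>
      (if n ∈ Ico a b then (1 : ℂ) else 0) * pr [(f0, (0 : ℤ[X]))] t n)‖ / (N * X) := fun l => by positivity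
  have hstep : ∀ l : List ℤ, l.length = lab.length → (‖SS X (EL (l.zip (W l)) fun (t : ZMod M) (n : ℤ) =>
      (if n ∈ Ico a b then (1 : ℂ) else 0) * pr [(f0, (0 : ℤ[X]))] t n)‖ / (N * X)) ^ E ≤
      K * AL X ρ fun l' => NN (List.ofFn fun k => cdir M X (cnew d lab c r k (l ++ l'))) f0 / N := by
    intro l hl
    obtain ⟨hWl, hWf⟩ := hW l hl
    obtain ⟨a', b', ha', hb', hcut⟩ := B5_cut (M := M) (l.zip (W l)) a b
    obtain ⟨f', V, hfV, hfam⟩ := B5_fam N d q lab r l (W l) hl hWl hWf f0 hf0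
    have e1 : SS X (EL (l.zip (W l)) fun (t : ZMod M) (n : ℤ) =>
        (if n ∈ Ico a b then (1 : ℂ) else 0) * pr [(f0, (0 : ℤ[X]))] t n) =
        ∑ t : ZMod M, ∑ n ∈ Ico a' b', f0 t * ∏ j, f' j (t + (((V j).eval n : ℤ) : ZMod M)) := by
      rw [← b7a_sum X a' b' (ha.trans ha') (hb'.trans hb)]
      congr 1
      rw [EL_mul]
      funext t n
      rw [hcut t n, hfam t n]
    rw [e1]
    refine (h2 M X N hX hN (fun j => rn d lab r l (j + 1)) f' V hfV f0 hf0 a' b' (ha.trans ha') (hb'.trans hb)).trans (le_of_eq ?_)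
    congr 1
    refine AL_congr X ρ fun l' _ => ?_
    have e2 : (l ++ l').take lab.length = l := by rw [← hl]; exact List.take_left
    have e3 : (l ++ l').drop lab.length = l' := by rw [← hl]; exact List.drop_left
    unfold cnew
    rw [e2, e3]
  have hm : 1 ≤ 2 ^ lab.length := Nat.one_le_two_pow
  rw [pow_mul, AL_add]
  calc _ ≤ (3 ^ (2 ^ lab.length - 1) * AL X lab.length fun l => ‖SS X (EL (l.zip (W l)) fun (t : ZMod M) (n : ℤ) =>
        (if n ∈ Ico a b then (1 : ℂ) else 0) * pr [(f0, (0 : ℤ[X]))] t n)‖ / (N * X)) ^ E :=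
      pow_le_pow_left₀ (by positivity) hin E
    _ = 3 ^ ((2 ^ lab.length - 1) * E) * (AL X lab.length fun l => ‖SS X (EL (l.zip (W l)) fun (t : ZMod M) (n : ℤ) =>
        (if n ∈ Ico a b then (1 : ℂ) else 0) * pr [(f0, (0 : ℤ[X]))] t n)‖ / (N * X)) ^ E := by rw [mul_pow, ← pow_mul]
    _ ≤ 3 ^ (2 ^ lab.length * E) * (K * AL X lab.length fun l => AL X ρ fun l' =>
        NN (List.ofFn fun k => cdir M X (cnew d lab c r k (l ++ l'))) f0 / N) := by
      have h3 : (AL X lab.length fun l => ‖SS X (EL (l.zip (W l)) fun (t : ZMod M) (n : ℤ) =>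
          (if n ∈ Ico a b then (1 : ℂ) else 0) * pr [(f0, (0 : ℤ[X]))] t n)‖ / (N * X)) ^ E ≤
          K * AL X lab.length fun l => AL X ρ fun l' =>
            NN (List.ofFn fun k => cdir M X (cnew d lab c r k (l ++ l'))) f0 / N := by
        rw [← AL_mul_left]
        exact (AL_pow X lab.length E hy).trans (AL_mono X lab.length hstep)
      refine mul_le_mul ?_ h3 (pow_nonneg (AL_nonneg X _ fun l _ => hy l) E) (by positivity)
      refine pow_le_pow_right₀ (by norm_num) (Nat.mul_le_mul_right E (Nat.sub_le _ _))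
    _ = _ := by rw [mul_assoc]

end Pool.Agent.HPP
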