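import Pool.Agent.Lib.HPP.C1

/-!
# Project HPP, C1L (M): the linear step for the energies
-/

open Finset

namespace Pool.Agent.HPP

variable {M : ℕ} [NeZero M] (X : ℕ) (χ : AddChar (ZMod M) ℂ)

/-- Auxiliary: an entry of a list. -/
theorem c1l_getD {ρ : ℕ} (v : Fin ρ → ℤ) (a : ℕ) (ha : a < ρ) : (List.ofFn v).getD a 0 = v ⟨a, ha⟩ := by
  rw [List.getD_eq_getElem _ _ (by rw [List.length_ofFn]; exact ha), List.getElem_ofFn]

/-- Auxiliary: `rn` is affine in the `i`-th parameter. -/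
theorem c1l_rn (d : ℕ) {q : ℕ} (lab : List ℕ) (r : Fin q → ℤ) (s i : ℕ) (hi : i < lab.length)
    (hs : s.testBit i = true) (v v' : Fin lab.length → ℤ) (hv : ∀ a, a ≠ ⟨i, hi⟩ → v a = v' a) :
    rn d lab r (List.ofFn v) s = rn d lab r (List.ofFn v') s -
      ((d : ℤ) + 1) * (List.ofFn r).getD (lab.getD i 0) 0 * (v ⟨i, hi⟩ - v' ⟨i, hi⟩) := by
  have h1 : (∑ a ∈ range lab.length, if s.testBit a then (List.ofFn v).getD a 0 * (List.ofFn r).getD (lab.getD a 0) 0 else 0) -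
      (∑ a ∈ range lab.length, if s.testBit a then (List.ofFn v').getD a 0 * (List.ofFn r).getD (lab.getD a 0) 0 else 0) =
      (v ⟨i, hi⟩ - v' ⟨i, hi⟩) * (List.ofFn r).getD (lab.getD i 0) 0 := by
    rw [← Finset.sum_sub_distrib, Finset.sum_eq_single i]
    · rw [if_pos hs, if_pos hs, c1l_getD v i hi, c1l_getD v' i hi, sub_mul]
    · intro b hb hbi
      have hb' : b < lab.length := mem_range.1 hb
      have h2 : v ⟨b, hb'⟩ = v' ⟨b, hb'⟩ := hv _ fun h => hbi (Fin.mk.inj_iff.1 h)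
      rw [c1l_getD v b hb', c1l_getD v' b hb', h2, sub_self]
    · intro h
      exact absurd (mem_range.2 hi) h
  unfold rn
  linear_combination (-((d : ℤ) + 1)) * h1

/-- Auxiliary: Jensen for the square root. -/
theorem c1l_root {ι : Type*} [Fintype ι] [Nonempty ι] {F : ι → ℝ} (hF : ∀ x, 0 ≤ F x) :
    (av fun x => F x ^ (1 / 2 : ℝ)) ≤ (av F) ^ (1 / 2 : ℝ) := by
  rw [← Real.sqrt_eq_rpow]
  refine Real.le_sqrt_of_sq_le ?_
  refine (av_pow 2 fun x => Real.rpow_nonneg (hF x) _).trans (le_of_eq ?_)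
  congr 1
  funext x
  rw [← Real.sqrt_eq_rpow, Real.sq_sqrt (hF x)]

/-- **The linear step.** `i < lab.length` is a digit of `s`. Proof. `KD_char`: `KD d (κ rn(l)) = avc_P χ(κ rn(l) ∏ P)`. `rn d lab r l s` is
`-(d + 1) r_{lab i} l_i` plus a function of the other `l`'s. For fixed `P` and fixed other `l`'s average over `l_i ∈ [-X, X]` inside:
the absolute value is `‖avc_{h} χ(-(κ (d+1) r_{lab i} ∏ P) h)‖ = (KD 1 (κ (d+1) r_{lab i} ∏ P)) ^ (1/2)` (`KD_neg`); so the left side is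
`≤ av_P (KD 1 (..)) ^ (1/2) ≤ (av_P KD 1 (..)) ^ (1/2) = (KD (d + 1) (κ (d+1) r_{lab i})) ^ (1/2)` (`av_pow`, `KD_one`). To average over one coordinate
of `v : Fin ρ → Iv X` use `av_equiv` with `Fin.insertNthEquiv` (or `Equiv.piSplitAt`). -/
theorem C1_lin (d : ℕ) (hd : 1 ≤ d) {q : ℕ} (lab : List ℕ) (r : Fin q → ℤ) (κ : ℤ) (s i : ℕ) (hi : i < lab.length)
    (hs : s.testBit i = true) :
    (AL X lab.length fun l => KD X χ d (κ * rn d lab r l s)) ≤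
      (KD X χ (d + 1) (κ * ((d : ℤ) + 1) * (List.ofFn r).getD (lab.getD i 0) 0)) ^ (1 / 2 : ℝ) := by
  classical
  obtain ⟨i', hi'⟩ : ∃ i' : Fin lab.length, i' = ⟨i, hi⟩ := ⟨_, rfl⟩
  obtain ⟨Rr, hRr⟩ : ∃ Rr : ℤ, Rr = (List.ofFn r).getD (lab.getD i 0) 0 := ⟨_, rfl⟩
  have hint : ∀ a b : ℤ, χ ((a + b : ℤ) : ZMod M) = χ (a : ZMod M) * χ (b : ZMod M) := by
    intro a b
    rw [Int.cast_add, AddChar.map_add_eq_mul]
  -- one choice of the differences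
  have hP : ∀ P : Fin d → Iv X × Iv X,
      ‖avc fun v : Fin lab.length → Iv X =>
        χ ((κ * rn d lab r (List.ofFn fun j => ((v j : Iv X) : ℤ)) s * ∏ j, (((P j).1 : ℤ) - ((P j).2 : ℤ)) : ℤ) : ZMod M)‖ ≤
      (KD X χ 1 (κ * ((d : ℤ) + 1) * Rr * ∏ j, (((P j).1 : ℤ) - ((P j).2 : ℤ)))) ^ (1 / 2 : ℝ) := by
    intro P
    obtain ⟨Pp, hPp⟩ : ∃ Pp : ℤ, Pp = ∏ j, (((P j).1 : ℤ) - ((P j).2 : ℤ)) := ⟨_, rfl⟩
    rw [← hPp]
    rw [← avc_equiv (Equiv.funSplitAt i' (Iv X)).symm, avc_prod, avc_comm]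
    refine (norm_avc_le _).trans (av_le fun w => ?_)
    obtain ⟨z0, hz0⟩ : ∃ z0 : Iv X, (z0 : ℤ) = 0 := ⟨⟨0, by rw [mem_Icc]; omega⟩, rfl⟩
    have hsplit : ∀ h : Iv X,
        χ ((κ * rn d lab r (List.ofFn fun j => ((((Equiv.funSplitAt i' (Iv X)).symm (h, w) : Fin lab.length → Iv X) j : Iv X) : ℤ)) s * Pp : ℤ) : ZMod M) =
        χ ((κ * rn d lab r (List.ofFn fun j => ((((Equiv.funSplitAt i' (Iv X)).symm (z0, w) : Fin lab.length → Iv X) j : Iv X) : ℤ)) s * Pp : ℤ) : ZMod M) *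
          χ ((-(κ * ((d : ℤ) + 1) * Rr * Pp) * (h : ℤ) : ℤ) : ZMod M) := by
      intro h
      rw [← hint]
      congr 2
      rw [c1l_rn d lab r s i hi hs
        (fun j => ((((Equiv.funSplitAt i' (Iv X)).symm (h, w) : Fin lab.length → Iv X) j : Iv X) : ℤ))
        (fun j => ((((Equiv.funSplitAt i' (Iv X)).symm (z0, w) : Fin lab.length → Iv X) j : Iv X) : ℤ)) ?_]
      · rw [← hRr, ← hi']
        have e1 : (((Equiv.funSplitAt i' (Iv X)).symm (h, w) : Fin lab.length → Iv X) i' : Iv X) = h := by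
          simp [Equiv.funSplitAt, Equiv.piSplitAt]
        have e2 : (((Equiv.funSplitAt i' (Iv X)).symm (z0, w) : Fin lab.length → Iv X) i' : Iv X) = z0 := by
          simp [Equiv.funSplitAt, Equiv.piSplitAt]
        rw [e1, e2, hz0]
        ring
      · intro a ha
        rw [← hi'] at ha
        simp [Equiv.funSplitAt, Equiv.piSplitAt, ha]
    have h1 : (avc fun h : Iv X =>
        χ ((κ * rn d lab r (List.ofFn fun j => ((((Equiv.funSplitAt i' (Iv X)).symm (h, w) : Fin lab.length → Iv X) j : Iv X) : ℤ)) s * Pp : ℤ) : ZMod M)) =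
        χ ((κ * rn d lab r (List.ofFn fun j => ((((Equiv.funSplitAt i' (Iv X)).symm (z0, w) : Fin lab.length → Iv X) j : Iv X) : ℤ)) s * Pp : ℤ) : ZMod M) *
          avc fun h : Iv X => χ ((-(κ * ((d : ℤ) + 1) * Rr * Pp) * (h : ℤ) : ℤ) : ZMod M) := by
      rw [← avc_mul_left]
      congr 1
      funext h
      exact hsplit h
    have h2 : ‖avc fun h : Iv X => χ ((-(κ * ((d : ℤ) + 1) * Rr * Pp) * (h : ℤ) : ℤ) : ZMod M)‖ =
        (KD X χ 1 (κ * ((d : ℤ) + 1) * Rr * Pp)) ^ (1 / 2 : ℝ) := by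
      rw [← KD_neg X χ 1 (κ * ((d : ℤ) + 1) * Rr * Pp), ← Real.sqrt_eq_rpow]
      show _ = √(‖avc fun m : Iv X => χ ((-(κ * ((d : ℤ) + 1) * Rr * Pp) * (m : ℤ) : ℤ) : ZMod M)‖ ^ 2)
      rw [Real.sqrt_sq (norm_nonneg _)]
    calc _ = ‖χ ((κ * rn d lab r (List.ofFn fun j => ((((Equiv.funSplitAt i' (Iv X)).symm (z0, w) : Fin lab.length → Iv X) j : Iv X) : ℤ)) s * Pp : ℤ) : ZMod M) *
          avc fun h : Iv X => χ ((-(κ * ((d : ℤ) + 1) * Rr * Pp) * (h : ℤ) : ℤ) : ZMod M)‖ := by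
            rw [← h1]
      _ ≤ (KD X χ 1 (κ * ((d : ℤ) + 1) * Rr * Pp)) ^ (1 / 2 : ℝ) := by
            rw [norm_mul, AddChar.norm_apply, one_mul, h2]
  -- all
  have hre : ((AL X lab.length fun l => KD X χ d (κ * rn d lab r l s) : ℝ) : ℂ) =
      avc fun P : Fin d → Iv X × Iv X => avc fun v : Fin lab.length → Iv X =>
        χ ((κ * rn d lab r (List.ofFn fun j => ((v j : Iv X) : ℤ)) s * ∏ j, (((P j).1 : ℤ) - ((P j).2 : ℤ)) : ℤ) : ZMod M) := by
    unfold AL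
    rw [av_ofReal, avc_comm]
    congr 1
    funext v
    exact KD_char X χ d hd _
  have h0 : 0 ≤ AL X lab.length fun l => KD X χ d (κ * rn d lab r l s) := by
    unfold AL
    exact av_nonneg fun v => KD_nonneg X χ d _
  calc (AL X lab.length fun l => KD X χ d (κ * rn d lab r l s))
      = ‖((AL X lab.length fun l => KD X χ d (κ * rn d lab r l s) : ℝ) : ℂ)‖ := by
        rw [Complex.norm_real, Real.norm_of_nonneg h0]
    _ ≤ av fun P : Fin d → Iv X × Iv X => (KD X χ 1 (κ * ((d : ℤ) + 1) * Rr * ∏ j, (((P j).1 : ℤ) - ((P j).2 : ℤ)))) ^ (1 / 2 : ℝ) := by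
        rw [hre]
        exact (norm_avc_le _).trans (av_mono hP)
    _ ≤ (av fun P : Fin d → Iv X × Iv X => KD X χ 1 (κ * ((d : ℤ) + 1) * Rr * ∏ j, (((P j).1 : ℤ) - ((P j).2 : ℤ)))) ^ (1 / 2 : ℝ) :=
        c1l_root fun P => KD_nonneg X χ 1 _
    _ = (KD X χ (d + 1) (κ * ((d : ℤ) + 1) * (List.ofFn r).getD (lab.getD i 0) 0)) ^ (1 / 2 : ℝ) := by
        rw [← hRr, KD_one]

end Pool.Agent.HPP
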