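import Pool.Agent.Lib.HPP.B6
import Pool.Agent.Lib.HPP.B7a
import Pool.Agent.Lib.HPP.C1L

/-!
# Project HPP, B7 (S/M): the step of the complete elimination, energy
-/

open Finset Polynomial

namespace Pool.Agent.HPP

/-- **B7b.** Proof. Let `κ', j'` be those of `k` for `d`, `s = j' + 1` (`1 ≤ s < 2 ^ lab.length`), `i` with `s.testBit i` (then
`i < lab.length`), `j = lab i`, `κ = κ' (d + 1)`. `AL_add`: the left side is `AL_{l1} AL_{l2} KD 1 (c r'(l1) k l2) ≤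
AL_{l1} (KD d (κ' r'_{j'}(l1))) ^ (1/2)^(d-1) ≤ (AL_{l1} KD d (κ' rn d lab r l1 s)) ^ (1/2)^(d-1)` (`C1_root`) and `C1_lin` bounds the average by
`(KD (d + 1) (κ r_j)) ^ (1/2)`. -/
theorem B7_EP (d q ρ n : ℕ) (hd : 1 ≤ d) (lab : List ℕ) (hlab : ∀ k ∈ lab, k < q)
    (c : (Fin (2 ^ lab.length - 1) → ℤ) → Fin n → List ℤ → ℤ)
    (h2 : EP d (2 ^ lab.length - 1) ρ n c) : EP (d + 1) q (lab.length + ρ) n (cnew (q := q) d lab c) := by
  intro k
  obtain ⟨κ', hκ', j', hE⟩ := h2 k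
  have hj' := j'.isLt
  have hslt : (j' : ℕ) + 1 < 2 ^ lab.length := by omega
  obtain ⟨i, hi⟩ : ∃ i, ((j' : ℕ) + 1).testBit i = true := Nat.exists_testBit_of_ne_zero (by omega)
  have hil : i < lab.length := by
    by_contra hc
    push Not at hc
    have h3 : (j' : ℕ) + 1 < 2 ^ i := lt_of_lt_of_le hslt (Nat.pow_le_pow_right (by norm_num) hc)
    have h4 := Nat.testBit_lt_two_pow h3
    rw [hi] at h4
    exact Bool.noConfusion h4
  have hjq : lab.getD i 0 < q := by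
    rw [List.getD_eq_getElem _ _ hil]
    exact hlab _ (List.getElem_mem hil)
  refine ⟨κ' * ((d : ℤ) + 1), mul_ne_zero hκ' (by omega), ⟨lab.getD i 0, hjq⟩, ?_⟩
  intro M X _ χ r
  have hr : (List.ofFn r).getD (lab.getD i 0) 0 = r ⟨lab.getD i 0, hjq⟩ := by
    rw [List.getD_eq_getElem _ _ (by rw [List.length_ofFn]; exact hjq), List.getElem_ofFn]
  have e1 : (AL X (lab.length + ρ) fun l => KD X χ 1 (cnew (q := q) d lab c r k l)) =
      AL X lab.length fun l1 => AL X ρ fun l2 => KD X χ 1 (c (fun j => rn d lab r l1 (j + 1)) k l2) := by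
    rw [AL_add]
    refine AL_congr X _ fun l1 hl1 => AL_congr X _ fun l2 _ => ?_
    unfold cnew
    rw [List.take_left' hl1, List.drop_left' hl1]
  rw [e1]
  have e2 : (AL X lab.length fun l1 => AL X ρ fun l2 => KD X χ 1 (c (fun j => rn d lab r l1 (j + 1)) k l2)) ≤
      AL X lab.length fun l1 => (KD X χ d (κ' * rn d lab r l1 ((j' : ℕ) + 1))) ^ ((1 / 2 : ℝ) ^ (d - 1)) :=
    AL_mono X _ fun l1 _ => hE M X χ (fun j => rn d lab r l1 (j + 1))
  refine e2.trans ?_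
  refine (C1_root X lab.length (d - 1) (F := fun l1 => KD X χ d (κ' * rn d lab r l1 ((j' : ℕ) + 1)))
    fun l => KD_nonneg X χ d _).trans ?_
  have e3 := C1_lin X χ d hd lab r κ' ((j' : ℕ) + 1) i hil hi
  rw [hr] at e3
  have e4 : 0 ≤ AL X lab.length fun l => KD X χ d (κ' * rn d lab r l ((j' : ℕ) + 1)) :=
    AL_nonneg X _ fun l _ => KD_nonneg X χ d _
  refine (Real.rpow_le_rpow e4 e3 (by positivity)).trans (le_of_eq ?_)
  rw [← Real.rpow_mul (KD_nonneg X χ (d + 1) _)]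
  congr 1
  rw [Nat.add_sub_cancel]
  obtain ⟨m, rfl⟩ : ∃ m, d = m + 1 := ⟨d - 1, by omega⟩
  rw [Nat.add_sub_cancel, pow_succ]
  ring

/-- **B7c. PET and energy.** Induction on `d ≥ 1` (for all `q`): `B4_all`, `B6_FU`, `B6_EP`, `B7_FU`, `B7_EP`. -/
theorem B7_all (d : ℕ) (hd : 1 ≤ d) : ∀ q : ℕ, ∃ (ρ n E : ℕ) (K : ℝ) (c : (Fin q → ℤ) → Fin n → List ℤ → ℤ),
    0 < E ∧ 0 ≤ K ∧ FU d q ρ n E K c ∧ EP d q ρ n c := by
  induction d, hd using Nat.le_induction with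
  | base =>
    intro q
    obtain ⟨lab, hlab, hKF⟩ := (B4_all 1).2 (List.replicate q 1)
    rw [List.length_replicate] at hlab
    exact ⟨0, lab.length, 2 ^ lab.length, 3 ^ (2 ^ lab.length) * 2 ^ lab.length, _, by positivity, by positivity,
      B6_FU q lab hKF, B6_EP q lab hlab⟩
  | succ d hd ih =>
    intro q
    obtain ⟨lab, hlab, hKF⟩ := (B4_all (d + 1)).2 (List.replicate q 1)
    rw [List.length_replicate] at hlab
    obtain ⟨ρ, n, E, K, c, hE, hK, hFU, hEP⟩ := ih (2 ^ lab.length - 1)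
    exact ⟨lab.length + ρ, n, 2 ^ lab.length * E, 3 ^ (2 ^ lab.length * E) * K, _, by positivity, by positivity,
      B7_FU d q ρ n E K hK lab c hKF hFU, B7_EP d q ρ n hd lab hlab c hEP⟩

end Pool.Agent.HPP
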