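import Pool.Agent.Lib.HPP.A3

/-!
# Project HPP, module B (PET). Definitions

A bystander is a function `A t n`, `t ∈ ℤ/M`, `n ∈ ℤ`, which vanishes unless `0 ≤ n < X`. `EO h W A (t, n) = A(t, n) conj A(t + W(n), n + h)`.
-/

open Finset Polynomial

namespace Pool.Agent.HPP

noncomputable section

/-- Degree at most `d`, coefficient of `x ^ d` equal to `r`. -/
def PD (d : ℕ) (r : ℤ) (R : ℤ[X]) : Prop := R.natDegree ≤ d ∧ R.coeff d = r

/-- The polynomials `W` which occur when a function with a polynomial of degree `≤ d` and leading coefficient `r` is eliminated with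
the shift `h`. -/
def PW : ℕ → ℤ → ℤ → ℤ[X] → Prop
  | 0, _, _, W => W = 0
  | d + 1, h, r, W => PD d (-(((d : ℤ) + 1) * h * r)) W

/-- The elementary operator. -/
def EO {M : ℕ} (h : ℤ) (W : ℤ[X]) (A : ZMod M → ℤ → ℂ) : ZMod M → ℤ → ℂ :=
  fun t n => A t n * (starRingEnd ℂ) (A (t + ((W.eval n : ℤ) : ZMod M)) (n + h))

/-- A list of elementary operators (the head is applied first). -/
def EL {M : ℕ} : List (ℤ × ℤ[X]) → (ZMod M → ℤ → ℂ) → ZMod M → ℤ → ℂ
  | [], A => A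
  | p :: l, A => EL l (EO p.1 p.2 A)

/-- Functions with polynomials. -/
abbrev Fam (M : ℕ) : Type := List ((ZMod M → ℂ) × ℤ[X])

/-- The product of the functions `f(t + R(n))`. -/
def pr {M : ℕ} (L : Fam M) (t : ZMod M) (n : ℤ) : ℂ := (L.map fun p => p.1 (t + ((p.2.eval n : ℤ) : ZMod M))).prod

/-- The family after one elementary operator. -/
def XO {M : ℕ} (h : ℤ) (W : ℤ[X]) (L : Fam M) : Fam M :=
  L ++ L.map fun p => ((fun y => (starRingEnd ℂ) (p.1 y)), W + taylor h p.2)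

/-- The family after a list of elementary operators. -/
def XL {M : ℕ} : List (ℤ × ℤ[X]) → Fam M → Fam M
  | [], L => L
  | p :: l, L => XL l (XO p.1 p.2 L)

/-- The sum over `t` and `0 ≤ n < X`. -/
def SS {M : ℕ} [NeZero M] (X : ℕ) (A : ZMod M → ℤ → ℂ) : ℂ := ∑ t : ZMod M, ∑ n ∈ Ico (0 : ℤ) X, A t n

/-- Vanishes unless `0 ≤ n < X`. -/
def Vn {M : ℕ} (X : ℕ) (A : ZMod M → ℤ → ℂ) : Prop := ∀ t n, n ∉ Ico (0 : ℤ) X → A t n = 0

/-- A class: functions in `FN N`, polynomials of degree `≤ d` with the same coefficient `r` of `x ^ d`. -/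
def Cls {M : ℕ} (N : ℝ) (d : ℕ) (r : ℤ) (L : Fam M) : Prop := ∀ p ∈ L, FN N p.1 ∧ PD d r p.2

/-- **Elimination of one class** with `s` functions in `ρ` steps. -/
def KC (d s ρ : ℕ) : Prop := ∀ (M : ℕ) [NeZero M] (X : ℕ) (N : ℝ), 0 < X → 0 < N → ∀ (r : ℤ) (L : Fam M), L.length = s →
  Cls N d r L → ∀ A : ZMod M → ℤ → ℂ, Vn X A → ∃ W : List ℤ → List ℤ[X],
    (∀ l : List ℤ, l.length = ρ → List.Forall₂ (fun h w => PW d h r w) l (W l)) ∧
    (‖SS X fun t n => A t n * pr L t n‖ / (N * X)) ^ (2 ^ ρ) ≤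
      3 ^ (2 ^ ρ - 1) * AL X ρ fun l => ‖SS X (EL (l.zip (W l)) A)‖ / (N * X)

/-- **Elimination of several classes** `C = [(r_1, L_1), …]` with the sizes in the list `sz`; `lab` is the list of the labels
(positions of classes) of the steps. -/
def KF (d : ℕ) (sz lab : List ℕ) : Prop := ∀ (M : ℕ) [NeZero M] (X : ℕ) (N : ℝ), 0 < X → 0 < N → ∀ C : List (ℤ × Fam M),
  (C.map fun c => c.2.length) = sz → (∀ c ∈ C, Cls N d c.1 c.2) → ∀ A : ZMod M → ℤ → ℂ, Vn X A → ∃ W : List ℤ → List ℤ[X],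
    (∀ l : List ℤ, l.length = lab.length → (W l).length = lab.length ∧
      List.Forall₂ (fun (p : ℤ × ℤ[X]) (k : ℕ) => PW d p.1 ((C.map Prod.fst).getD k 0) p.2) (l.zip (W l)) lab) ∧
    (‖SS X fun t n => A t n * (C.map fun c => pr c.2 t n).prod‖ / (N * X)) ^ (2 ^ lab.length) ≤
      3 ^ (2 ^ lab.length - 1) * AL X lab.length fun l => ‖SS X (EL (l.zip (W l)) A)‖ / (N * X)

/-- The coefficients of `x ^ d` of the copies of the target after the elimination of functions of degree `≤ d + 1` with leading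
coefficients `r` (labels `lab`, parameters `l`): copy number `j` (binary digits = set of steps). -/
def rn (d : ℕ) {q : ℕ} (lab : List ℕ) (r : Fin q → ℤ) (l : List ℤ) (j : ℕ) : ℤ :=
  -(((d : ℤ) + 1) * ∑ i ∈ range lab.length, if j.testBit i then l.getD i 0 * (List.ofFn r).getD (lab.getD i 0) 0 else 0)

/-- **The complete elimination** (inequality): `q` functions of degree `≤ d` with leading coefficients `r`; `ρ` parameters, `n` directions
`c r k l`. -/
def FU (d q ρ n E : ℕ) (K : ℝ) (c : (Fin q → ℤ) → Fin n → List ℤ → ℤ) : Prop :=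
  ∀ (M : ℕ) [NeZero M] (X : ℕ) (N : ℝ), 0 < X → 0 < N → ∀ (r : Fin q → ℤ) (f : Fin q → ZMod M → ℂ) (R : Fin q → ℤ[X]),
    (∀ j, FN N (f j) ∧ PD d (r j) (R j)) → ∀ f0 : ZMod M → ℂ, FN N f0 → ∀ a b : ℤ, 0 ≤ a → b ≤ X →
    (‖∑ t : ZMod M, ∑ n ∈ Ico a b, f0 t * ∏ j, f j (t + (((R j).eval n : ℤ) : ZMod M))‖ / (N * X)) ^ E ≤
      K * AL X ρ fun l => NN (List.ofFn fun k => cdir M X (c r k l)) f0 / N

/-- Iterated one-sided differences. -/
def DI {M : ℕ} : List (ZMod M) → (ZMod M → ℂ) → ZMod M → ℂ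
  | [], f => f
  | w :: l, f => DI l (D2 0 w f)

/-- **The energy of the directions.** -/
def EP (d q ρ n : ℕ) (c : (Fin q → ℤ) → Fin n → List ℤ → ℤ) : Prop :=
  ∀ k : Fin n, ∃ κ : ℤ, κ ≠ 0 ∧ ∃ j : Fin q, ∀ (M X : ℕ) [NeZero M] (χ : AddChar (ZMod M) ℂ) (r : Fin q → ℤ),
    (AL X ρ fun l => KD X χ 1 (c r k l)) ≤ (KD X χ d (κ * r j)) ^ ((1 / 2 : ℝ) ^ (d - 1))

end

end Pool.Agent.HPP
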