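import Pool.Agent.Lib.HPP.B1

/-!
# Project HPP, C1 (M): the functions `KD`
-/

open Finset

namespace Pool.Agent.HPP

variable {M : ℕ} [NeZero M] (X : ℕ) (χ : AddChar (ZMod M) ℂ)

/-- a character times a conjugate value -/
theorem c1_char (x a b : ℤ) : χ ((x * a : ℤ) : ZMod M) * (starRingEnd ℂ) (χ ((x * b : ℤ) : ZMod M)) =
    χ ((x * (a - b) : ℤ) : ZMod M) := by
  rw [← AddChar.map_neg_eq_conj, ← AddChar.map_add_eq_mul]
  congr 1
  push_cast
  ring

/-- Adding a first coordinate. -/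
theorem c1_cons (d : ℕ) (F : (Fin (d + 1) → Iv X × Iv X) → ℂ) :
    avc F = avc fun p : Iv X × Iv X => avc fun P : Fin d → Iv X × Iv X => F (Fin.cons p P) := by
  rw [← avc_equiv (Fin.consEquiv fun _ : Fin (d + 1) => Iv X × Iv X) F, avc_prod]
  rfl

theorem c1_consr (d : ℕ) (F : (Fin (d + 1) → Iv X × Iv X) → ℝ) :
    av F = av fun p : Iv X × Iv X => av fun P : Fin d → Iv X × Iv X => F (Fin.cons p P) := by
  rw [← av_equiv (Fin.consEquiv fun _ : Fin (d + 1) => Iv X × Iv X) F, av_prod]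
  rfl

/-- The product after adding a first coordinate. -/
theorem c1_prod (d : ℕ) (x : ℤ) (p : Iv X × Iv X) (P : Fin d → Iv X × Iv X) :
    x * ∏ i, ((((Fin.cons p P : Fin (d + 1) → Iv X × Iv X) i).1 : ℤ) -
      (((Fin.cons p P : Fin (d + 1) → Iv X × Iv X) i).2 : ℤ)) =
    x * ((p.1 : ℤ) - (p.2 : ℤ)) * ∏ i, (((P i).1 : ℤ) - ((P i).2 : ℤ)) := by
  rw [Fin.prod_univ_succ]
  simp only [Fin.cons_zero, Fin.cons_succ]
  ring

/-- `0 ≤ KD ≤ 1`. -/
theorem KD_nonneg (d : ℕ) (x : ℤ) : 0 ≤ KD X χ d x := by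
  induction d generalizing x with
  | zero => exact zero_le_one
  | succ d ih =>
    cases d with
    | zero => exact sq_nonneg _
    | succ d => exact av_nonneg fun p => ih _

theorem KD_le (d : ℕ) (x : ℤ) : KD X χ d x ≤ 1 := by
  induction d generalizing x with
  | zero => exact le_refl _
  | succ d ih =>
    cases d with
    | zero =>
      have h1 : ‖avc fun m : Iv X => χ ((x * (m : ℤ) : ℤ) : ZMod M)‖ ≤ 1 := by
        refine (norm_avc_le _).trans (av_le fun m => ?_)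
        rw [AddChar.norm_apply]
      exact pow_le_one₀ (norm_nonneg _) h1
    | succ d => exact av_le fun p => ih _

/-- `KD` as an average of characters: `d ≥ 1`. Induction on `d`: `d = 1`: `avc_mul_conj` (`χ a conj (χ b) = χ (a - b)`); step: `av_ofReal`, `Fin.consEquiv`. -/
theorem KD_char (d : ℕ) (hd : 1 ≤ d) (x : ℤ) : ((KD X χ d x : ℝ) : ℂ) =
    avc fun P : Fin d → Iv X × Iv X => χ ((x * ∏ i, (((P i).1 : ℤ) - ((P i).2 : ℤ)) : ℤ) : ZMod M) := by
  obtain ⟨e, rfl⟩ : ∃ e, d = e + 1 := ⟨d - 1, by omega⟩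
  clear hd
  induction e generalizing x with
  | zero =>
    have h0 : KD X χ (0 + 1) x = ‖avc fun m : Iv X => χ ((x * (m : ℤ) : ℤ) : ZMod M)‖ ^ 2 := rfl
    rw [h0, Complex.ofReal_pow, ← Complex.mul_conj', avc_mul_conj, c1_cons]
    congr 1
    funext p
    have h1 : ∀ P : Fin 0 → Iv X × Iv X,
        χ ((x * ∏ i, ((((Fin.cons p P : Fin (0 + 1) → Iv X × Iv X) i).1 : ℤ) -
          (((Fin.cons p P : Fin (0 + 1) → Iv X × Iv X) i).2 : ℤ)) : ℤ) : ZMod M) =
        χ ((x * ((p.1 : ℤ) - (p.2 : ℤ)) : ℤ) : ZMod M) := by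
      intro P
      rw [c1_prod]
      congr 2
      simp
    simp only [h1]
    rw [avc_const, c1_char]
  | succ e ih =>
    have h0 : KD X χ (e + 1 + 1) x = av fun p : Iv X × Iv X => KD X χ (e + 1) (x * ((p.1 : ℤ) - (p.2 : ℤ))) := rfl
    rw [h0, av_ofReal, c1_cons]
    congr 1
    funext p
    rw [ih]
    congr 1
    funext P
    rw [c1_prod]

/-- `KD (d + 1)` as an average of `KD 1`. Induction on `d`. -/
theorem KD_one (d : ℕ) (x : ℤ) : KD X χ (d + 1) x =
    av fun P : Fin d → Iv X × Iv X => KD X χ 1 (x * ∏ i, (((P i).1 : ℤ) - ((P i).2 : ℤ))) := by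
  induction d generalizing x with
  | zero =>
    have h1 : ∀ P : Fin 0 → Iv X × Iv X, KD X χ 1 (x * ∏ i, (((P i).1 : ℤ) - ((P i).2 : ℤ))) = KD X χ 1 x := by
      intro P
      rw [Fin.prod_univ_zero, mul_one]
    simp only [h1]
    rw [av_const]
  | succ e ih =>
    have h0 : KD X χ (e + 1 + 1) x = av fun p : Iv X × Iv X => KD X χ (e + 1) (x * ((p.1 : ℤ) - (p.2 : ℤ))) := rfl
    rw [h0, c1_consr]
    congr 1
    funext p
    rw [ih]
    congr 1
    funext P
    rw [c1_prod]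

/-- `KD` is even (conjugation). -/
theorem KD_neg (d : ℕ) (x : ℤ) : KD X χ d (-x) = KD X χ d x := by
  induction d generalizing x with
  | zero => rfl
  | succ d ih =>
    cases d with
    | zero =>
      have h0 : ∀ y : ℤ, KD X χ (0 + 1) y = ‖avc fun m : Iv X => χ ((y * (m : ℤ) : ℤ) : ZMod M)‖ ^ 2 := fun y => rfl
      rw [h0, h0]
      congr 1
      have h1 : (avc fun m : Iv X => χ ((-x * (m : ℤ) : ℤ) : ZMod M)) =
          (starRingEnd ℂ) (avc fun m : Iv X => χ ((x * (m : ℤ) : ℤ) : ZMod M)) := by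
        rw [avc_star]
        congr 1
        funext m
        rw [← AddChar.map_neg_eq_conj]
        congr 1
        push_cast
        ring
      rw [h1, Complex.norm_conj]
    | succ d =>
      have h0 : ∀ y : ℤ, KD X χ (d + 1 + 1) y =
          av fun p : Iv X × Iv X => KD X χ (d + 1) (y * ((p.1 : ℤ) - (p.2 : ℤ))) := fun y => rfl
      rw [h0, h0]
      congr 1
      funext p
      rw [neg_mul, ih]

/-- Jensen for roots: `av (F ^ s) ≤ (av F) ^ s` for `s = (1/2) ^ m`: with `G = F ^ s`, `(av G) ^ (2 ^ m) ≤ av (G ^ (2 ^ m)) = av F` (`AL_pow`). -/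
theorem C1_root (X ρ m : ℕ) {F : List ℤ → ℝ} (h : ∀ l, 0 ≤ F l) :
    (AL X ρ fun l => F l ^ ((1 / 2 : ℝ) ^ m)) ≤ (AL X ρ F) ^ ((1 / 2 : ℝ) ^ m) := by
  set s : ℝ := (1 / 2 : ℝ) ^ m with hs
  have hs0 : 0 ≤ s := by positivity
  have hs1 : s * ((2 ^ m : ℕ) : ℝ) = 1 := by
    rw [hs]
    push_cast
    rw [← mul_pow]
    norm_num
  have hG : ∀ l, 0 ≤ F l ^ s := fun l => Real.rpow_nonneg (h l) s
  have h1 := AL_pow X ρ (2 ^ m) hG
  have h2 : (fun l => (F l ^ s) ^ (2 ^ m)) = F := by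
    funext l
    rw [← Real.rpow_natCast, ← Real.rpow_mul (h l), hs1, Real.rpow_one]
  rw [h2] at h1
  have h3 : 0 ≤ AL X ρ fun l => F l ^ s := AL_nonneg X ρ fun l _ => hG l
  calc (AL X ρ fun l => F l ^ s) = ((AL X ρ fun l => F l ^ s) ^ (2 ^ m)) ^ s := by
        rw [← Real.rpow_natCast, ← Real.rpow_mul h3, mul_comm, hs1, Real.rpow_one]
    _ ≤ (AL X ρ F) ^ s := Real.rpow_le_rpow (pow_nonneg h3 _) h1 hs0

end Pool.Agent.HPP
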