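import Pool.Agent.Lib.HPP.A3

/-!
# Project HPP, C2 (M): box averages against the Gowers norm and the energies
-/

open Finset

namespace Pool.Agent.HPP

variable {G : Type} [AddCommGroup G] [Fintype G]

theorem c2_nonneg : ∀ (s : ℕ) (f : G → ℂ), 0 ≤ Gs s f
  | 0, _ => norm_nonneg _
  | 1, _ => sq_nonneg _
  | s + 2, _ => sum_nonneg fun _ _ => c2_nonneg (s + 1) _

theorem c2_trans : ∀ (s : ℕ) (f : G → ℂ) (c : G), Gs s (fun y => f (y + c)) = Gs s f
  | 0, f, c => by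
    show ‖∑ y, f (y + c)‖ = ‖∑ y, f y‖
    rw [sum_trans f c]
  | 1, f, c => by
    show ‖∑ y, f (y + c)‖ ^ 2 = ‖∑ y, f y‖ ^ 2
    rw [sum_trans f c]
  | s + 2, f, c => by
    show ∑ u, Gs (s + 1) (D2 0 u (fun y => f (y + c))) = ∑ u, Gs (s + 1) (D2 0 u f)
    refine sum_congr rfl fun u _ => ?_
    rw [D2_trans]
    exact c2_trans (s + 1) (D2 0 u f) c

theorem Gs_nonneg (s : ℕ) (f : G → ℂ) : 0 ≤ Gs s f := by
  exact c2_nonneg s f

/-- Translation invariance. -/
theorem Gs_trans (s : ℕ) (f : G → ℂ) (c : G) : Gs s (fun y => f (y + c)) = Gs s f := by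
  exact c2_trans s f c

/-- **C2a.** The energy as a mean over characters. Proof. `‖ft d χ‖² = av_{x, x'} χ(a x - a x')` (`avc_mul_conj`), sum over all characters:
`AddChar.sum_apply_eq_ite`; `card (AddChar G ℂ) = card G` (`AddChar.card_eq`). -/
theorem en_ft [DecidableEq G] (d : Dir G) : en d = (∑ χ : AddChar G ℂ, ‖ft d χ‖ ^ 2) / Fintype.card G := by
  have hc : (0 : ℝ) < Fintype.card G := Nat.cast_pos.2 Fintype.card_pos
  have h1 : ∀ χ : AddChar G ℂ, ((‖ft d χ‖ ^ 2 : ℝ) : ℂ) = avc fun p : d.ι × d.ι => χ (d.a p.1 - d.a p.2) := by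
    intro χ
    rw [← Complex.normSq_eq_norm_sq, ← Complex.mul_conj]
    unfold ft
    rw [avc_mul_conj]
    refine congrArg avc (funext fun p => ?_)
    rw [sub_eq_add_neg, AddChar.map_add_eq_mul, AddChar.map_neg_eq_conj]
  have h2 : ((∑ χ : AddChar G ℂ, ‖ft d χ‖ ^ 2 : ℝ) : ℂ) = (Fintype.card G : ℂ) * ((en d : ℝ) : ℂ) := by
    rw [Complex.ofReal_sum, sum_congr rfl fun χ _ => h1 χ, ← avc_sum]
    unfold en
    rw [av_ofReal, ← avc_mul_left]
    refine congrArg avc (funext fun p => ?_)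
    rw [AddChar.sum_apply_eq_ite]
    by_cases h : d.a p.1 = d.a p.2
    · rw [if_pos h, if_pos (sub_eq_zero.2 h)]
      simp
    · rw [if_neg h, if_neg (sub_ne_zero.2 h)]
      simp
  have h3 : (∑ χ : AddChar G ℂ, ‖ft d χ‖ ^ 2) = Fintype.card G * en d := by exact_mod_cast h2
  rw [h3, mul_div_cancel_left₀ _ hc.ne']

/-- The number of pairs with a given difference is at most the number of pairs which agree. -/
theorem c2_pairs [DecidableEq G] {ι : Type} [Fintype ι] (a : ι → G) (u : G) :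
    (∑ p : ι × ι, if a p.2 - a p.1 = u then (1 : ℝ) else 0) ≤ ∑ p : ι × ι, if a p.1 = a p.2 then (1 : ℝ) else 0 := by
  let μ : G → ℝ := fun v => ∑ x, if a x = v then (1 : ℝ) else 0
  have key : ∀ w : G, (∑ p : ι × ι, if a p.2 - a p.1 = w then (1 : ℝ) else 0) = ∑ v, μ v * μ (v + w) := by
    intro w
    have e1 : ∀ v, μ v * μ (v + w) = ∑ x, ∑ x', (if a x = v then (1 : ℝ) else 0) * (if a x' = v + w then (1 : ℝ) else 0) :=
      fun v => sum_mul_sum _ _ _ _
    rw [sum_congr rfl fun v _ => e1 v, sum_comm, Fintype.sum_prod_type]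
    refine sum_congr rfl fun x _ => ?_
    rw [sum_comm]
    refine sum_congr rfl fun x' _ => ?_
    simp only [ite_mul, one_mul, zero_mul]
    rw [sum_ite_eq]
    simp only [mem_univ, if_true]
    refine if_congr ?_ rfl rfl
    constructor
    · intro h
      rw [← h]
      abel
    · intro h
      rw [h]
      abel
  have e2 : (∑ p : ι × ι, if a p.1 = a p.2 then (1 : ℝ) else 0) = ∑ v, μ v * μ v := by
    have h0 := key 0
    simp only [add_zero] at h0
    rw [← h0]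
    refine sum_congr rfl fun p _ => if_congr ?_ rfl rfl
    rw [sub_eq_zero]
    exact eq_comm
  rw [key u, e2]
  have e3 : ∑ v, μ (v + u) * μ (v + u) = ∑ v, μ v * μ v := Equiv.sum_comp (Equiv.addRight u) fun v => μ v * μ v
  have e4 : ∑ v, μ v * μ (v + u) ≤ ∑ v, (μ v * μ v + μ (v + u) * μ (v + u)) / 2 :=
    sum_le_sum fun v _ => by nlinarith [sq_nonneg (μ v - μ (v + u))]
  rw [← sum_div, sum_add_distrib, e3] at e4
  linarith

/-- **C2b.** One direction: for `Φ ≥ 0` on `G`: `av_{x, x'} Φ(a x' - a x) ≤ (en d) ^ (1/2) (∑_u Φ(u)²) ^ (1/2)`. Proof. With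
`ρ(u) = av_{x, x'} [a x' - a x = u]`: `∑_u ρ(u) Φ(u) ≤ (∑ ρ²)^(1/2) (∑ Φ²)^(1/2)` and `∑_u ρ(u)² ≤ en d`, because
`ρ(u) ≤ en d`: `ρ(u) = ∑_v μ(v) μ(v + u) ≤ ∑ μ²  = en d` (Cauchy-Schwarz, `μ(v) = av_x [a x = v]`) and `∑ ρ = 1`. -/
theorem C2_one [DecidableEq G] (d : Dir G) (Φ : G → ℝ) (hΦ : ∀ u, 0 ≤ Φ u) :
    (av fun p : d.ι × d.ι => Φ (d.a p.2 - d.a p.1)) ≤ √(en d) * √(∑ u, Φ u ^ 2) := by
  have hn : (0 : ℝ) < Fintype.card (d.ι × d.ι) := Nat.cast_pos.2 Fintype.card_pos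
  let ρ : G → ℝ := fun u => (∑ p : d.ι × d.ι, if d.a p.2 - d.a p.1 = u then (1 : ℝ) else 0) / Fintype.card (d.ι × d.ι)
  have hρ0 : ∀ u, 0 ≤ ρ u := fun u => div_nonneg (sum_nonneg fun p _ => by split_ifs <;> norm_num) hn.le
  have hρ1 : ∀ u, ρ u ≤ en d := fun u => by
    show _ / _ ≤ av _
    unfold av
    exact div_le_div_of_nonneg_right (c2_pairs d.a u) hn.le
  have hρ2 : ∑ u, ρ u = 1 := by
    show ∑ u, (∑ p : d.ι × d.ι, if d.a p.2 - d.a p.1 = u then (1 : ℝ) else 0) / Fintype.card (d.ι × d.ι) = 1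
    rw [← sum_div, sum_comm, div_eq_one_iff_eq hn.ne']
    simp only [sum_ite_eq, mem_univ, if_true, sum_const, card_univ, nsmul_eq_mul, mul_one]
  have hρ3 : (av fun p : d.ι × d.ι => Φ (d.a p.2 - d.a p.1)) = ∑ u, ρ u * Φ u := by
    show _ = ∑ u, (∑ p : d.ι × d.ι, if d.a p.2 - d.a p.1 = u then (1 : ℝ) else 0) / Fintype.card (d.ι × d.ι) * Φ u
    unfold av
    simp only [div_mul_eq_mul_div]
    rw [← sum_div]
    congr 1
    simp only [sum_mul]
    rw [sum_comm]
    refine sum_congr rfl fun p _ => ?_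
    simp only [ite_mul, one_mul, zero_mul, sum_ite_eq, mem_univ, if_true]
  have hen : 0 ≤ en d := (hρ0 0).trans (hρ1 0)
  rw [hρ3]
  refine (Real.sum_mul_le_sqrt_mul_sqrt univ ρ Φ).trans (mul_le_mul_of_nonneg_right ?_ (Real.sqrt_nonneg _))
  refine Real.sqrt_le_sqrt ?_
  calc ∑ u, ρ u ^ 2 ≤ ∑ u, en d * ρ u := sum_le_sum fun u _ => by
        rw [sq]
        exact mul_le_mul_of_nonneg_right (hρ1 u) (hρ0 u)
    _ = en d := by rw [← mul_sum, hρ2, mul_one]

/-- **C2.** Proof. Induction on `L` (generalise `f`). `[]`: `Gs 1 f = ‖∑ f‖²`. `d :: L`: `NN_cons`, `D2 (a x) (a x') f` is a translate of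
`D2 0 (a x' - a x) f` (`D2_zero`, `NN_trans`); induction hypothesis; `C2_one` with `Φ u = √(Gs (L.length + 1) (D2 0 u f))`,
`∑_u Φ(u)² = Gs (L.length + 2) f`. -/
theorem C2_main [DecidableEq G] (L : List (Dir G)) : ∀ f : G → ℂ,
    NN L f ≤ (L.map fun d => √(en d)).prod * √(Gs (L.length + 1) f) := by
  induction L with
  | nil =>
    intro f
    rw [NN_nil]
    show ‖∑ y, f y‖ ≤ 1 * √(‖∑ y, f y‖ ^ 2)
    rw [one_mul, Real.sqrt_sq (norm_nonneg _)]
  | cons d L ih =>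
    intro f
    have hP : 0 ≤ (L.map fun d => √(en d)).prod := by
      refine List.prod_nonneg fun x hx => ?_
      obtain ⟨e, -, rfl⟩ := List.mem_map.1 hx
      exact Real.sqrt_nonneg _
    have h1 : ∀ p : d.ι × d.ι, NN L (D2 (d.a p.1) (d.a p.2) f) = NN L (D2 0 (d.a p.2 - d.a p.1) f) := by
      intro p
      have e : D2 (d.a p.1) (d.a p.2) f = fun y => D2 0 (d.a p.2 - d.a p.1) f (y + d.a p.1) :=
        funext fun y => D2_zero _ _ f y
      rw [e, NN_trans]
    rw [NN_cons]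
    calc (av fun p : d.ι × d.ι => NN L (D2 (d.a p.1) (d.a p.2) f))
        ≤ av fun p : d.ι × d.ι => (L.map fun d => √(en d)).prod *
            (fun u => √(Gs (L.length + 1) (D2 0 u f))) (d.a p.2 - d.a p.1) :=
          av_mono fun p => by
            rw [h1 p]
            exact ih _
      _ = (L.map fun d => √(en d)).prod * av fun p : d.ι × d.ι =>
            (fun u => √(Gs (L.length + 1) (D2 0 u f))) (d.a p.2 - d.a p.1) := av_mul_left _ _
      _ ≤ (L.map fun d => √(en d)).prod * (√(en d) * √(∑ u, (fun u => √(Gs (L.length + 1) (D2 0 u f))) u ^ 2)) :=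
          mul_le_mul_of_nonneg_left (C2_one d (fun u => √(Gs (L.length + 1) (D2 0 u f))) fun u => Real.sqrt_nonneg _) hP
      _ = ((d :: L).map fun d => √(en d)).prod * √(Gs ((d :: L).length + 1) f) := by
          have e : ∑ u, (fun u => √(Gs (L.length + 1) (D2 0 u f))) u ^ 2 = Gs ((d :: L).length + 1) f := by
            show ∑ u, √(Gs (L.length + 1) (D2 0 u f)) ^ 2 = ∑ u, Gs (L.length + 1) (D2 0 u f)
            exact sum_congr rfl fun u _ => Real.sq_sqrt (Gs_nonneg _ _)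
          rw [e, List.map_cons, List.prod_cons]
          ring

end Pool.Agent.HPP
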