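import Pool.Agent.Lib.HPP.C2

/-!
# Project HPP, C3 (S/M): Markov
-/

open Finset

namespace Pool.Agent.HPP

variable {G : Type} [AddCommGroup G] [Fintype G]

theorem c3_en_nonneg {G : Type} [DecidableEq G] (d : Dir G) : 0 ≤ en d := by
  unfold en
  refine av_nonneg fun p => ?_
  split_ifs <;> norm_num

/-- **C3.** Proof. For every `j`: if all `en (δ k j) ≤ lam` then `NN ≤ lam ^ (n/2) √(Gs (n+1) f)` (`C2_main`, `List.map_ofFn`,
`List.prod_ofFn`, product of `n` numbers `≤ √lam`); otherwise `NN ≤ N ≤ N ∑_k en (δ k j) / lam` (`NN_le`; one term is `≥ 1`). So always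
`NN / N ≤ (∑_k en (δ k j)) / lam + √lam ^ n √(Gs (n+1) f) / N`; take averages (`av_add`, `av_sum`). -/
theorem C3_markov [DecidableEq G] {N : ℝ} (hN : 0 < N) {J : Type} [Fintype J] [Nonempty J] (n : ℕ) (δ : Fin n → J → Dir G)
    (lam : ℝ) (hlam : 0 < lam) (f : G → ℂ) (hf : FN N f) :
    (av fun j => NN (List.ofFn fun k => δ k j) f) / N ≤
      (∑ k, av fun j => en (δ k j)) / lam + √lam ^ n * √(Gs (n + 1) f) / N := by
  have hpt : ∀ j, NN (List.ofFn fun k => δ k j) f / N ≤
      (∑ k, en (δ k j)) / lam + √lam ^ n * √(Gs (n + 1) f) / N := by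
    intro j
    have hsum : 0 ≤ ∑ k, en (δ k j) := Finset.sum_nonneg fun k _ => c3_en_nonneg _
    have hlast : 0 ≤ √lam ^ n * √(Gs (n + 1) f) / N := by positivity
    by_cases hall : ∀ k, en (δ k j) ≤ lam
    · have h1 := C2_main (List.ofFn fun k => δ k j) f
      rw [List.map_ofFn, List.prod_ofFn, List.length_ofFn] at h1
      have h2 : ∏ k, ((fun d : Dir G => √(en d)) ∘ fun k => δ k j) k ≤ √lam ^ n := by
        refine (Finset.prod_le_prod (fun k _ => Real.sqrt_nonneg _) fun k _ => Real.sqrt_le_sqrt (hall k)).trans ?_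
        simp
      have h3 : NN (List.ofFn fun k => δ k j) f ≤ √lam ^ n * √(Gs (n + 1) f) :=
        h1.trans (mul_le_mul_of_nonneg_right h2 (Real.sqrt_nonneg _))
      have h4 := div_le_div_of_nonneg_right h3 hN.le
      have h5 : 0 ≤ (∑ k, en (δ k j)) / lam := by positivity
      linarith
    · push Not at hall
      obtain ⟨k, hk⟩ := hall
      have h1 : lam ≤ ∑ k, en (δ k j) :=
        hk.le.trans (Finset.single_le_sum (f := fun k => en (δ k j)) (fun i _ => c3_en_nonneg _) (Finset.mem_univ k))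
      have h2 : 1 ≤ (∑ k, en (δ k j)) / lam := by
        rw [le_div_iff₀ hlam]
        linarith
      have h3 : NN (List.ofFn fun k => δ k j) f / N ≤ 1 := by
        rw [div_le_one hN]
        exact NN_le _ hf
      linarith
  rw [← av_div]
  refine (av_mono hpt).trans (le_of_eq ?_)
  rw [av_add, av_div, av_const, av_sum]

end Pool.Agent.HPP
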