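import Pool.Agent.Lib.HPP.C4a

/-!
# Project HPP, C4 (M): the sum of products; the mean over the characters
-/

open Finset

namespace Pool.Agent.HPP

/-- The average of a product of complex functions of independent variables. -/
theorem avc_pi_prod {d : ℕ} {α : Type*} [Fintype α] (g : Fin d → α → ℂ) :
    (avc fun P : Fin d → α => ∏ i, g i (P i)) = ∏ i, avc (g i) := by
  classical
  unfold avc
  rw [Finset.prod_div_distrib, Finset.prod_univ_sum, Fintype.piFinset_univ]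
  simp [Finset.card_univ]

/-- One product is nonzero and determined by the others. -/
theorem C4_sum_aux (D : ℕ) (C ε : ℝ) (X : ℕ) (hC : 0 ≤ C)
    (hne : ∀ u : ℤ, u ≠ 0 → pv X D u ≤ C * (X : ℝ) ^ (ε - D)) (a : Fin D) :
    (av fun P : Fin D → Fin D → Iv X × Iv X => if (∏ i, (((P a i).1 : ℤ) - ((P a i).2 : ℤ)) ≠ 0 ∧
      ∑ a, ∏ i, (((P a i).1 : ℤ) - ((P a i).2 : ℤ)) = 0) then (1 : ℝ) else 0) ≤
      C * (X : ℝ) ^ (ε - D) := by
  classical
  have hnn : 0 ≤ C * (X : ℝ) ^ (ε - D) := by positivity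
  obtain ⟨f, hf⟩ : ∃ f : (Fin D → Iv X × Iv X) → ℤ, ∀ x, f x = ∏ i, (((x i).1 : ℤ) - ((x i).2 : ℤ)) := ⟨_, fun _ => rfl⟩
  have h1 : (av fun P : Fin D → Fin D → Iv X × Iv X => if (∏ i, (((P a i).1 : ℤ) - ((P a i).2 : ℤ)) ≠ 0 ∧
      ∑ a, ∏ i, (((P a i).1 : ℤ) - ((P a i).2 : ℤ)) = 0) then (1 : ℝ) else 0) =
      av fun p : (Fin D → Iv X × Iv X) × ({j : Fin D // j ≠ a} → (Fin D → Iv X × Iv X)) =>
        if (f p.1 ≠ 0 ∧ f p.1 + ∑ b, f (p.2 b) = 0) then (1 : ℝ) else 0 := by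
    rw [← av_equiv (Equiv.funSplitAt a (Fin D → Iv X × Iv X))]
    congr 1
    funext P
    have h2 : ∑ a, ∏ i, (((P a i).1 : ℤ) - ((P a i).2 : ℤ)) =
        f (P a) + ∑ b : {j : Fin D // j ≠ a}, f (P b) := by
      rw [Fintype.sum_eq_add_sum_subtype_ne (fun b => ∏ i, (((P b i).1 : ℤ) - ((P b i).2 : ℤ))) a]
      simp only [hf]
    rw [h2, ← hf]
    rfl
  rw [h1, av_prod, av_comm]
  apply av_le
  intro Q
  by_cases hQ : ∑ b, f (Q b) = 0
  · have h3 : (av fun x : Fin D → Iv X × Iv X => if (f x ≠ 0 ∧ f x + ∑ b, f (Q b) = 0) then (1 : ℝ) else 0) = 0 := by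
      unfold av
      rw [Finset.sum_eq_zero, zero_div]
      intro x _
      rw [if_neg]
      rintro ⟨h4, h5⟩
      rw [hQ, add_zero] at h5
      exact h4 h5
    exact h3.le.trans hnn
  · refine le_trans ?_ (hne (-∑ b, f (Q b)) (neg_ne_zero.2 hQ))
    unfold pv
    apply av_mono
    intro x
    split_ifs with h4 h5 h5
    · exact le_refl _
    · exfalso
      apply h5
      rw [← hf]
      linarith [h4.2]
    · norm_num
    · exact le_refl _

/-- **C4c. The sum of `D` independent products vanishes with probability `≤ C X^(ε - D)`.** Proof. If all products vanish: probability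
`(pv X D 0) ^ D ≤ (D / X) ^ D` (independence). Otherwise for some `a` the product number `a` is `≠ 0` and equal to minus the sum of the
others: for fixed others probability `≤ C X^(ε - D)` (`C4_ne`): in total `≤ D C X^(ε - D)`. -/
theorem C4_sum (D : ℕ) (hD : 1 ≤ D) (ε : ℝ) (hε : 0 < ε) : ∃ C : ℝ, 0 ≤ C ∧ ∀ X : ℕ, 0 < X →
    (av fun P : Fin D → Fin D → Iv X × Iv X => if ∑ a, ∏ i, (((P a i).1 : ℤ) - ((P a i).2 : ℤ)) = 0 then (1 : ℝ) else 0) ≤
      C * (X : ℝ) ^ (ε - D) := by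
  classical
  obtain ⟨C, hC, hne⟩ := C4_ne D ε hε
  refine ⟨(D : ℝ) ^ D + D * C, by positivity, ?_⟩
  intro X hX
  have hX' : (1 : ℝ) ≤ X := by exact_mod_cast hX
  have hX0 : (0 : ℝ) < X := by linarith
  have h1 : (av fun P : Fin D → Fin D → Iv X × Iv X =>
      if ∑ a, ∏ i, (((P a i).1 : ℤ) - ((P a i).2 : ℤ)) = 0 then (1 : ℝ) else 0) ≤
      av fun P : Fin D → Fin D → Iv X × Iv X =>
        (∏ a, if ∏ i, (((P a i).1 : ℤ) - ((P a i).2 : ℤ)) = 0 then (1 : ℝ) else 0) +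
        ∑ a, if (∏ i, (((P a i).1 : ℤ) - ((P a i).2 : ℤ)) ≠ 0 ∧
          ∑ a, ∏ i, (((P a i).1 : ℤ) - ((P a i).2 : ℤ)) = 0) then (1 : ℝ) else 0 := by
    apply av_mono
    intro P
    have h2 : (0 : ℝ) ≤ ∏ a, if ∏ i, (((P a i).1 : ℤ) - ((P a i).2 : ℤ)) = 0 then (1 : ℝ) else 0 :=
      Finset.prod_nonneg fun a _ => by split_ifs <;> norm_num
    have h3 : (0 : ℝ) ≤ ∑ a, if (∏ i, (((P a i).1 : ℤ) - ((P a i).2 : ℤ)) ≠ 0 ∧
          ∑ a, ∏ i, (((P a i).1 : ℤ) - ((P a i).2 : ℤ)) = 0) then (1 : ℝ) else 0 :=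
      Finset.sum_nonneg fun a _ => by split_ifs <;> norm_num
    split_ifs with h
    · by_cases h4 : ∀ a, ∏ i, (((P a i).1 : ℤ) - ((P a i).2 : ℤ)) = 0
      · have h5 : (∏ a, if ∏ i, (((P a i).1 : ℤ) - ((P a i).2 : ℤ)) = 0 then (1 : ℝ) else 0) = 1 := by
          apply Finset.prod_eq_one
          intro a _
          rw [if_pos (h4 a)]
        rw [h5]
        linarith
      · push Not at h4
        obtain ⟨a, ha⟩ := h4
        have h6 := Finset.single_le_sum (f := fun a : Fin D => if (∏ i, (((P a i).1 : ℤ) - ((P a i).2 : ℤ)) ≠ 0 ∧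
          ∑ a, ∏ i, (((P a i).1 : ℤ) - ((P a i).2 : ℤ)) = 0) then (1 : ℝ) else 0)
          (fun v _ => by split_ifs <;> norm_num) (Finset.mem_univ a)
        have h7 : (1 : ℝ) ≤ if (∏ i, (((P a i).1 : ℤ) - ((P a i).2 : ℤ)) ≠ 0 ∧
          ∑ a, ∏ i, (((P a i).1 : ℤ) - ((P a i).2 : ℤ)) = 0) then (1 : ℝ) else 0 := by
          rw [if_pos ⟨ha, h⟩]
        have h8 := h7.trans h6
        simp only [h, and_true] at h8 ⊢
        linarith
    · linarith
  refine h1.trans ?_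
  rw [av_add, av_sum]
  have h2 : (av fun P : Fin D → Fin D → Iv X × Iv X =>
      ∏ a, if ∏ i, (((P a i).1 : ℤ) - ((P a i).2 : ℤ)) = 0 then (1 : ℝ) else 0) ≤ (D : ℝ) ^ D * (X : ℝ) ^ (ε - D) := by
    rw [av_pi_prod fun _ (x : Fin D → Iv X × Iv X) => if ∏ i, (((x i).1 : ℤ) - ((x i).2 : ℤ)) = 0 then (1 : ℝ) else 0]
    rw [Finset.prod_const, Finset.card_univ, Fintype.card_fin]
    have h3 : (av fun x : Fin D → Iv X × Iv X => if ∏ i, (((x i).1 : ℤ) - ((x i).2 : ℤ)) = 0 then (1 : ℝ) else 0) ≤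
        (D : ℝ) / X := C4_zero X D hX
    have h4 : 0 ≤ (av fun x : Fin D → Iv X × Iv X => if ∏ i, (((x i).1 : ℤ) - ((x i).2 : ℤ)) = 0 then (1 : ℝ) else 0) :=
      av_nonneg fun x => by split_ifs <;> norm_num
    refine (pow_le_pow_left₀ h4 h3 D).trans ?_
    rw [div_pow, div_eq_mul_inv]
    have h5 : ((X : ℝ) ^ D)⁻¹ ≤ (X : ℝ) ^ (ε - D) := by
      rw [← Real.rpow_natCast, ← Real.rpow_neg hX0.le]
      apply Real.rpow_le_rpow_of_exponent_le hX'
      linarith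
    gcongr
  have h3 : ∑ a, (av fun P : Fin D → Fin D → Iv X × Iv X => if (∏ i, (((P a i).1 : ℤ) - ((P a i).2 : ℤ)) ≠ 0 ∧
      ∑ a, ∏ i, (((P a i).1 : ℤ) - ((P a i).2 : ℤ)) = 0) then (1 : ℝ) else 0) ≤ D * (C * (X : ℝ) ^ (ε - D)) := by
    calc _ ≤ ∑ _a : Fin D, (C * (X : ℝ) ^ (ε - D)) := by
          apply Finset.sum_le_sum
          intro a _
          exact C4_sum_aux D C ε X hC (hne X hX) a
      _ = _ := by rw [Finset.sum_const, Finset.card_univ, Fintype.card_fin, nsmul_eq_mul]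
  calc _ ≤ (D : ℝ) ^ D * (X : ℝ) ^ (ε - D) + D * (C * (X : ℝ) ^ (ε - D)) := add_le_add h2 h3
    _ = _ := by ring

/-- **C4d.** Proof. `KD_char`: `(KD D κ) ^ D = avc_{P : Fin D → Fin D → ..} χ(κ ∑_a ∏ ..)` (product of averages, `Finset.prod_univ_sum`; independence),
sum over `χ`: `AddChar.sum_apply_eq_ite`: `M` times the probability that `κ ∑_a ∏ = 0` in `ℤ/M`. As
`|κ ∑| ≤ |κ| D (2X)^D < M` and `κ ≠ 0` this means `∑ = 0`: `C4_sum`. -/
theorem C4_main (D : ℕ) (hD : 1 ≤ D) (ε : ℝ) (hε : 0 < ε) : ∃ C : ℝ, 0 ≤ C ∧ ∀ (M X : ℕ) [NeZero M] (κ : ℤ), 0 < X → κ ≠ 0 →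
    |κ| * D * (2 * X) ^ D < M → (∑ χ : AddChar (ZMod M) ℂ, KD X χ D κ ^ D) / M ≤ C * (X : ℝ) ^ (ε - D) := by
  classical
  obtain ⟨C, hC, hsum⟩ := C4_sum D hD ε hε
  refine ⟨C, hC, ?_⟩
  intro M X _ κ hX hκ hM
  refine le_trans (le_of_eq ?_) (hsum X hX)
  have hM0 : (M : ℂ) ≠ 0 := Nat.cast_ne_zero.2 (NeZero.ne M)
  have hprod : ∀ x : Fin D → Iv X × Iv X, |∏ i, (((x i).1 : ℤ) - ((x i).2 : ℤ))| ≤ (2 * X) ^ D := by
    intro x
    rw [Finset.abs_prod]
    calc ∏ i, |((x i).1 : ℤ) - ((x i).2 : ℤ)| ≤ ∏ _i : Fin D, (2 * (X : ℤ)) := by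
          apply Finset.prod_le_prod
          · intro i _
            exact abs_nonneg _
          · intro i _
            have h2 := Finset.mem_Icc.1 (x i).1.2
            have h3 := Finset.mem_Icc.1 (x i).2.2
            rw [abs_le]
            constructor <;> linarith [h2.1, h2.2, h3.1, h3.2]
      _ = _ := by simp
  have hiff : ∀ P : Fin D → Fin D → Iv X × Iv X,
      (((κ * ∑ a, ∏ i, (((P a i).1 : ℤ) - ((P a i).2 : ℤ)) : ℤ) : ZMod M) = 0) ↔
        ∑ a, ∏ i, (((P a i).1 : ℤ) - ((P a i).2 : ℤ)) = 0 := by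
    intro P
    constructor
    · intro h
      rw [ZMod.intCast_zmod_eq_zero_iff_dvd] at h
      have h1 : |κ * ∑ a, ∏ i, (((P a i).1 : ℤ) - ((P a i).2 : ℤ))| < M := by
        rw [abs_mul]
        refine lt_of_le_of_lt ?_ hM
        have h2 : |∑ a, ∏ i, (((P a i).1 : ℤ) - ((P a i).2 : ℤ))| ≤ D * (2 * X) ^ D := by
          refine (Finset.abs_sum_le_sum_abs _ _).trans ?_
          calc _ ≤ ∑ _a : Fin D, ((2 * X) ^ D : ℤ) := Finset.sum_le_sum fun a _ => hprod (P a)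
            _ = _ := by rw [Finset.sum_const, Finset.card_univ, Fintype.card_fin, nsmul_eq_mul]
        rw [mul_assoc]
        exact mul_le_mul_of_nonneg_left h2 (abs_nonneg κ)
      have h3 := Int.eq_zero_of_abs_lt_dvd h h1
      rcases mul_eq_zero.1 h3 with h4 | h4
      · exact absurd h4 hκ
      · exact h4
    · intro h
      rw [h]
      simp
  have hchar : ∀ χ : AddChar (ZMod M) ℂ, ((KD X χ D κ ^ D : ℝ) : ℂ) =
      avc fun P : Fin D → Fin D → Iv X × Iv X =>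
        χ ((κ * ∑ a, ∏ i, (((P a i).1 : ℤ) - ((P a i).2 : ℤ)) : ℤ) : ZMod M) := by
    intro χ
    rw [Complex.ofReal_pow, KD_char X χ D hD κ]
    have h1 := avc_pi_prod fun (_ : Fin D) (x : Fin D → Iv X × Iv X) =>
      χ ((κ * ∏ i, (((x i).1 : ℤ) - ((x i).2 : ℤ)) : ℤ) : ZMod M)
    rw [Finset.prod_const, Finset.card_univ, Fintype.card_fin] at h1
    rw [← h1]
    congr 1
    funext P
    rw [Finset.mul_sum, Int.cast_sum]
    exact (map_prod χ.toMonoidHom _ _).symm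
  have key : (((∑ χ : AddChar (ZMod M) ℂ, KD X χ D κ ^ D) / M : ℝ) : ℂ) =
      (((av fun P : Fin D → Fin D → Iv X × Iv X =>
        if ∑ a, ∏ i, (((P a i).1 : ℤ) - ((P a i).2 : ℤ)) = 0 then (1 : ℝ) else 0) : ℝ) : ℂ) := by
    rw [av_ofReal]
    push_cast
    simp only [← Complex.ofReal_pow]
    rw [Finset.sum_congr rfl fun χ _ => hchar χ, ← avc_sum, div_eq_mul_inv, ← avc_mul_right]
    congr 1
    funext P
    rw [AddChar.sum_apply_eq_ite, ZMod.card]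
    by_cases h : ∑ a, ∏ i, (((P a i).1 : ℤ) - ((P a i).2 : ℤ)) = 0
    · rw [if_pos ((hiff P).2 h), if_pos h]
      rw [mul_inv_cancel₀ hM0]
      simp
    · rw [if_neg (fun h' => h ((hiff P).1 h')), if_neg h]
      simp
  exact_mod_cast key

end Pool.Agent.HPP
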