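import Pool.Agent.Lib.HPP.C1
import Pool.Agent.Lib.H21AP.DivisorBound

/-!
# Project HPP, C4a (M): products of differences, divisor bound
-/

open Finset

namespace Pool.Agent.HPP

/-- The law of a product of `d` differences: probability of the value `u`. -/
noncomputable def pv (X d : ℕ) (u : ℤ) : ℝ :=
  av fun P : Fin d → Iv X × Iv X => if ∏ i, (((P i).1 : ℤ) - ((P i).2 : ℤ)) = u then 1 else 0

/-- The average of a product of functions of independent variables. -/
theorem av_pi_prod {d : ℕ} {α : Type*} [Fintype α] (g : Fin d → α → ℝ) :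
    (av fun P : Fin d → α => ∏ i, g i (P i)) = ∏ i, av (g i) := by
  classical
  unfold av
  rw [Finset.prod_div_distrib, Finset.prod_univ_sum, Fintype.piFinset_univ]
  simp [Finset.card_univ]

/-- One difference: `P(k = v) ≤ 1 / X`. -/
theorem C4_one (X : ℕ) (hX : 0 < X) (v : ℤ) :
    (av fun p : Iv X × Iv X => if ((p.1 : ℤ) - (p.2 : ℤ)) = v then (1 : ℝ) else 0) ≤ 1 / X := by
  have hcard : (Fintype.card (Iv X) : ℝ) = 2 * X + 1 := by
    rw [Fintype.card_coe, Int.card_Icc]
    have : ((X : ℤ) + 1 - -(X : ℤ)).toNat = 2 * X + 1 := by omega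
    rw [this]
    push_cast
    ring
  rw [av_prod, av_comm]
  apply av_le
  intro y
  have hX' : (0 : ℝ) < X := by exact_mod_cast hX
  have h1 : (∑ x : Iv X, if ((x : ℤ) - (y : ℤ)) = v then (1 : ℝ) else 0) ≤ 1 := by
    rw [Finset.sum_boole]
    have : (Finset.univ.filter fun x : Iv X => ((x : ℤ) - (y : ℤ)) = v).card ≤ 1 := by
      rw [Finset.card_le_one]
      intro a ha b hb
      rw [Finset.mem_filter] at ha hb
      apply Subtype.ext
      have h2 := ha.2
      have h3 := hb.2
      linarith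
    exact_mod_cast this
  show (∑ x : Iv X, if ((x : ℤ) - (y : ℤ)) = v then (1 : ℝ) else 0) / (Fintype.card (Iv X) : ℝ) ≤ 1 / X
  rw [hcard]
  have h4 : (∑ x : Iv X, if ((x : ℤ) - (y : ℤ)) = v then (1 : ℝ) else 0) / (2 * X + 1 : ℝ) ≤ 1 / (2 * X + 1 : ℝ) := by
    gcongr
  refine h4.trans ?_
  apply one_div_le_one_div_of_le hX'
  linarith

/-- The integers dividing `u`. -/
noncomputable def zdiv (u : ℤ) : Finset ℤ :=
  (u.natAbs.divisors.image fun n : ℕ => (n : ℤ)) ∪ (u.natAbs.divisors.image fun n : ℕ => -(n : ℤ))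

theorem zdiv_card (u : ℤ) : (zdiv u).card ≤ 2 * u.natAbs.divisors.card := by
  unfold zdiv
  refine (Finset.card_union_le _ _).trans ?_
  have h1 := Finset.card_image_le (s := u.natAbs.divisors) (f := fun n : ℕ => (n : ℤ))
  have h2 := Finset.card_image_le (s := u.natAbs.divisors) (f := fun n : ℕ => -(n : ℤ))
  omega

theorem mem_zdiv {u v : ℤ} (hu : u ≠ 0) (h : v ∣ u) : v ∈ zdiv u := by
  unfold zdiv
  rw [Finset.mem_union, Finset.mem_image, Finset.mem_image]
  have h1 : v.natAbs ∈ u.natAbs.divisors := by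
    rw [Nat.mem_divisors]
    exact ⟨Int.natAbs_dvd_natAbs.2 h, Int.natAbs_ne_zero.2 hu⟩
  rcases Int.natAbs_eq v with h2 | h2
  · exact Or.inl ⟨v.natAbs, h1, h2.symm⟩
  · exact Or.inr ⟨v.natAbs, h1, h2.symm⟩

/-- **C4a.** `u ≠ 0`: all factors divide `u`, `|u| ≤ (2X)^d`: at most `τ(|u|) ^ d 2 ^ d ≤ C X^ε` vectors `(k_i)`, each of probability `≤ X^(-d)`
(the pairs for different `i` are independent: `av` of a product). Divisor bound: e.g. `Pool.Agent.Lib...` (grep `card_divisors_le` / `tau_le`). -/
theorem C4_ne (d : ℕ) (ε : ℝ) (hε : 0 < ε) : ∃ C : ℝ, 0 ≤ C ∧ ∀ X : ℕ, 0 < X → ∀ u : ℤ, u ≠ 0 →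
    pv X d u ≤ C * (X : ℝ) ^ (ε - d) := by
  obtain ⟨η, hη⟩ : ∃ η : ℝ, η = ε / ((d : ℝ) ^ 2 + 1) := ⟨_, rfl⟩
  have hd0 : (0 : ℝ) ≤ (d : ℝ) ^ 2 := by positivity
  have hη0 : 0 < η := by rw [hη]; positivity
  obtain ⟨C0, hC0, hdb⟩ := Pool.Agent.Lib.H21AP.divisor_bound hη0
  refine ⟨(2 * C0) ^ d * 2 ^ ε, by positivity, ?_⟩
  intro X hX u hu
  have hX' : (1 : ℝ) ≤ X := by exact_mod_cast hX
  have hX0 : (0 : ℝ) < X := by linarith
  by_cases hbig : (2 * X) ^ d < u.natAbs
  · -- the value is too large
    have h0 : pv X d u = 0 := by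
      unfold pv av
      rw [Finset.sum_eq_zero, zero_div]
      intro P _
      rw [if_neg]
      intro h
      have h1 : u.natAbs ≤ (2 * X) ^ d := by
        have hna : ∀ (s : Finset (Fin d)) (g : Fin d → ℤ), (∏ i ∈ s, g i).natAbs = ∏ i ∈ s, (g i).natAbs :=
          fun s g => map_prod Int.natAbsHom g s
        rw [← h, hna]
        calc ∏ i, (((P i).1 : ℤ) - ((P i).2 : ℤ)).natAbs ≤ ∏ _i : Fin d, (2 * X) := by
              apply Finset.prod_le_prod' 
              intro i _
              have h2 := Finset.mem_Icc.1 (P i).1.2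
              have h3 := Finset.mem_Icc.1 (P i).2.2
              omega
          _ = (2 * X) ^ d := by simp
      omega
    rw [h0]
    positivity
  · push Not at hbig
    have hle : pv X d u ≤ ∑ v ∈ Fintype.piFinset fun _ : Fin d => zdiv u, (1 / (X : ℝ)) ^ d := by
      calc pv X d u ≤ av fun P : Fin d → Iv X × Iv X => ∑ v ∈ Fintype.piFinset fun _ : Fin d => zdiv u,
            ∏ i, (if (((P i).1 : ℤ) - ((P i).2 : ℤ)) = v i then (1 : ℝ) else 0) := by
            unfold pv
            apply av_mono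
            intro P
            split_ifs with h
            · have hmem : (fun i => (((P i).1 : ℤ) - ((P i).2 : ℤ))) ∈ Fintype.piFinset fun _ : Fin d => zdiv u := by
                rw [Fintype.mem_piFinset]
                intro i
                apply mem_zdiv hu
                rw [← h]
                exact Finset.dvd_prod_of_mem _ (Finset.mem_univ i)
              have h1 := Finset.single_le_sum (f := fun v : Fin d → ℤ =>
                ∏ i, (if (((P i).1 : ℤ) - ((P i).2 : ℤ)) = v i then (1 : ℝ) else 0))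
                (fun v _ => Finset.prod_nonneg fun i _ => by split_ifs <;> norm_num) hmem
              refine le_trans ?_ h1
              simp
            · apply Finset.sum_nonneg
              intro v _
              apply Finset.prod_nonneg
              intro i _
              split_ifs <;> norm_num
        _ = ∑ v ∈ Fintype.piFinset fun _ : Fin d => zdiv u, ∏ i, av fun p : Iv X × Iv X =>
            (if ((p.1 : ℤ) - (p.2 : ℤ)) = v i then (1 : ℝ) else 0) := by
            rw [av_sum]
            apply Finset.sum_congr rfl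
            intro v _
            exact av_pi_prod fun i (p : Iv X × Iv X) => (if ((p.1 : ℤ) - (p.2 : ℤ)) = v i then (1 : ℝ) else 0)
        _ ≤ _ := by
            apply Finset.sum_le_sum
            intro v _
            calc _ ≤ ∏ _i : Fin d, (1 / (X : ℝ)) := by
                  apply Finset.prod_le_prod
                  · intro i _
                    apply av_nonneg
                    intro p
                    split_ifs <;> norm_num
                  · intro i _
                    exact C4_one X hX (v i)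
              _ = (1 / (X : ℝ)) ^ d := by simp
    refine hle.trans ?_
    rw [Finset.sum_const, nsmul_eq_mul, Fintype.card_piFinset]
    have hu1 : 1 ≤ u.natAbs := Nat.one_le_iff_ne_zero.2 (Int.natAbs_ne_zero.2 hu)
    have h2 : ((zdiv u).card : ℝ) ≤ (2 * C0) * (((2 * X : ℕ) : ℝ) ^ d) ^ η := by
      have h3 : ((zdiv u).card : ℝ) ≤ 2 * (u.natAbs.divisors.card : ℝ) := by exact_mod_cast zdiv_card u
      have h4 := hdb u.natAbs hu1
      have h5 : ((u.natAbs : ℕ) : ℝ) ^ η ≤ (((2 * X : ℕ) : ℝ) ^ d) ^ η := by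
        apply Real.rpow_le_rpow (by positivity) _ hη0.le
        exact_mod_cast hbig
      nlinarith
    have h6 : ((((zdiv u).card : ℕ) : ℝ)) ^ d ≤ ((2 * C0) * (((2 * X : ℕ) : ℝ) ^ d) ^ η) ^ d :=
      pow_le_pow_left₀ (Nat.cast_nonneg _) h2 d
    have h7 : ((((2 * X : ℕ) : ℝ) ^ d) ^ η) ^ d ≤ 2 ^ ε * (X : ℝ) ^ ε := by
      rw [← Real.mul_rpow (by norm_num) hX0.le]
      rw [← Real.rpow_natCast, ← Real.rpow_natCast, ← Real.rpow_mul (by positivity), ← Real.rpow_mul (by positivity)]
      push_cast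
      apply Real.rpow_le_rpow_of_exponent_le (by linarith)
      rw [hη]
      have h12 : (d : ℝ) * (ε / ((d : ℝ) ^ 2 + 1) * d) = (d : ℝ) ^ 2 * ε / ((d : ℝ) ^ 2 + 1) := by ring
      rw [h12, div_le_iff₀ (by positivity)]
      nlinarith
    have h8 : (1 / (X : ℝ)) ^ d = (X : ℝ) ^ (-(d : ℝ)) := by
      rw [one_div, Real.rpow_neg hX0.le, Real.rpow_natCast, inv_pow]
    have h9 : (X : ℝ) ^ (ε - d) = (X : ℝ) ^ ε * (X : ℝ) ^ (-(d : ℝ)) := by
      rw [← Real.rpow_add hX0]
      congr 1
    rw [Finset.prod_const, Finset.card_univ, Fintype.card_fin, Nat.cast_pow, h8, h9]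
    have h10 : (0 : ℝ) ≤ (X : ℝ) ^ (-(d : ℝ)) := by positivity
    have h11 : ((((zdiv u).card : ℕ) : ℝ)) ^ d ≤ (2 * C0) ^ d * (2 ^ ε * (X : ℝ) ^ ε) := by
      refine h6.trans ?_
      rw [mul_pow]
      gcongr
    calc ((((zdiv u).card : ℕ) : ℝ)) ^ d * (X : ℝ) ^ (-(d : ℝ)) ≤
        ((2 * C0) ^ d * (2 ^ ε * (X : ℝ) ^ ε)) * (X : ℝ) ^ (-(d : ℝ)) := by gcongr
      _ = _ := by ring

/-- **C4b.** `u = 0`: one factor vanishes. -/
theorem C4_zero (X d : ℕ) (hX : 0 < X) : pv X d 0 ≤ d / X := by
  classical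
  calc pv X d 0 ≤ av fun P : Fin d → Iv X × Iv X => ∑ i : Fin d,
        (if (((P i).1 : ℤ) - ((P i).2 : ℤ)) = 0 then (1 : ℝ) else 0) := by
        unfold pv
        apply av_mono
        intro P
        split_ifs with h
        · rw [Finset.prod_eq_zero_iff] at h
          obtain ⟨i, _, hi⟩ := h
          have h1 := Finset.single_le_sum (f := fun i : Fin d =>
            (if (((P i).1 : ℤ) - ((P i).2 : ℤ)) = 0 then (1 : ℝ) else 0))
            (fun v _ => by split_ifs <;> norm_num) (Finset.mem_univ i)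
          refine le_trans ?_ h1
          simp [hi]
        · apply Finset.sum_nonneg
          intro v _
          split_ifs <;> norm_num
    _ = ∑ i : Fin d, av fun P : Fin d → Iv X × Iv X =>
        (if (((P i).1 : ℤ) - ((P i).2 : ℤ)) = 0 then (1 : ℝ) else 0) := av_sum _ _
    _ ≤ ∑ _i : Fin d, (1 / (X : ℝ)) := by
        apply Finset.sum_le_sum
        intro i _
        have h1 : (av fun P : Fin d → Iv X × Iv X =>
            (if (((P i).1 : ℤ) - ((P i).2 : ℤ)) = 0 then (1 : ℝ) else 0)) =
            ∏ j : Fin d, av fun p : Iv X × Iv X =>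
              (if j = i then (if ((p.1 : ℤ) - (p.2 : ℤ)) = 0 then (1 : ℝ) else 0) else 1) := by
          rw [← av_pi_prod fun j (p : Iv X × Iv X) =>
              (if j = i then (if ((p.1 : ℤ) - (p.2 : ℤ)) = 0 then (1 : ℝ) else 0) else 1)]
          congr 1
          funext P
          rw [Finset.prod_ite_eq' Finset.univ i]
          simp
        rw [h1, ← Finset.mul_prod_erase Finset.univ _ (Finset.mem_univ i)]
        rw [Finset.prod_eq_one]
        · simp only [if_true, mul_one]
          exact C4_one X hX 0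
        · intro j hj
          simp only [if_neg (Finset.ne_of_mem_erase hj)]
          exact av_const (1 : ℝ)
    _ = d / X := by
        rw [Finset.sum_const, Finset.card_univ, Fintype.card_fin, nsmul_eq_mul]
        ring

end Pool.Agent.HPP
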