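import Pool.Agent.Lib.HPP.C6a
import Pool.Agent.Lib.HPP.C3
import Pool.Agent.Lib.HPP.C4

/-!
# Project HPP, C6 (M): PET, concatenation and energy together
-/

open Finset Polynomial

namespace Pool.Agent.HPP

/-- **C6b. Theorem P on `ℤ/M`.** Proof. `C6_pre`, `en_ft`, `C4_main` (with `κ i * r (jj i) ≠ 0`, `M` large): `av_j en (δ k j) ≤
K n0 C X^(ε - D)` for every `k`; `C3_markov` with `lam = X^(-D + 2 ε)`: first term `n K n0 C X^(-ε)`. -/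
theorem C6_main (D : ℕ) (hD : 1 ≤ D) (q : ℕ) (Rm : ℕ) : ∃ (n E : ℕ), 0 < E ∧ ∀ ε : ℝ, 0 < ε → ∃ C : ℝ, 0 ≤ C ∧
    ∀ (M X : ℕ) [NeZero M] (N : ℝ), 0 < X → 0 < N → C * (X : ℝ) ^ D ≤ M →
    ∀ (r : Fin q → ℤ), (∀ j, r j ≠ 0) → (∀ j, |r j| ≤ Rm) → ∀ (f : Fin q → ZMod M → ℂ) (R : Fin q → ℤ[X]),
      (∀ j, FN N (f j) ∧ PD D (r j) (R j)) → ∀ f0 : ZMod M → ℂ, FN N f0 → ∀ a b : ℤ, 0 ≤ a → b ≤ X →
        (‖∑ t : ZMod M, ∑ n ∈ Ico a b, f0 t * ∏ j, f j (t + (((R j).eval n : ℤ) : ZMod M))‖ / (N * X)) ^ E ≤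
          C * ((X : ℝ) ^ (-ε) + (X : ℝ) ^ (n * (ε - D / 2)) * √(Gs (n + 1) f0) / N) := by
  classical
  obtain ⟨n0, n, E, K, κ, jj, hE, hK, hκ, hpre⟩ := C6_pre D hD q
  refine ⟨n, E, hE, fun ε hε => ?_⟩
  obtain ⟨C4, hC4, h4⟩ := C4_main D hD ε hε
  obtain ⟨Km, hKm⟩ : ∃ Km : ℕ, ∀ i, |κ i| ≤ Km := by
    refine ⟨∑ i, (κ i).natAbs, fun i => ?_⟩
    rw [Int.abs_eq_natAbs]
    exact_mod_cast Finset.single_le_sum (f := fun i => (κ i).natAbs) (fun _ _ => Nat.zero_le _) (mem_univ i)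
  obtain ⟨A, hA⟩ : ∃ A : ℝ, A = n * (K * (n0 * C4)) := ⟨_, rfl⟩
  have hA0 : 0 ≤ A := by rw [hA]; positivity
  obtain ⟨c, hc⟩ : ∃ c : ℕ, c = Km * Rm * D * 2 ^ D := ⟨_, rfl⟩
  refine ⟨K * (A + 1) + ((c : ℝ) + 1), by positivity, ?_⟩
  intro M X _ N hX hN hM r hr hrR f R hf f0 hf0 a b ha hb
  obtain ⟨J, hJ1, hJ2, hJ⟩ := hpre X hX
  obtain ⟨δ, hδ1, hδ2⟩ := hJ M r
  have hX0 : (0 : ℝ) < X := by exact_mod_cast hX
  have hMpos : (0 : ℝ) < M := by exact_mod_cast NeZero.pos M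
  have hKA : 0 ≤ K * (A + 1) := mul_nonneg hK (by linarith)
  have hcM : (c + 1) * X ^ D ≤ M := by
    have h1 : ((c : ℝ) + 1) * (X : ℝ) ^ D ≤ (K * (A + 1) + ((c : ℝ) + 1)) * (X : ℝ) ^ D :=
      mul_le_mul_of_nonneg_right (by linarith) (by positivity)
    exact_mod_cast h1.trans hM
  have hsmall : ∀ i, |κ i * r (jj i)| * D * (2 * X) ^ D < (M : ℤ) := by
    intro i
    have h1 : |κ i * r (jj i)| ≤ (Km : ℤ) * Rm := by
      rw [abs_mul]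
      exact mul_le_mul (hKm i) (hrR _) (abs_nonneg _) (by positivity)
    have h2 : |κ i * r (jj i)| * D * (2 * X) ^ D ≤ (Km : ℤ) * Rm * D * (2 * X) ^ D :=
      mul_le_mul_of_nonneg_right (mul_le_mul_of_nonneg_right h1 (by positivity)) (by positivity)
    have h3 : (Km : ℤ) * Rm * D * (2 * X) ^ D = ((c * X ^ D : ℕ) : ℤ) := by
      rw [hc]
      push_cast
      rw [mul_pow]
      ring
    have h4 : c * X ^ D < M := by
      have h5 : 0 < X ^ D := pow_pos hX D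
      have h6 : (c + 1) * X ^ D = c * X ^ D + X ^ D := by ring
      omega
    have h5 : ((c * X ^ D : ℕ) : ℤ) < M := by exact_mod_cast h4
    linarith
  have hen : ∀ k, (av fun j => en (δ k j)) ≤ K * (n0 * (C4 * (X : ℝ) ^ (ε - D))) := by
    intro k
    have h1 : (av fun j => en (δ k j)) = (∑ χ : AddChar (ZMod M) ℂ, av fun j => ‖ft (δ k j) χ‖ ^ 2) / M := by
      rw [← av_sum, ← av_div]
      congr 1
      funext j
      rw [en_ft, ZMod.card]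
    rw [h1, div_le_iff₀ hMpos]
    calc ∑ χ : AddChar (ZMod M) ℂ, (av fun j => ‖ft (δ k j) χ‖ ^ 2)
        ≤ ∑ χ : AddChar (ZMod M) ℂ, K * ∑ i, KD X χ D (κ i * r (jj i)) ^ D := sum_le_sum fun χ _ => hδ1 χ k
      _ = K * ∑ i, ∑ χ : AddChar (ZMod M) ℂ, KD X χ D (κ i * r (jj i)) ^ D := by
          rw [← mul_sum, sum_comm]
      _ ≤ K * ∑ _i : Fin n0, C4 * (X : ℝ) ^ (ε - D) * M := by
          refine mul_le_mul_of_nonneg_left (sum_le_sum fun i _ => ?_) hK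
          have h5 := h4 M X (κ i * r (jj i)) hX (mul_ne_zero (hκ i) (hr _)) (hsmall i)
          rwa [div_le_iff₀ hMpos] at h5
      _ = K * (n0 * (C4 * (X : ℝ) ^ (ε - D))) * M := by
          rw [sum_const, card_univ, Fintype.card_fin, nsmul_eq_mul]
          ring
  have hmk := C3_markov hN n δ ((X : ℝ) ^ (2 * ε - D)) (Real.rpow_pos_of_pos hX0 _) f0 hf0
  have hsq : √((X : ℝ) ^ (2 * ε - D)) ^ n = (X : ℝ) ^ (n * (ε - D / 2)) := by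
    rw [Real.sqrt_eq_rpow, ← Real.rpow_natCast, ← Real.rpow_mul hX0.le, ← Real.rpow_mul hX0.le]
    congr 1
    ring
  have hfirst : (∑ k, av fun j => en (δ k j)) / (X : ℝ) ^ (2 * ε - D) ≤ A * (X : ℝ) ^ (-ε) := by
    rw [div_le_iff₀ (Real.rpow_pos_of_pos hX0 _)]
    have h1 : (X : ℝ) ^ (-ε) * (X : ℝ) ^ (2 * ε - D) = (X : ℝ) ^ (ε - D) := by
      rw [← Real.rpow_add hX0]
      congr 1
      ring
    calc (∑ k, av fun j => en (δ k j)) ≤ ∑ _k : Fin n, K * (n0 * (C4 * (X : ℝ) ^ (ε - D))) :=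
          sum_le_sum fun k _ => hen k
      _ = A * (X : ℝ) ^ (ε - D) := by
          rw [sum_const, card_univ, Fintype.card_fin, nsmul_eq_mul, hA]
          ring
      _ = A * (X : ℝ) ^ (-ε) * (X : ℝ) ^ (2 * ε - D) := by rw [mul_assoc, h1]
  rw [hsq] at hmk
  have hu : 0 ≤ (X : ℝ) ^ (-ε) := by positivity
  obtain ⟨v, hv⟩ : ∃ v : ℝ, v = (X : ℝ) ^ (n * (ε - D / 2)) * √(Gs (n + 1) f0) / N := ⟨_, rfl⟩
  have hv0 : 0 ≤ v := by rw [hv]; positivity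
  rw [← hv] at hmk ⊢
  refine (hδ2 N hN f R hf f0 hf0 a b ha hb).trans ?_
  have h5 : K * ((av fun j => NN (List.ofFn fun k => δ k j) f0) / N) ≤ K * (A * (X : ℝ) ^ (-ε) + v) :=
    mul_le_mul_of_nonneg_left (by linarith) hK
  refine h5.trans ?_
  have h6 : K * (A * (X : ℝ) ^ (-ε) + v) ≤ K * ((A + 1) * ((X : ℝ) ^ (-ε) + v)) := by
    refine mul_le_mul_of_nonneg_left ?_ hK
    have h7 : 0 ≤ A * v := mul_nonneg hA0 hv0
    have h8 : (A + 1) * ((X : ℝ) ^ (-ε) + v) = A * (X : ℝ) ^ (-ε) + v + (A * v + (X : ℝ) ^ (-ε)) := by ring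
    linarith
  refine h6.trans ?_
  rw [← mul_assoc]
  refine mul_le_mul_of_nonneg_right ?_ (by linarith)
  have : (0 : ℝ) ≤ c := Nat.cast_nonneg c
  linarith

end Pool.Agent.HPP
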