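import Pool.Agent.Lib.HPP.A10
import Pool.Agent.Lib.HPP.B7
import Pool.Agent.Lib.HPP.C1

/-!
# Project HPP, C6a (M/L): PET and concatenation together
-/

open Finset Polynomial

namespace Pool.Agent.HPP

/-- `‖ft (cdir M X c) χ‖² = KD X χ 1 c`. -/
theorem ft_cdir (M X : ℕ) [NeZero M] (c : ℤ) (χ : AddChar (ZMod M) ℂ) : ‖ft (cdir M X c) χ‖ ^ 2 = KD X χ 1 c := by
  rfl

theorem c6a_pow (n m : ℕ) (b : Fin n → ℝ) (hb : ∀ k, 0 ≤ b k) (hm : 0 < m) :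
    (∑ k, b k) ^ m ≤ (n : ℝ) ^ m * ∑ k, b k ^ m := by
  rcases Nat.eq_zero_or_pos n with rfl | hn
  · simp [hm.ne']
  · haveI : Nonempty (Fin n) := ⟨⟨0, hn⟩⟩
    obtain ⟨k0, -, hk0⟩ := Finset.exists_max_image (Finset.univ : Finset (Fin n)) b Finset.univ_nonempty
    have h1 : ∑ k, b k ≤ n * b k0 := by
      have h2 := Finset.sum_le_card_nsmul (Finset.univ : Finset (Fin n)) b (b k0) (fun k _ => hk0 k (Finset.mem_univ k))
      rw [Finset.card_univ, Fintype.card_fin, nsmul_eq_mul] at h2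
      exact h2
    have h3 : 0 ≤ ∑ k, b k := Finset.sum_nonneg fun k _ => hb k
    calc (∑ k, b k) ^ m ≤ (n * b k0) ^ m := pow_le_pow_left₀ h3 h1 m
      _ = (n : ℝ) ^ m * b k0 ^ m := mul_pow _ _ _
      _ ≤ (n : ℝ) ^ m * ∑ k, b k ^ m := by
          apply mul_le_mul_of_nonneg_left _ (by positivity)
          exact Finset.single_le_sum (f := fun k => b k ^ m) (fun k _ => pow_nonneg (hb k) m) (Finset.mem_univ k0)

theorem c6a_exp (D : ℕ) (hD : 1 ≤ D) (x : ℝ) (hx : 0 ≤ x) (hx1 : x ≤ 1) :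
    (x ^ ((1 / 2 : ℝ) ^ (D - 1))) ^ (2 ^ (2 * D - 1)) ≤ x ^ D := by
  have h1 : ((1 / 2 : ℝ) ^ (D - 1)) * ((2 ^ (2 * D - 1) : ℕ) : ℝ) = ((2 ^ D : ℕ) : ℝ) := by
    obtain ⟨d, rfl⟩ : ∃ d, D = d + 1 := ⟨D - 1, by omega⟩
    have e1 : 2 * (d + 1) - 1 = d + (d + 1) := by omega
    rw [e1, Nat.add_sub_cancel]
    push_cast
    rw [pow_add (2 : ℝ) d (d + 1), ← mul_assoc, ← mul_pow]
    norm_num
  rw [← Real.rpow_mul_natCast hx, h1, Real.rpow_natCast]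
  exact pow_le_pow_of_le_one hx hx1 (Nat.lt_two_pow_self).le

/-- **C6a.** After PET and `2 D - 1` concatenations. `n`, `E`, `K` depend only on `D` and `q`; `ks` are the numbers `κ r_j`.
Proof. `B7_all` gives `ρ0, n0, E0, K0, c`; index type `I = Fin ρ0 → Iv X`, `α k v = cdir M X (c r k (List.ofFn v))`; `AL` is the average over `I`
(definition). `A10_conc (2 D - 1) n0`: `E1, n, C1`, `J`, `δ`. Inequality: `(K0 AL ..) ^ E1`. Fourier: by `EP`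
`av_i ‖ft (α k i) χ‖² ≤ KD D (κ_k r_{j_k}) ^ ((1/2)^(D-1)) ≤ B := ∑_k KD D (κ_k r_{j_k}) ^ ((1/2)^(D-1))`, and
`B ^ (2 ^ (2 D - 1)) ≤ (n0) ^ (2 ^ (2 D - 1)) ∑_k KD ^ (2 ^ D) ≤ n0^.. ∑_k KD ^ D` (exponents: `(1/2)^(D-1) 2^(2D-1) = 2^D ≥ D`, `KD ≤ 1`;
`inner_le_nnorm..` / `pow_sum_le`: `(∑_{k<n} x_k)^m ≤ n^m max ≤ n^m ∑ x_k^m`). -/
theorem C6_pre (D : ℕ) (hD : 1 ≤ D) (q : ℕ) : ∃ (n0 n E : ℕ) (K : ℝ) (κ : Fin n0 → ℤ) (jj : Fin n0 → Fin q), 0 < E ∧ 0 ≤ K ∧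
    (∀ k, κ k ≠ 0) ∧ ∀ (X : ℕ), 0 < X → ∃ (J : Type) (_ : Fintype J) (_ : Nonempty J), ∀ (M : ℕ) [NeZero M] (r : Fin q → ℤ),
      ∃ δ : Fin n → J → Dir (ZMod M), (∀ (χ : AddChar (ZMod M) ℂ) (k : Fin n),
        (av fun j => ‖ft (δ k j) χ‖ ^ 2) ≤ K * ∑ i, KD X χ D (κ i * r (jj i)) ^ D) ∧
      ∀ (N : ℝ), 0 < N → ∀ (f : Fin q → ZMod M → ℂ) (R : Fin q → ℤ[X]), (∀ j, FN N (f j) ∧ PD D (r j) (R j)) →
        ∀ f0 : ZMod M → ℂ, FN N f0 → ∀ a b : ℤ, 0 ≤ a → b ≤ X →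
        (‖∑ t : ZMod M, ∑ n ∈ Ico a b, f0 t * ∏ j, f j (t + (((R j).eval n : ℤ) : ZMod M))‖ / (N * X)) ^ E ≤
          K * ((av fun j => NN (List.ofFn fun k => δ k j) f0) / N) := by
  obtain ⟨ρ0, n0, E0, K0, c, hE0, hK0, hFU, hEP⟩ := B7_all D hD q
  obtain ⟨E1, n, C1, hE1, hC1, hTN⟩ := A10_conc (2 * D - 1) n0
  choose κ hκ jj hE using hEP
  refine ⟨n0, n, E0 * E1, K0 ^ E1 + C1 * (n0 : ℝ) ^ (2 ^ (2 * D - 1)), κ, jj, Nat.mul_pos hE0 hE1, by positivity, hκ, ?_⟩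
  intro X hX
  obtain ⟨J, hJ1, hJ2, hJ⟩ := hTN (Fin ρ0 → Iv X)
  refine ⟨J, hJ1, hJ2, ?_⟩
  intro M _ r
  obtain ⟨δ, hδ1, hδ2⟩ := hJ (ZMod M) (fun k v => cdir M X (c r k (List.ofFn fun i => ((v i : Iv X) : ℤ))))
  refine ⟨δ, ?_, ?_⟩
  · intro χ k
    have hb : ∀ l : Fin n0, 0 ≤ (KD X χ D (κ l * r (jj l))) ^ ((1 / 2 : ℝ) ^ (D - 1)) :=
      fun l => Real.rpow_nonneg (KD_nonneg X χ D _) _
    have hB : ∀ l : Fin n0, (av fun v : Fin ρ0 → Iv X =>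
        ‖ft (cdir M X (c r l (List.ofFn fun i => ((v i : Iv X) : ℤ)))) χ‖ ^ 2) ≤
        ∑ l : Fin n0, (KD X χ D (κ l * r (jj l))) ^ ((1 / 2 : ℝ) ^ (D - 1)) := by
      intro l
      have h1 := hE l M X χ r
      unfold AL at h1
      have h2 : (av fun v : Fin ρ0 → Iv X =>
          ‖ft (cdir M X (c r l (List.ofFn fun i => ((v i : Iv X) : ℤ)))) χ‖ ^ 2) =
          av fun v : Fin ρ0 → Iv X => KD X χ 1 (c r l (List.ofFn fun i => ((v i : Iv X) : ℤ))) := by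
        congr 1
      rw [h2]
      refine h1.trans ?_
      exact Finset.single_le_sum (f := fun l => (KD X χ D (κ l * r (jj l))) ^ ((1 / 2 : ℝ) ^ (D - 1)))
        (fun l _ => hb l) (Finset.mem_univ l)
    have h3 := hδ2 χ _ (Finset.sum_nonneg fun l _ => hb l) hB k
    refine h3.trans ?_
    have h4 := c6a_pow n0 (2 ^ (2 * D - 1)) (fun l => (KD X χ D (κ l * r (jj l))) ^ ((1 / 2 : ℝ) ^ (D - 1))) hb
      (by positivity)
    have h5 : ∑ l : Fin n0, ((KD X χ D (κ l * r (jj l))) ^ ((1 / 2 : ℝ) ^ (D - 1))) ^ (2 ^ (2 * D - 1)) ≤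
        ∑ l : Fin n0, KD X χ D (κ l * r (jj l)) ^ D :=
      Finset.sum_le_sum fun l _ => c6a_exp D hD _ (KD_nonneg X χ D _) (KD_le X χ D _)
    have h6 : 0 ≤ ∑ l : Fin n0, KD X χ D (κ l * r (jj l)) ^ D :=
      Finset.sum_nonneg fun l _ => pow_nonneg (KD_nonneg X χ D _) D
    have h7 : (0 : ℝ) ≤ (n0 : ℝ) ^ (2 ^ (2 * D - 1)) := by positivity
    calc C1 * (∑ l : Fin n0, (KD X χ D (κ l * r (jj l))) ^ ((1 / 2 : ℝ) ^ (D - 1))) ^ (2 ^ (2 * D - 1))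
        ≤ C1 * ((n0 : ℝ) ^ (2 ^ (2 * D - 1)) *
          ∑ l : Fin n0, ((KD X χ D (κ l * r (jj l))) ^ ((1 / 2 : ℝ) ^ (D - 1))) ^ (2 ^ (2 * D - 1))) :=
          mul_le_mul_of_nonneg_left h4 hC1
      _ ≤ C1 * ((n0 : ℝ) ^ (2 ^ (2 * D - 1)) * ∑ l : Fin n0, KD X χ D (κ l * r (jj l)) ^ D) :=
          mul_le_mul_of_nonneg_left (mul_le_mul_of_nonneg_left h5 h7) hC1
      _ = C1 * (n0 : ℝ) ^ (2 ^ (2 * D - 1)) * ∑ l : Fin n0, KD X χ D (κ l * r (jj l)) ^ D := by ring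
      _ ≤ (K0 ^ E1 + C1 * (n0 : ℝ) ^ (2 ^ (2 * D - 1))) * ∑ l : Fin n0, KD X χ D (κ l * r (jj l)) ^ D := by
          apply mul_le_mul_of_nonneg_right _ h6
          have h8 : (0 : ℝ) ≤ K0 ^ E1 := by positivity
          linarith
  · intro N hN f R hf f0 hf0 a b ha hb
    have h1 := hFU M X N hX hN r f R hf f0 hf0 a b ha hb
    have h2 : (AL X ρ0 fun l => NN (List.ofFn fun k => cdir M X (c r k l)) f0 / N) =
        (av fun v : Fin ρ0 → Iv X =>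
          NN (List.ofFn fun k => cdir M X (c r k (List.ofFn fun i => ((v i : Iv X) : ℤ)))) f0) / N := by
      unfold AL
      exact av_div N _
    rw [h2] at h1
    have h3 := hδ1 N f0 hN hf0
    have hNN : ∀ L : List (Dir (ZMod M)), 0 ≤ NN L f0 := fun L => av_nonneg fun o => norm_nonneg _
    have h4 : 0 ≤ (av fun j => NN (List.ofFn fun k => δ k j) f0) / N :=
      div_nonneg (av_nonneg fun j => hNN _) hN.le
    have h5 : 0 ≤ ‖∑ t : ZMod M, ∑ n ∈ Ico a b, f0 t * ∏ j, f j (t + (((R j).eval n : ℤ) : ZMod M))‖ / (N * X) := by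
      positivity
    rw [pow_mul]
    refine (pow_le_pow_left₀ (pow_nonneg h5 _) h1 E1).trans ?_
    rw [mul_pow]
    calc K0 ^ E1 * ((av fun v : Fin ρ0 → Iv X =>
          NN (List.ofFn fun k => cdir M X (c r k (List.ofFn fun i => ((v i : Iv X) : ℤ)))) f0) / N) ^ E1
        ≤ K0 ^ E1 * ((av fun j => NN (List.ofFn fun k => δ k j) f0) / N) :=
          mul_le_mul_of_nonneg_left h3 (by positivity)
      _ ≤ (K0 ^ E1 + C1 * (n0 : ℝ) ^ (2 ^ (2 * D - 1))) * ((av fun j => NN (List.ofFn fun k => δ k j) f0) / N) := by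
          apply mul_le_mul_of_nonneg_right _ h4
          have h8 : (0 : ℝ) ≤ C1 * (n0 : ℝ) ^ (2 ^ (2 * D - 1)) := by positivity
          linarith

end Pool.Agent.HPP
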