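import Pool.Agent.Lib.HPP.A3

/-!
# Project HPP, C7a (M): from `ℤ` to `ℤ/M`
-/

open Finset Polynomial

namespace Pool.Agent.HPP

open Pool.Agent.HUK (DD DL DV bxS FF GG Bdd)

/-- The function on `ℤ/M` with the values of `f` in `(-M/2, M/2]`. -/
noncomputable def lft (M : ℕ) (f : ℤ → ℂ) : ZMod M → ℂ := fun y => f y.valMinAbs

/-- `ZMod.valMinAbs_spec` / `ZMod.valMinAbs_def_pos`: for `2 |z| < M`. -/
theorem lft_val (M : ℕ) [NeZero M] (f : ℤ → ℂ) (z : ℤ) (h : 2 * |z| < M) : lft M f (z : ZMod M) = f z := by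
  unfold lft
  congr 1
  rw [ZMod.valMinAbs_spec]
  refine ⟨rfl, ?_, ?_⟩
  · have := neg_abs_le z
    linarith
  · have := le_abs_self z
    linarith

/-- Support: the image of the finite set under the cast (if `f y = 0` off `S` then `lft M f` vanishes off the image of `S`: `y = valMinAbs y` in `ℤ/M`). -/
theorem lft_FN (M : ℕ) [NeZero M] {N : ℝ} {f : ℤ → ℂ} (hf : FN N f) : FN N (lft M f) := by
  classical
  obtain ⟨S, hS, hS0⟩ := hf.sup
  refine ⟨fun y => hf.le _, S.image (fun z : ℤ => (z : ZMod M)), ?_, fun y hy => ?_⟩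
  · refine le_trans ?_ hS
    exact_mod_cast card_image_le
  · unfold lft
    apply hS0
    intro h
    apply hy
    rw [mem_image]
    exact ⟨_, h, ZMod.coe_valMinAbs y⟩

/-- Sums: for `f` supported in `[-X1, X1)`, `2 X1 < M`. -/
theorem lft_sum (M : ℕ) [NeZero M] (X1 : ℕ) (f : ℤ → ℂ) (g : ZMod M → ℂ) (hf : ∀ y, y ∉ Ico (-(X1 : ℤ)) X1 → f y = 0)
    (hM : 2 * X1 < M) : ∑ y : ZMod M, lft M f y * g y = ∑ t ∈ Ico (-(X1 : ℤ)) X1, f t * g (t : ZMod M) := by
  classical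
  have hz : ∀ t ∈ Ico (-(X1 : ℤ)) X1, 2 * |t| < M := by
    intro t ht
    rw [mem_Ico] at ht
    have h1 : |t| ≤ X1 := abs_le.mpr ⟨ht.1, ht.2.le⟩
    have h2 : (2 * X1 : ℤ) < M := by exact_mod_cast hM
    linarith
  have hinj : Set.InjOn (fun z : ℤ => (z : ZMod M)) (Ico (-(X1 : ℤ)) X1 : Finset ℤ) := by
    intro a ha b hb hab
    have h1 := lft_val M (fun z => (z : ℂ)) a (hz a ha)
    have h2 := lft_val M (fun z => (z : ℂ)) b (hz b hb)
    have h3 : ((a : ZMod M)) = b := hab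
    rw [h3, h2] at h1
    exact_mod_cast h1.symm
  calc ∑ y : ZMod M, lft M f y * g y
      = ∑ y ∈ (Ico (-(X1 : ℤ)) X1).image (fun z : ℤ => (z : ZMod M)), lft M f y * g y := by
        symm
        refine Finset.sum_subset (subset_univ _) fun y _ hy => ?_
        have h0 : lft M f y = 0 := by
          unfold lft
          apply hf
          intro h
          apply hy
          rw [mem_image]
          exact ⟨_, h, ZMod.coe_valMinAbs y⟩
        rw [h0, zero_mul]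
    _ = ∑ t ∈ Ico (-(X1 : ℤ)) X1, lft M f (t : ZMod M) * g (t : ZMod M) := Finset.sum_image hinj
    _ = ∑ t ∈ Ico (-(X1 : ℤ)) X1, f t * g (t : ZMod M) :=
        Finset.sum_congr rfl fun t ht => by rw [lft_val M f t (hz t ht)]

/-- Auxiliary: sums over a box. -/
theorem c7a_bx {R : Type*} [AddCommMonoid R] (s N : ℕ) (F : (Fin (s + 1) → ℤ) → R) :
    ∑ h ∈ bxS (s + 1) N, F h = ∑ a ∈ Ioo (-(N : ℤ)) N, ∑ h ∈ bxS s N, F (Fin.cons a h) := by
  rw [← Finset.sum_product']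
  refine Finset.sum_bij' (fun h _ => (h 0, fun i => h i.succ)) (fun p _ => Fin.cons p.1 p.2) ?_ ?_ ?_ ?_ ?_
  · intro h hh
    unfold bxS at hh ⊢
    rw [Fintype.mem_piFinset] at hh
    rw [mem_product, Fintype.mem_piFinset]
    exact ⟨hh 0, fun i => hh i.succ⟩
  · intro p hp
    unfold bxS at hp ⊢
    rw [mem_product, Fintype.mem_piFinset] at hp
    rw [Fintype.mem_piFinset]
    intro i
    refine Fin.cases ?_ (fun j => ?_) i
    · exact hp.1
    · simp only [Fin.cons_succ]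
      exact hp.2 j
  · intro h _
    funext i
    refine Fin.cases ?_ (fun j => ?_) i
    · rfl
    · rfl
  · intro p _
    rfl
  · intro h _
    congr 1
    funext i
    refine Fin.cases ?_ (fun j => ?_) i
    · rfl
    · rfl

theorem c7a_cons {s : ℕ} (a : ℤ) (h : Fin s → ℤ) (f : ℤ → ℂ) :
    DV (Fin.cons a h : Fin (s + 1) → ℤ) f = DV h (DD a f) := by
  unfold DV
  rw [List.ofFn_succ]
  simp only [Fin.cons_zero, Fin.cons_succ]
  rfl

theorem c7a_succ {X s : ℕ} {f : ℤ → ℂ} :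
    GG X (s + 1) f = ∑ a ∈ Ioo (-(2 * X : ℤ)) (2 * X), GG X s (DD a f) := by
  unfold GG
  rw [c7a_bx, Complex.re_sum]
  push_cast
  refine sum_congr rfl fun a _ => ?_
  congr 1
  refine sum_congr rfl fun h _ => ?_
  unfold FF
  rw [c7a_cons]

theorem c7a_zero (X : ℕ) (f : ℤ → ℂ) : GG X 0 f = (∑ y ∈ Ico (-(X : ℤ)) X, f y).re := by
  simp [GG, bxS, FF, DV, DL]

theorem c7a_sq {X : ℕ} {f : ℤ → ℂ} (hf : ∀ y, y ∉ Ico (-(X : ℤ)) X → f y = 0) :
    ∑ a ∈ Ioo (-(2 * X : ℤ)) (2 * X), ∑ y ∈ Ico (-(X : ℤ)) X, DD a f y =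
      ((‖∑ y ∈ Ico (-(X : ℤ)) X, f y‖ ^ 2 : ℝ) : ℂ) := by
  have h1 : ((‖∑ y ∈ Ico (-(X : ℤ)) X, f y‖ ^ 2 : ℝ) : ℂ) =
      ∑ y ∈ Ico (-(X : ℤ)) X, ∑ u ∈ Ico (-(X : ℤ)) X, f y * (starRingEnd ℂ) (f u) := by
    push_cast
    rw [← Complex.mul_conj', map_sum, Finset.sum_mul]
    refine sum_congr rfl fun y _ => ?_
    rw [Finset.mul_sum]
  rw [h1, Finset.sum_comm]
  refine sum_congr rfl fun y hy => ?_
  have hy' := mem_Ico.1 hy
  have h2 : ∑ u ∈ Ico (-(X : ℤ)) X, f y * (starRingEnd ℂ) (f u) =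
      ∑ u ∈ Ioo (y - 2 * X) (y + 2 * X), f y * (starRingEnd ℂ) (f u) := by
    refine Finset.sum_subset (fun u hu => ?_) fun u _ hu => ?_
    · rw [mem_Ico] at hu
      rw [mem_Ioo]
      omega
    · rw [hf u hu, map_zero, mul_zero]
  rw [h2]
  refine Finset.sum_bij' (fun a _ => y + a) (fun u _ => u - y) ?_ ?_ ?_ ?_ ?_
  · intro a ha
    rw [mem_Ioo] at ha ⊢
    omega
  · intro u hu
    rw [mem_Ioo] at hu ⊢
    omega
  · intro a _
    ring
  · intro u _
    ring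
  · intro a _
    rfl

/-- Auxiliary: the difference operators. -/
theorem c7a_D2 (M : ℕ) [NeZero M] (X1 : ℕ) (f : ℤ → ℂ) (hf : Bdd X1 f) (hM : 6 * X1 < M) (z : ℤ)
    (hz : z ∈ Ioo (-(2 * X1 : ℤ)) (2 * X1)) : D2 0 (z : ZMod M) (lft M f) = lft M (DD z f) := by
  funext y
  show lft M f (y + 0) * (starRingEnd ℂ) (lft M f (y + (z : ZMod M))) =
    f y.valMinAbs * (starRingEnd ℂ) (f (y.valMinAbs + z))
  rw [add_zero]
  by_cases hy : y.valMinAbs ∈ Ico (-(X1 : ℤ)) X1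
  · rw [mem_Ico] at hy
    rw [mem_Ioo] at hz
    have h1 : y + (z : ZMod M) = ((y.valMinAbs + z : ℤ) : ZMod M) := by
      rw [Int.cast_add, ZMod.coe_valMinAbs]
    have h2 : 2 * |y.valMinAbs + z| < M := by
      have h3 : |y.valMinAbs + z| ≤ 3 * X1 := by
        rw [abs_le]
        constructor <;> omega
      have h4 : (6 * X1 : ℤ) < M := by exact_mod_cast hM
      linarith
    rw [h1, lft_val M f _ h2]
    rfl
  · have h0 : f y.valMinAbs = 0 := hf.sup _ hy
    have h1 : lft M f y = 0 := h0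
    rw [h1, h0, zero_mul, zero_mul]

theorem c7a_Gs0 {G : Type} [AddCommGroup G] [Fintype G] (s : ℕ) : Gs (s + 1) (fun _ : G => (0 : ℂ)) = 0 := by
  induction s with
  | zero =>
    show ‖∑ _y : G, (0 : ℂ)‖ ^ 2 = 0
    rw [Finset.sum_const_zero, norm_zero]
    norm_num
  | succ s ih =>
    show ∑ u : G, Gs (s + 1) (D2 0 u (fun _ : G => (0 : ℂ))) = 0
    refine Finset.sum_eq_zero fun u _ => ?_
    have h1 : D2 0 u (fun _ : G => (0 : ℂ)) = fun _ : G => (0 : ℂ) := by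
      funext y
      show (0 : ℂ) * (starRingEnd ℂ) 0 = 0
      rw [zero_mul]
    rw [h1]
    exact ih

/-- **C7a. Gowers norms.** Proof. Induction on `s`. `s = 0`: `Gs 1 = ‖∑ f‖² = ∑_h ∑_y f(y) conj f(y + h)` (`|h| < 2 X1`). Step:
`D2 0 u (lft M f)` is `lft M (DD z f)` for `u = z` in `ℤ/M`, `|z| < 2 X1`, and zero for the other `u` (`6 X1 < M`); `GG X (s + 2) f =
∑_{|z| < 2X} GG X (s + 1) (DD z f)` (grep `GG_step`, `gg_succ` in HUK; or prove it: `bxS (s+2)`, `Fin.cons`, `List.ofFn_succ`). -/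
theorem C7_Gs (s : ℕ) : ∀ (M : ℕ) [NeZero M] (X1 : ℕ) (f : ℤ → ℂ), Bdd X1 f → 6 * X1 < M →
    Gs (s + 1) (lft M f) = GG X1 (s + 1) f := by
  classical
  induction s with
  | zero =>
    intro M _ X1 f hf hM
    rw [c7a_succ]
    have h1 : ∑ a ∈ Ioo (-(2 * X1 : ℤ)) (2 * X1), GG X1 0 (DD a f) =
        (∑ a ∈ Ioo (-(2 * X1 : ℤ)) (2 * X1), ∑ y ∈ Ico (-(X1 : ℤ)) X1, DD a f y).re := by
      rw [Complex.re_sum]
      exact Finset.sum_congr rfl fun a _ => c7a_zero X1 _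
    rw [h1, c7a_sq hf.sup, Complex.ofReal_re]
    show ‖∑ y, lft M f y‖ ^ 2 = _
    have h2 := lft_sum M X1 f (fun _ => 1) hf.sup (by omega)
    simp only [mul_one] at h2
    rw [h2]
  | succ s ih =>
    intro M _ X1 f hf hM
    rw [c7a_succ]
    show ∑ u : ZMod M, Gs (s + 1) (D2 0 u (lft M f)) = _
    have hM4 : (4 * X1 : ℤ) < M := by
      have : 4 * X1 < M := by omega
      exact_mod_cast this
    have hz : ∀ t ∈ Ioo (-(2 * X1 : ℤ)) (2 * X1), 2 * |t| < M := by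
      intro t ht
      rw [mem_Ioo] at ht
      have h1 : |t| ≤ 2 * X1 := abs_le.mpr ⟨by linarith [ht.1], ht.2.le⟩
      linarith
    have hinj : Set.InjOn (fun z : ℤ => (z : ZMod M)) (Ioo (-(2 * X1 : ℤ)) (2 * X1) : Finset ℤ) := by
      intro a ha b hb hab
      have h1 := lft_val M (fun z => (z : ℂ)) a (hz a ha)
      have h2 := lft_val M (fun z => (z : ℂ)) b (hz b hb)
      have h3 : ((a : ZMod M)) = b := hab
      rw [h3, h2] at h1
      exact_mod_cast h1.symm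
    have hout : ∀ u : ZMod M, u ∉ (Ioo (-(2 * X1 : ℤ)) (2 * X1)).image (fun z : ℤ => (z : ZMod M)) →
        Gs (s + 1) (D2 0 u (lft M f)) = 0 := by
      intro u hu
      have h1 : D2 0 u (lft M f) = fun _ : ZMod M => (0 : ℂ) := by
        funext y
        show lft M f (y + 0) * (starRingEnd ℂ) (lft M f (y + u)) = 0
        rw [add_zero]
        by_cases hy : y.valMinAbs ∈ Ico (-(X1 : ℤ)) X1
        · by_cases hw : (y + u).valMinAbs ∈ Ico (-(X1 : ℤ)) X1
          · exfalso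
            apply hu
            rw [mem_image]
            refine ⟨(y + u).valMinAbs - y.valMinAbs, ?_, ?_⟩
            · rw [mem_Ico] at hy hw
              rw [mem_Ioo]
              omega
            · show (((y + u).valMinAbs - y.valMinAbs : ℤ) : ZMod M) = u
              rw [Int.cast_sub, ZMod.coe_valMinAbs, ZMod.coe_valMinAbs]
              ring
          · have h0 : lft M f (y + u) = 0 := hf.sup _ hw
            rw [h0, map_zero, mul_zero]
        · have h0 : lft M f y = 0 := hf.sup _ hy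
          rw [h0, zero_mul]
      rw [h1]
      exact c7a_Gs0 s
    calc ∑ u : ZMod M, Gs (s + 1) (D2 0 u (lft M f))
        = ∑ u ∈ (Ioo (-(2 * X1 : ℤ)) (2 * X1)).image (fun z : ℤ => (z : ZMod M)),
            Gs (s + 1) (D2 0 u (lft M f)) := by
          symm
          exact Finset.sum_subset (subset_univ _) fun u _ hu => hout u hu
      _ = ∑ z ∈ Ioo (-(2 * X1 : ℤ)) (2 * X1), Gs (s + 1) (D2 0 (z : ZMod M) (lft M f)) :=
          Finset.sum_image hinj
      _ = ∑ z ∈ Ioo (-(2 * X1 : ℤ)) (2 * X1), GG X1 (s + 1) (DD z f) := by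
          refine Finset.sum_congr rfl fun z hzz => ?_
          rw [c7a_D2 M X1 f hf hM z hzz]
          refine ih M X1 (DD z f) ⟨fun y => ?_, fun y hy => ?_⟩ hM
          · unfold DD
            rw [norm_mul, RCLike.norm_conj]
            exact mul_le_one₀ (hf.le _) (norm_nonneg _) (hf.le _)
          · unfold DD
            rw [hf.sup y hy, zero_mul]

end Pool.Agent.HPP
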