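import Pool.Agent.Lib.HPP.C6
import Pool.Agent.Lib.HPP.C7a

/-!
# Project HPP, C7 (M): Theorem P on the integers
-/

open Finset Polynomial

namespace Pool.Agent.HPP

open Pool.Agent.HUK (DD DL DV bxS FF GG Bdd)

/-- **C7b. Theorem P.** Proof. `C6_main`; choose `M` larger than `C X^D`, `6 X1`, `2 |y|` for all `y` in the supports of the `f j`,
and `2 |t + R_j(n)|` for `t ∈ [-X1, X1)`, `0 ≤ n < X`. Then `lft M (f j) (t + R_j(n)) = f j (t + R_j(n))` (`lft_val`), the sum is that on `ℤ/M`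
(`lft_sum`), `C7_Gs`. -/
theorem C7_P (D : ℕ) (hD : 1 ≤ D) (q : ℕ) (Rm : ℕ) : ∃ (n E : ℕ), 0 < E ∧ ∀ ε : ℝ, 0 < ε → ∃ C : ℝ, 0 ≤ C ∧
    ∀ (X X1 : ℕ) (N : ℝ), 0 < X → 0 < X1 → 0 < N →
    ∀ (r : Fin q → ℤ), (∀ j, r j ≠ 0) → (∀ j, |r j| ≤ Rm) → ∀ (f : Fin q → ℤ → ℂ) (R : Fin q → ℤ[X]),
      (∀ j, FN N (f j) ∧ PD D (r j) (R j)) → ∀ f0 : ℤ → ℂ, FN N f0 → Bdd X1 f0 → ∀ a b : ℤ, 0 ≤ a → b ≤ X →
        (‖∑ t ∈ Ico (-(X1 : ℤ)) X1, ∑ n ∈ Ico a b, f0 t * ∏ j, f j (t + (R j).eval n)‖ / (N * X)) ^ E ≤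
          C * ((X : ℝ) ^ (-ε) + (X : ℝ) ^ (n * (ε - D / 2)) * √(GG X1 (n + 1) f0) / N) := by
  obtain ⟨n, E, hE, h⟩ := C6_main D hD q Rm
  refine ⟨n, E, hE, fun ε hε => ?_⟩
  obtain ⟨C, hC, h⟩ := h ε hε
  refine ⟨C, hC, ?_⟩
  intro X X1 N hX hX1 hN r hr hr' f R hf f0 hf0 hB a b ha hb
  obtain ⟨B, hBd⟩ : ∃ B : ℕ, B = ∑ j : Fin q, ∑ t ∈ Ico (-(X1 : ℤ)) X1, ∑ n ∈ Ico a b, (t + (R j).eval n).natAbs := ⟨_, rfl⟩
  have hBle : ∀ (j : Fin q) (t : ℤ), t ∈ Ico (-(X1 : ℤ)) X1 → ∀ n : ℤ, n ∈ Ico a b → (t + (R j).eval n).natAbs ≤ B := by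
    intro j t ht n hn
    rw [hBd]
    calc (t + (R j).eval n).natAbs ≤ ∑ n ∈ Ico a b, (t + (R j).eval n).natAbs :=
          Finset.single_le_sum (f := fun n => (t + (R j).eval n).natAbs) (fun _ _ => Nat.zero_le _) hn
      _ ≤ ∑ t ∈ Ico (-(X1 : ℤ)) X1, ∑ n ∈ Ico a b, (t + (R j).eval n).natAbs :=
          Finset.single_le_sum (f := fun t => ∑ n ∈ Ico a b, (t + (R j).eval n).natAbs) (fun _ _ => Nat.zero_le _) ht
      _ ≤ _ :=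
          Finset.single_le_sum (f := fun j => ∑ t ∈ Ico (-(X1 : ℤ)) X1, ∑ n ∈ Ico a b, (t + (R j).eval n).natAbs)
            (fun _ _ => Nat.zero_le _) (Finset.mem_univ j)
  obtain ⟨M, hM⟩ : ∃ M : ℕ, M = ⌈C * (X : ℝ) ^ D⌉₊ + 6 * X1 + 2 * B + 1 := ⟨_, rfl⟩
  have : NeZero M := ⟨by omega⟩
  have hCM : C * (X : ℝ) ^ D ≤ M := by
    refine (Nat.le_ceil _).trans ?_
    exact_mod_cast (show ⌈C * (X : ℝ) ^ D⌉₊ ≤ M by omega)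
  have h1 := h M X N hX hN hCM r hr hr' (fun j => lft M (f j)) R (fun j => ⟨lft_FN M (hf j).1, (hf j).2⟩)
    (lft M f0) (lft_FN M hf0) a b ha hb
  rw [C7_Gs n M X1 f0 hB (by omega)] at h1
  have h2 : (∑ t : ZMod M, ∑ n ∈ Ico a b, lft M f0 t * ∏ j, lft M (f j) (t + (((R j).eval n : ℤ) : ZMod M))) =
      ∑ t ∈ Ico (-(X1 : ℤ)) X1, ∑ n ∈ Ico a b, f0 t * ∏ j, f j (t + (R j).eval n) := by
    have h3 : (∑ t : ZMod M, ∑ n ∈ Ico a b, lft M f0 t * ∏ j, lft M (f j) (t + (((R j).eval n : ℤ) : ZMod M))) =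
        ∑ t : ZMod M, lft M f0 t * (∑ n ∈ Ico a b, ∏ j, lft M (f j) (t + (((R j).eval n : ℤ) : ZMod M))) := by
      apply Finset.sum_congr rfl
      intro t _
      rw [Finset.mul_sum]
    rw [h3, lft_sum M X1 f0 (fun t => ∑ n ∈ Ico a b, ∏ j, lft M (f j) (t + (((R j).eval n : ℤ) : ZMod M))) hB.sup (by omega)]
    apply Finset.sum_congr rfl
    intro t ht
    rw [Finset.mul_sum]
    apply Finset.sum_congr rfl
    intro n hn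
    congr 1
    apply Finset.prod_congr rfl
    intro j _
    rw [← Int.cast_add]
    apply lft_val
    have h4 := hBle j t ht n hn
    rw [Int.abs_eq_natAbs]
    omega
  rw [h2] at h1
  exact h1

end Pool.Agent.HPP
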