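import Pool.Agent.Lib.HUK.Defs

/-!
# Project HPP: systems of polynomials in one parameter. Definitions for modules A (concatenation) and C (energy)

Paper proof: `PROOF.md`. Averages `av`, `avc`; the class `FN N` of functions bounded by `1` with at most `N` nonzero values;
directions `Dir G` (finite families in `G`), the box averages `NN L f` (absolute values inside), adapted families `Ad`.
-/

open Finset

namespace Pool.Agent.HPP

noncomputable section

/-- The average of a real function on a finite type. -/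
def av {ι : Type*} [Fintype ι] (F : ι → ℝ) : ℝ := (∑ x, F x) / Fintype.card ι

/-- The average of a complex function on a finite type. -/
def avc {ι : Type*} [Fintype ι] (F : ι → ℂ) : ℂ := (∑ x, F x) / Fintype.card ι

/-- Bounded by `1`, at most `N` nonzero values. -/
structure FN {G : Type} (N : ℝ) (f : G → ℂ) : Prop where
  le : ∀ y, ‖f y‖ ≤ 1
  sup : ∃ S : Finset G, (S.card : ℝ) ≤ N ∧ ∀ y, y ∉ S → f y = 0

/-- A direction: a finite non-empty family of elements of `G`. -/
structure Dir (G : Type) where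
  ι : Type
  [fin : Fintype ι]
  [non : Nonempty ι]
  a : ι → G

attribute [instance] Dir.fin Dir.non

/-- The family of the differences. -/
def Dir.sub {G : Type} [Sub G] (d e : Dir G) : Dir G := ⟨d.ι × e.ι, fun p => d.a p.1 - e.a p.2⟩

/-- The difference operator with two shifts. -/
def D2 {G : Type} [Add G] (a b : G) (f : G → ℂ) : G → ℂ := fun y => f (y + a) * (starRingEnd ℂ) (f (y + b))

/-- The index set: a pair of indices for every direction. -/
def Om {G : Type} : List (Dir G) → Type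
  | [] => Unit
  | d :: L => (d.ι × d.ι) × Om L

instance omFin {G : Type} : (L : List (Dir G)) → Fintype (Om L)
  | [] => inferInstanceAs (Fintype Unit)
  | d :: L => haveI := omFin L; inferInstanceAs (Fintype ((d.ι × d.ι) × Om L))

instance omNe {G : Type} : (L : List (Dir G)) → Nonempty (Om L)
  | [] => inferInstanceAs (Nonempty Unit)
  | d :: L => haveI := omNe L; inferInstanceAs (Nonempty ((d.ι × d.ι) × Om L))

/-- Iterated differences. -/
def nab {G : Type} [Add G] : (L : List (Dir G)) → Om L → (G → ℂ) → G → ℂ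
  | [], _, f => f
  | d :: L, o, f => D2 (d.a o.1.1) (d.a o.1.2) (nab L o.2 f)

/-- The shift of the first vertex. -/
def sh {G : Type} [AddCommGroup G] : (L : List (Dir G)) → Om L → G
  | [], _ => 0
  | d :: L, o => d.a o.1.1 + sh L o.2

/-- **Box average with absolute values inside** for the directions in the list. -/
def NN {G : Type} [AddCommGroup G] [Fintype G] (L : List (Dir G)) (f : G → ℂ) : ℝ :=
  av fun o : Om L => ‖∑ y, nab L o f y‖

/-- The product of the vertices other than the first one, relative to the first one (see `A4`). -/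
def Phi {G : Type} [AddCommGroup G] : (L : List (Dir G)) → (G → ℂ) → Om L → G → ℂ
  | [], _, _ => fun _ => 1
  | d :: L, f, o => fun y => (starRingEnd ℂ) (f (y + (d.a o.1.2 - d.a o.1.1)) * Phi L f o.2 (y + (d.a o.1.2 - d.a o.1.1))) *
      Phi L f o.2 y

/-- Adapted families of functions. -/
def Ad {G : Type} [AddCommGroup G] (N : ℝ) : (L : List (Dir G)) → (Om L → G → ℂ) → Prop
  | [], Φ => ∃ ξ : ℂ, ‖ξ‖ ≤ 1 ∧ ∀ o y, Φ o y = ξ
  | d :: L, Φ => ∃ (ξ : (d.ι × d.ι) × Om L → ℂ) (U Φ' : Om L → G → ℂ), (∀ o, ‖ξ o‖ ≤ 1) ∧ (∀ o, FN N (U o)) ∧ Ad N L Φ' ∧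
      ∀ (o : (d.ι × d.ι) × Om L) (y : G), Φ o y = ξ o * U o.2 (y + (d.a o.1.2 - d.a o.1.1)) * Φ' o.2 y

/-- The Fourier transform of a direction. -/
def ft {G : Type} [AddCommGroup G] (d : Dir G) (χ : AddChar G ℂ) : ℂ := avc fun x => χ (d.a x)

/-- **The statement `T_p`** (`PROOF.md`, section A): `p` pure directions `α`, `q` extra directions `γ`. -/
def TP (p q E n : ℕ) (C : ℝ) : Prop := ∀ (I : Type) [Fintype I] [Nonempty I], ∃ (J : Type) (_ : Fintype J) (_ : Nonempty J),
  ∀ (G : Type) [AddCommGroup G] [Fintype G] (α : Fin p → I → Dir G) (γ : Fin q → I → Dir G), ∃ δ : Fin n → J → Dir G,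
    (∀ (N : ℝ) (f : G → ℂ), 0 < N → FN N f →
      ((av fun i => NN (List.ofFn (fun l => α l i) ++ List.ofFn (fun l => γ l i)) f) / N) ^ E ≤
        (av fun j => NN (List.ofFn fun k => δ k j) f) / N) ∧
    ∀ (χ : AddChar G ℂ) (B B' : ℝ), 0 ≤ B → 0 ≤ B' → (∀ l, (av fun i => ‖ft (α l i) χ‖ ^ 2) ≤ B) →
      (∀ l, (av fun i => ‖ft (γ l i) χ‖ ^ 2) ≤ B') → ∀ k, (av fun j => ‖ft (δ k j) χ‖ ^ 2) ≤ C * (B ^ 2 + B')

/-- **The iterated concatenation**: all directions become sums of `2 ^ ν` independent ones. -/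
def TN (p ν E n : ℕ) (C : ℝ) : Prop := ∀ (I : Type) [Fintype I] [Nonempty I], ∃ (J : Type) (_ : Fintype J) (_ : Nonempty J),
  ∀ (G : Type) [AddCommGroup G] [Fintype G] (α : Fin p → I → Dir G), ∃ δ : Fin n → J → Dir G,
    (∀ (N : ℝ) (f : G → ℂ), 0 < N → FN N f →
      ((av fun i => NN (List.ofFn fun l => α l i) f) / N) ^ E ≤ (av fun j => NN (List.ofFn fun k => δ k j) f) / N) ∧
    ∀ (χ : AddChar G ℂ) (B : ℝ), 0 ≤ B → (∀ l, (av fun i => ‖ft (α l i) χ‖ ^ 2) ≤ B) →
      ∀ k, (av fun j => ‖ft (δ k j) χ‖ ^ 2) ≤ C * B ^ (2 ^ ν)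

/-- The energy of a direction: the probability that two independent members agree. -/
def en {G : Type} [DecidableEq G] (d : Dir G) : ℝ := av fun p : d.ι × d.ι => if d.a p.1 = d.a p.2 then 1 else 0

/-- The power `2 ^ s` of the unnormalised `U^s` norm on a finite group, `s ≥ 1`. -/
def Gs {G : Type} [AddCommGroup G] [Fintype G] : ℕ → (G → ℂ) → ℝ
  | 0, f => ‖∑ y, f y‖
  | 1, f => ‖∑ y, f y‖ ^ 2
  | s + 2, f => ∑ u, Gs (s + 1) (D2 0 u f)

/-- The interval `[-X, X]` as a type. -/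
abbrev Iv (X : ℕ) : Type := ↥(Icc (-(X : ℤ)) X)

instance ivNe (X : ℕ) : Nonempty (Iv X) := ⟨⟨0, by rw [mem_Icc]; omega⟩⟩

/-- The direction `c m`, `|m| ≤ X`, in `ℤ/M`. -/
def cdir (M X : ℕ) (c : ℤ) : Dir (ZMod M) := ⟨Iv X, fun m => ((c * (m : ℤ) : ℤ) : ZMod M)⟩

/-- Average over the parameters `l ∈ [-X, X]^ρ` (as lists). -/
def AL (X ρ : ℕ) (F : List ℤ → ℝ) : ℝ := av fun v : Fin ρ → Iv X => F (List.ofFn fun i => ((v i : Iv X) : ℤ))

/-- `KD X χ d x = avg χ (x k_1 ⋯ k_d)`, every `k_i` the difference of two independent elements of `[-X, X]`. -/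
def KD {M : ℕ} (X : ℕ) (χ : AddChar (ZMod M) ℂ) : ℕ → ℤ → ℝ
  | 0, _ => 1
  | 1, x => ‖avc fun m : Iv X => χ ((x * (m : ℤ) : ℤ) : ZMod M)‖ ^ 2
  | d + 2, x => av fun p : Iv X × Iv X => KD X χ (d + 1) (x * ((p.1 : ℤ) - (p.2 : ℤ)))

end

end Pool.Agent.HPP
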